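import Pool.Agent.U759.TP.Loc
set_option autoImplicit false

/-!
Local branches at a simple pole of a rational function.
-/

namespace Pool.Agent.U759.TQ

open Filter Topology Polynomial Set

open Pool.Agent.U759.TP (contDiff_eval)

/-- The data of a branch of `(M/N)⁻¹` at a simple zero `b` of `M`, which is a zero of `A_i`. -/
theorem exists_branch {κ : ℕ} (N M : ℂ[X]) (A B : Fin κ → ℂ[X]) (i : Fin κ) {b : ℂ}
    (hM0 : M.eval b = 0) (hM1 : (derivative M).eval b ≠ 0) (hN : N.eval b ≠ 0)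
    (hAi : A i ≠ 0) (hA0 : (A i).eval b = 0) (hA : ∀ m, m ≠ i → (A m).eval b ≠ 0)
    (hB : ∀ m, (B m).eval b ≠ 0) :
    ∃ (δ : ℝ) (ψ : ℂ → ℂ) (e : ℕ) (Φ : Fin κ → ℂ → ℂ), 0 < δ ∧ e ≠ 0 ∧
      ∀ w, ‖w‖ < δ → ContDiffAt ℂ 2 ψ w ∧ M.eval (ψ w) = w * N.eval (ψ w) ∧
        N.eval (ψ w) ≠ 0 ∧ ∀ m, (B m).eval (ψ w) ≠ 0 ∧ ContDiffAt ℂ 2 (Φ m) w ∧ Φ m w ≠ 0 ∧
          (A m).eval (ψ w) / (B m).eval (ψ w) = w ^ (if m = i then e else 0) * Φ m w := by
  classical
  obtain ⟨M1, hMM⟩ := dvd_iff_isRoot.2 hM0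
  have hM1b : M1.eval b ≠ 0 := by
    intro h
    rw [hMM, derivative_mul, eval_add, eval_mul, eval_mul, h, mul_zero, eval_sub, eval_X,
      eval_C, sub_self, zero_mul, add_zero] at hM1
    exact hM1 rfl
  obtain ⟨Q, hQ, hQ1⟩ := exists_eq_pow_rootMultiplicity_mul_and_not_dvd (A i) hAi b
  set e : ℕ := rootMultiplicity b (A i) with he
  have he0 : e ≠ 0 := ((rootMultiplicity_pos hAi).2 hA0).ne'
  have hQb : Q.eval b ≠ 0 := fun h => hQ1 (dvd_iff_isRoot.2 h)
  have hf : ContDiffAt ℂ 2 (fun x => M.eval x / N.eval x) b :=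
    (contDiff_eval M).contDiffAt.div (contDiff_eval N).contDiffAt hN
  have hd : HasDerivAt (fun x => M.eval x / N.eval x)
      (((derivative M).eval b * N.eval b - M.eval b * (derivative N).eval b) / N.eval b ^ 2) b :=
    (M.hasDerivAt b).div (N.hasDerivAt b) hN
  have hd0 : ((derivative M).eval b * N.eval b - M.eval b * (derivative N).eval b) /
      N.eval b ^ 2 ≠ 0 := by
    rw [hM0, zero_mul, sub_zero]
    exact div_ne_zero (mul_ne_zero hM1 hN) (pow_ne_zero 2 hN)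
  have hf' := hd.hasFDerivAt_equiv hd0
  have hn : (2 : WithTop ℕ∞) ≠ 0 := by norm_num
  set ψ := hf.localInverse hf' hn with hψ
  have hfb : M.eval b / N.eval b = 0 := by rw [hM0, zero_div]
  have e0 : ψ 0 = b := by
    have := hf.localInverse_apply_image hf' hn
    simp only [hfb] at this
    exact this
  have hc : ContDiffAt ℂ 2 ψ 0 := by
    have := hf.to_localInverse hf' hn
    simp only [hfb] at this
    exact this
  have hr : ∀ᶠ y in 𝓝 (0 : ℂ), M.eval (ψ y) / N.eval (ψ y) = y := by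
    have := (hf.hasStrictFDerivAt' hf' hn).eventually_right_inverse
    simp only [hfb] at this
    exact this
  have hV : ∀ᶠ x in 𝓝 b, N.eval x ≠ 0 ∧ M1.eval x ≠ 0 ∧ Q.eval x ≠ 0 ∧
      (∀ m, m ≠ i → (A m).eval x ≠ 0) ∧ ∀ m, (B m).eval x ≠ 0 := by
    have h1 := (N.continuous.continuousAt (x := b)).eventually_ne hN
    have h2 := (M1.continuous.continuousAt (x := b)).eventually_ne hM1b
    have h3 := (Q.continuous.continuousAt (x := b)).eventually_ne hQb
    have h4 : ∀ᶠ x in 𝓝 b, ∀ m, m ≠ i → (A m).eval x ≠ 0 := by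
      refine eventually_all.2 fun m => ?_
      by_cases hm : m = i
      · exact Filter.Eventually.of_forall fun y h => absurd hm h
      · exact (((A m).continuous.continuousAt).eventually_ne (hA m hm)).mono fun y hy _ => hy
    have h5 : ∀ᶠ x in 𝓝 b, ∀ m, (B m).eval x ≠ 0 :=
      eventually_all.2 fun m => ((B m).continuous.continuousAt).eventually_ne (hB m)
    exact h1.and (h2.and (h3.and (h4.and h5)))
  have hv : ∀ᶠ y in 𝓝 (0 : ℂ), N.eval (ψ y) ≠ 0 ∧ M1.eval (ψ y) ≠ 0 ∧ Q.eval (ψ y) ≠ 0 ∧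
      (∀ m, m ≠ i → (A m).eval (ψ y) ≠ 0) ∧ ∀ m, (B m).eval (ψ y) ≠ 0 := by
    have h2 := hc.continuousAt
    rw [ContinuousAt, e0] at h2
    exact h2 hV
  have h3 := (hc.eventually (by simp)).and (hr.and hv)
  obtain ⟨δ, hδ, h4⟩ := Metric.eventually_nhds_iff.1 h3
  refine ⟨δ, ψ, e, fun m w => if m = i then (N.eval (ψ w) / M1.eval (ψ w)) ^ e *
    Q.eval (ψ w) / (B m).eval (ψ w) else (A m).eval (ψ w) / (B m).eval (ψ w), hδ, he0,
    fun w hw => ?_⟩
  obtain ⟨c1, c2, c3, c4, c5, c6, c7⟩ := h4 (y := w) (by simpa using hw)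
  have cev : ∀ p : ℂ[X], ContDiffAt ℂ 2 (fun w => p.eval (ψ w)) w := fun p =>
    (contDiff_eval p).contDiffAt.comp w c1
  have hMw : M.eval (ψ w) = w * N.eval (ψ w) := (div_eq_iff c3).1 c2
  refine ⟨c1, hMw, c3, fun m => ⟨c7 m, ?_, ?_, ?_⟩⟩
  · by_cases hm : m = i
    · simp only [if_pos hm]
      exact ((((cev N).div (cev M1) c4).pow e).mul (cev Q)).div (cev (B m)) (c7 m)
    · simp only [if_neg hm]
      exact (cev (A m)).div (cev (B m)) (c7 m)
  · by_cases hm : m = i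
    · simp only [if_pos hm]
      exact div_ne_zero (mul_ne_zero (pow_ne_zero _ (div_ne_zero c3 c4)) c5) (c7 m)
    · simp only [if_neg hm]
      exact div_ne_zero (c6 m hm) (c7 m)
  · by_cases hm : m = i
    · subst hm
      simp only [if_true]
      have h5 : (ψ w - b) = w * (N.eval (ψ w) / M1.eval (ψ w)) := by
        have h6 := hMw
        rw [hMM, eval_mul, eval_sub, eval_X, eval_C] at h6
        rw [← mul_div_assoc, eq_div_iff c4]
        exact h6
      have h7 : (A m).eval (ψ w) = (ψ w - b) ^ e * Q.eval (ψ w) := by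
        conv_lhs => rw [hQ]
        rw [eval_mul, eval_pow, eval_sub, eval_X, eval_C]
      rw [h7, h5, mul_pow]
      ring
    · simp only [if_neg hm, pow_zero, one_mul]

end Pool.Agent.U759.TQ
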