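import Pool.Agent.U759.TQ.Grow
set_option autoImplicit false

/-!
Curves over the rational numbers: the definitions for the statement, and the hexagonal example.
-/

namespace Pool.Agent.U759.TQ.Crv

open Polynomial

open Pool.Agent.TH826.MK (KQ symb Torus Unramified)

open Pool.Agent.U759.TP (lifts_iff isIntegral_coeff_sub isIntegral_coeff_pow')

theorem int_of_lifts {K : Type*} [Field K] {P : K[X]}
    (hP : P ∈ Polynomial.lifts (integralClosure ℤ K).toSubring.subtype) (i : ℕ) :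
    IsIntegral ℤ (P.coeff i) := (lifts_iff P).2 hP i

theorem int_X {K : Type*} [Field K] (i : ℕ) : IsIntegral ℤ ((X : K[X]).coeff i) :=
  int_of_lifts (Polynomial.X_mem_lifts _) i

theorem int_one {K : Type*} [Field K] (i : ℕ) : IsIntegral ℤ ((1 : K[X]).coeff i) :=
  int_of_lifts (one_mem _) i

theorem int_zero {K : Type*} [Field K] (i : ℕ) : IsIntegral ℤ ((0 : K[X]).coeff i) :=
  int_of_lifts (zero_mem _) i

theorem int_mul {K : Type*} [Field K] {P Q : K[X]} (hP : ∀ i, IsIntegral ℤ (P.coeff i))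
    (hQ : ∀ i, IsIntegral ℤ (Q.coeff i)) (i : ℕ) : IsIntegral ℤ ((P * Q).coeff i) :=
  int_of_lifts (mul_mem ((lifts_iff P).1 hP) ((lifts_iff Q).1 hQ)) i

theorem int_X1 {K : Type*} [Field K] (i : ℕ) : IsIntegral ℤ ((X - 1 : K[X]).coeff i) :=
  isIntegral_coeff_sub int_X int_one i

/-- The torsion function `(z² - z + 1)^a / (z^p (z - 1)^q)` with the functions `z` and `z - 1`. -/
theorem hexagonal {K : Type*} [Field K] (a p q : ℕ) (hp : p ≠ 0) (hq : q ≠ 0)
    (h : p + q < 2 * a) :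
    Tors ((X ^ 2 - X + 1 : K[X]) ^ a) (X ^ p * (X - 1) ^ q) ![X, X - 1] ![1, 1] := by
  have hm : (X ^ 2 - X + 1 : K[X]).Monic := by monicity!
  have hd : (X ^ 2 - X + 1 : K[X]).natDegree = 2 := by compute_degree!
  have e1 : (X - 1 : K[X]) = X - C 1 := by rw [C_1]
  have hm1 : (X - 1 : K[X]).Monic := by
    rw [e1]
    exact monic_X_sub_C (1 : K)
  have hM : (X ^ p * (X - 1) ^ q : K[X]).Monic := (monic_X.pow p).mul (hm1.pow q)
  have hdM : (X ^ p * (X - 1) ^ q : K[X]).natDegree = p + q := by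
    rw [(monic_X.pow p).natDegree_mul (hm1.pow q), natDegree_X_pow, hm1.natDegree_pow, e1,
      natDegree_X_sub_C, mul_one]
  refine ⟨hm.pow a, ?_, ?_, hM.ne_zero, ?_, ?_, ?_, ?_, ?_, ?_, ?_, ?_, Or.inl ⟨hM, ?_⟩⟩
  · refine isIntegral_coeff_pow' ?_ a
    intro i
    rw [coeff_add]
    exact (isIntegral_coeff_sub (isIntegral_coeff_pow' int_X 2) int_X i).add (int_one i)
  · exact int_mul (isIntegral_coeff_pow' int_X p) (isIntegral_coeff_pow' int_X1 q)
  · intro j
    fin_cases j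
    · exact monic_X
    · exact hm1
  · intro j
    fin_cases j
    · exact int_X
    · exact int_X1
  · intro j
    fin_cases j
    · exact monic_one
    · exact monic_one
  · intro j
    fin_cases j
    · exact int_one
    · exact int_one
  · intro j
    fin_cases j
    · exact ⟨1, by
        rw [pow_one]
        exact Dvd.dvd.mul_right (dvd_pow_self X hp) _⟩
    · exact ⟨1, by
        rw [pow_one]
        exact Dvd.dvd.mul_left (dvd_pow_self (X - 1) hq) _⟩
  · intro j
    fin_cases j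
    · exact ⟨0, one_dvd _⟩
    · exact ⟨0, one_dvd _⟩
  · intro j
    refine ⟨0, 1, int_zero, int_one, ?_⟩
    fin_cases j
    · show (0 : K[X]) * _ + 1 * 1 = 1
      ring
    · show (0 : K[X]) * _ + 1 * 1 = 1
      ring
  · intro j
    refine ⟨6, a, by norm_num, pow_dvd_pow_of_dvd ?_ a⟩
    fin_cases j
    · show (X ^ 2 - X + 1 : K[X]) ∣ X ^ 6 - 1 ^ 6
      exact ⟨(X + 1) * (X ^ 3 - 1), by ring⟩
    · show (X ^ 2 - X + 1 : K[X]) ∣ (X - 1) ^ 6 - 1 ^ 6
      exact ⟨X * (X - 2) * (X ^ 2 - 3 * X + 3), by ring⟩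
  · rw [hdM, hm.natDegree_pow, hd]
    omega

/-- The embedding of the rational numbers in the complex numbers. -/
noncomputable def emb : ℚ →+* ℂ := algebraMap ℚ ℂ

theorem norm_emb (m : ℤ) : ‖emb (m : ℚ)‖ = |(m : ℝ)| := by
  unfold emb
  rw [eq_ratCast, Rat.cast_intCast, Complex.norm_intCast]

/-- The coordinate ring of the curve `N_0(z) N_1(x) = λ M_0(z) M_1(x)`. -/
def Cur {k : Fin 2 → ℕ} (D : Dat ℚ 1 k) (lam : ℤ) : Type := D.CRing lam

noncomputable instance {k : Fin 2 → ℕ} (D : Dat ℚ 1 k) (lam : ℤ) : CommRing (Cur D lam) :=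
  Ideal.Quotient.commRing _

/-- The coordinate ring of the open part of the curve on which the polynomials `M_l`, `A_(l,j)`,
`B_(l,j)` do not vanish. -/
def Op {k : Fin 2 → ℕ} (D : Dat ℚ 1 k) (lam : ℤ) : Type := D.Open lam

noncomputable instance {k : Fin 2 → ℕ} (D : Dat ℚ 1 k) (lam : ℤ) : CommRing (Op D lam) :=
  (inferInstance : CommRing (D.Open lam))

/-- The symbols `{A_(0,i)/B_(0,i) (z), A_(1,j)/B_(1,j) (x)}`, `s = (i, j)`. -/
noncomputable def sy {k : Fin 2 → ℕ} (D : Dat ℚ 1 k) (lam : ℤ) (s : ∀ l, Fin (k l)) :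
    KQ (Op D lam) 2 :=
  symb (A := D.Open lam) (D.ent lam s)

/-- All `k_0 k_1` symbols have unramified images in `K_2 ⊗ ℚ` of every field with a homomorphism from the
coordinate ring of the open part of the curve (for example, of the function field of the curve). -/
def UnramifiedSymbols.{v} {k : Fin 2 → ℕ} (D : Dat ℚ 1 k) (lam : ℤ) : Prop :=
  ∀ (L : Type v) [Field L] (h : Op D lam →+* L) (s : ∀ l, Fin (k l)),
    KQ.map 2 h (sy D lam s) ∈ Unramified L 2

/-- There are `k_0 k_1` loops `Γ_t` in the complex points of the open part such that the regulators of the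
`k_0 k_1` symbols `s` on them are `- δ_(s,t) c_t log |λ| + O(B)`, and such that the determinant of the
regulators does not vanish. -/
def Regulators {k : Fin 2 → ℕ} (D : Dat ℚ 1 k) (c : (∀ l, Fin (k l)) → ℝ) (B : ℝ) (lam : ℤ) :
    Prop :=
  ∃ Γ : (∀ l, Fin (k l)) → Torus (Op D lam) 1,
    (∀ t s, |(Γ t).reg (sy D lam s) + (if s = t then c t * Real.log |(lam : ℝ)| else 0)| ≤ B) ∧
    (Matrix.of fun t s => (Γ t).reg (sy D lam s)).det ≠ 0

/-- If `N_l, M_l` are coprime and `deg M_1 ≤ deg N_1`, the coordinate ring of the curve is a domain and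
its equation is irreducible over the complex numbers. -/
def IrreducibleCurve {k : Fin 2 → ℕ} (D : Dat ℚ 1 k) (lam : ℤ) : Prop :=
  (∀ l, IsCoprime (D.N l) (D.M l)) → (D.M 1).natDegree ≤ (D.N 1).natDegree →
    IsDomain (Cur D lam) ∧ Irreducible (MvPolynomial.map emb (D.eqn lam))

/-- The conclusions: there are constants `C`, `B` and `c_t ≥ 1` such that for all integers `λ` with
`|λ| ≥ C` the open part is not empty, the curve is irreducible, it is smooth at the points with
`M_0(x) M_1(z) ≠ 0`, the symbols are unramified, and their regulators are independent with the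
given growth. -/
def Concl.{v} {k : Fin 2 → ℕ} (D : Dat ℚ 1 k) : Prop :=
  ∃ (C B : ℝ) (c : (∀ l, Fin (k l)) → ℝ), (∀ t, 1 ≤ c t) ∧ ∀ lam : ℤ, C ≤ |(lam : ℝ)| →
    Nontrivial (Op D lam) ∧ IrreducibleCurve D lam ∧ Smooth emb D lam ∧
      UnramifiedSymbols.{v} D lam ∧ Regulators D c B lam

/-- The functions `φ_l = (z² - z + 1) ^ (a_l) / (z ^ (p_l) (z - 1) ^ (q_l))` with the functions `z` and
`z - 1`. -/
noncomputable def hex (a p q : Fin 2 → ℕ) : Dat ℚ 1 (fun _ => 2) where
  N l := (X ^ 2 - X + 1) ^ a l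
  M l := X ^ p l * (X - 1) ^ q l
  A _ := ![X, X - 1]
  B _ := ![1, 1]

/-- The conditions on the functions. -/
def Good {k : Fin 2 → ℕ} (D : Dat ℚ 1 k) : Prop :=
  (∀ l, k l ≠ 0) ∧ (∀ l, Tors (D.N l) (D.M l) (D.A l) (D.B l)) ∧ Poles D

theorem natDegree_pos {k : Fin 2 → ℕ} {D : Dat ℚ 1 k} (H : Good D) (l : Fin 2) :
    0 < (D.M l).natDegree := by
  have j : Fin (k l) := ⟨0, Nat.pos_of_ne_zero (H.1 l)⟩
  obtain ⟨s, hs⟩ := (H.2.1 l).dvdA j
  have h1 := H.2.2.pos l j
  have h2 := natDegree_le_of_dvd hs (pow_ne_zero s (H.2.1 l).M_ne)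
  rw [natDegree_pow] at h2
  by_contra h3
  have h4 : (D.M l).natDegree = 0 := by omega
  rw [h4, mul_zero] at h2
  omega

theorem concl.{v} {k : Fin 2 → ℕ} {D : Dat ℚ 1 k} (H : Good D) : Concl.{v} D := by
  obtain ⟨C1, B, c, hc, h1⟩ := exists_growth emb H.2.1 H.2.2
  obtain ⟨C2, h2⟩ := exists_smooth emb H.2.1 H.2.2 H.1
  have h3 : ∃ C : ℝ, ∀ lam : ℤ, C ≤ |(lam : ℝ)| → IrreducibleCurve D lam := by
    by_cases hh : (∀ l, IsCoprime (D.N l) (D.M l)) ∧ (D.M 1).natDegree ≤ (D.N 1).natDegree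
    · have j : Fin (k 0) := ⟨0, Nat.pos_of_ne_zero (H.1 0)⟩
      obtain ⟨b, hb⟩ : ∃ b, ((D.A 0 j).map emb).eval b = 0 := by
        refine IsAlgClosed.exists_root _ ?_
        rw [degree_map, degree_eq_natDegree ((H.2.1 0).monicA j).ne_zero]
        exact_mod_cast (H.2.2.pos 0 j).ne'
      have hb0 : ((D.M 0).map emb).eval b = 0 := by
        by_contra h
        exact dvd_ne emb ((H.2.1 0).dvdA j) h hb
      have hb1 : (derivative ((D.M 0).map emb)).eval b ≠ 0 := by
        rw [derivative_map]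
        exact coprime_ne emb (H.2.2.simple j) hb
      have hN : ∀ l : Fin 1, 0 < (D.N l.succ).natDegree := by
        intro l
        have hl : l.succ = 1 := by
          rw [Subsingleton.elim l 0]
          rfl
        rw [hl]
        exact (natDegree_pos H 1).trans_le hh.2
      have hdeg : ∀ l : Fin 1, (D.M l.succ).natDegree ≤ (D.N l.succ).natDegree := by
        intro l
        have hl : l.succ = 1 := by
          rw [Subsingleton.elim l 0]
          rfl
        rw [hl]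
        exact hh.2
      obtain ⟨C3, h3⟩ := exists_domain emb D one_ne_zero hh.1 (fun l => (H.2.1 l).M_ne) hN hdeg
        hb0 hb1
      obtain ⟨C4, h4⟩ := exists_geom emb D one_ne_zero hh.1 (fun l => (H.2.1 l).M_ne) hN hdeg
        hb0 hb1
      refine ⟨max C3 C4, fun lam hlam _ _ => ⟨h3 lam ?_, h4 lam ?_⟩⟩
      · rw [norm_emb]
        exact (le_max_left _ _).trans hlam
      · rw [norm_emb]
        exact (le_max_right _ _).trans hlam
    · exact ⟨0, fun lam _ a b => absurd ⟨a, b⟩ hh⟩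
  obtain ⟨C3, h3⟩ := h3
  refine ⟨max C1 (max C2 C3), B, c, hc, fun lam hlam => ?_⟩
  have e1 : C1 ≤ ‖emb (lam : ℚ)‖ := by
    rw [norm_emb]
    exact (le_max_left _ _).trans hlam
  have e2 : C2 ≤ ‖emb (lam : ℚ)‖ := by
    rw [norm_emb]
    exact ((le_max_left _ _).trans (le_max_right _ _)).trans hlam
  have e3 : C3 ≤ |(lam : ℝ)| := ((le_max_right _ _).trans (le_max_right _ _)).trans hlam
  obtain ⟨Γ, g1, g2, g3⟩ := h1 lam e1
  have hint : IsIntegral ℤ (lam : ℚ) := by
    have := isIntegral_algebraMap (R := ℤ) (A := ℚ) (x := lam)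
    simpa using this
  refine ⟨?_, h3 lam e3, h2 lam e2, fun L _ h j => symb_unramified h H.2.1 hint j, Γ, ?_, g3⟩
  · exact RingHom.domain_nontrivial ((Γ fun l => ⟨0, Nat.pos_of_ne_zero (H.1 l)⟩).e 0)
  · intro t s
    have h5 := g2 t s
    rw [norm_emb] at h5
    exact h5

theorem hex_good {a p q : Fin 2 → ℕ} (hp : ∀ l, p l ≠ 0) (hq : ∀ l, q l ≠ 0)
    (h : ∀ l, p l + q l < 2 * a l) (hp0 : p 0 = 1) (hq0 : q 0 = 1) :
    Good (hex a p q) ∧ (∀ l, IsCoprime ((hex a p q).N l) ((hex a p q).M l)) ∧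
      ((hex a p q).M 1).natDegree ≤ ((hex a p q).N 1).natDegree := by
  have c1 : IsCoprime (X ^ 2 - X + 1 : ℚ[X]) X := ⟨1, 1 - X, by ring⟩
  have c2 : IsCoprime (X ^ 2 - X + 1 : ℚ[X]) (X - 1) := ⟨1, -X, by ring⟩
  have c3 : IsCoprime (X : ℚ[X]) (X - 1) := ⟨1, -1, by ring⟩
  have hT : ∀ l, Tors ((hex a p q).N l) ((hex a p q).M l) ((hex a p q).A l) ((hex a p q).B l) :=
    fun l => hexagonal (a l) (p l) (q l) (hp l) (hq l) (h l)
  refine ⟨⟨fun _ => two_ne_zero, hT, ⟨fun l j => ?_, fun l i j hij => ?_, fun l i j => ?_,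
    fun j => ?_⟩⟩, fun l => ?_, ?_⟩
  · have e1 : (X - 1 : ℚ[X]) = X - C 1 := by rw [C_1]
    show 0 < ((![X, X - 1] : Fin 2 → ℚ[X]) j).natDegree
    fin_cases j
    · show 0 < (X : ℚ[X]).natDegree
      rw [natDegree_X]
      exact one_pos
    · show 0 < (X - 1 : ℚ[X]).natDegree
      rw [e1, natDegree_X_sub_C]
      exact one_pos
  · show IsCoprime ((![X, X - 1] : Fin 2 → ℚ[X]) i) ((![X, X - 1] : Fin 2 → ℚ[X]) j)
    fin_cases i <;> fin_cases j
    · exact absurd rfl hij
    · exact c3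
    · exact c3.symm
    · exact absurd rfl hij
  · show IsCoprime ((![X, X - 1] : Fin 2 → ℚ[X]) i) ((![1, 1] : Fin 2 → ℚ[X]) j)
    fin_cases j <;> exact isCoprime_one_right
  · show IsCoprime ((![X, X - 1] : Fin 2 → ℚ[X]) j) (derivative (X ^ p 0 * (X - 1) ^ q 0))
    rw [hp0, hq0, pow_one, pow_one, derivative_mul, derivative_sub, derivative_X, derivative_one,
      sub_zero, one_mul, mul_one]
    fin_cases j
    · show IsCoprime (X : ℚ[X]) (X - 1 + X)
      exact ⟨2, -1, by ring⟩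
    · show IsCoprime (X - 1 : ℚ[X]) (X - 1 + X)
      exact ⟨-2, 1, by ring⟩
  · show IsCoprime ((X ^ 2 - X + 1 : ℚ[X]) ^ a l) (X ^ p l * (X - 1) ^ q l)
    exact IsCoprime.mul_right c1.pow c2.pow
  · rcases (hT 1).inf with h1 | h1
    · exact h1.2.le
    · exfalso
      have h2 := h1 0
      have h3 : (X : ℚ[X]).natDegree = (1 : ℚ[X]).natDegree := h2
      rw [natDegree_X, natDegree_one] at h3
      omega

end Pool.Agent.U759.TQ.Crv
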