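import Pool.Agent.U759.TQ.Crv
set_option autoImplicit false

/-!
The curves `(z + 1)² (x² - x + 1) ^ a = λ z x ^ p (x - 1) ^ q`; for `a = 2`, `p = q = 1` these are
curves of genus two.
-/

namespace Pool.Agent.U759.TQ.Crv

open Polynomial

/-- The numbers of the functions of `z` and of `x`. -/
def kk : Fin 2 → ℕ := ![1, 2]

/-- The numerators of the functions. -/
noncomputable def num : ∀ l : Fin 2, Fin (kk l) → ℚ[X]
  | 0 => fun _ => X
  | 1 => ![X, X - 1]

/-- The functions `φ_0 = (z + 1)² / z` with the function `z`, and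
`φ_1 = (x² - x + 1) ^ a / (x ^ p (x - 1) ^ q)` with the functions `x` and `x - 1`. -/
noncomputable def fam (a p q : ℕ) : Dat ℚ 1 kk where
  N := ![(X + 1) ^ 2, (X ^ 2 - X + 1) ^ a]
  M := ![X, X ^ p * (X - 1) ^ q]
  A := num
  B _ _ := 1

/-- The polynomial `λ x (x - 1) (λ x (x - 1) - 4 (x² - x + 1)²)` of degree six. -/
noncomputable def sextic (lam : ℤ) : ℚ[X] :=
  C (lam : ℚ) * (X * (X - 1)) * (C (lam : ℚ) * (X * (X - 1)) - 4 * (X ^ 2 - X + 1) ^ 2)

/-- The polynomials in `x` as functions on the curve `(z + 1)² (x² - x + 1)² = λ z x (x - 1)`. -/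
noncomputable def fx (lam : ℤ) : ℚ[X] →+* Cur (fam 2 1 1) lam := (fam 2 1 1).pol lam 1

/-- The function `z` on the curve `(z + 1)² (x² - x + 1)² = λ z x (x - 1)`. -/
noncomputable def fz (lam : ℤ) : Cur (fam 2 1 1) lam := (fam 2 1 1).pol lam 0 X

/-- The curve `(z + 1)² (x² - x + 1)² = λ z x (x - 1)` is birational to the hyperelliptic curve
`y² = f(x)`, where `f` is the separable polynomial `sextic λ` of degree `6`: there is a function `y` with
`y² = f(x)` and `2 S² z = y + λ x (x - 1) - 2 S²`, `S = x² - x + 1`. -/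
def GenusTwo (lam : ℤ) : Prop :=
  (sextic lam).Separable ∧ (sextic lam).natDegree = 6 ∧
  ∃ y : Cur (fam 2 1 1) lam, y ^ 2 = fx lam (sextic lam) ∧
    fx lam (2 * (X ^ 2 - X + 1) ^ 2) * fz lam =
      y + fx lam (C (lam : ℚ) * (X * (X - 1)) - 2 * (X ^ 2 - X + 1) ^ 2)

/-- The conditions on the functions and the conditions for irreducibility. -/
def Nice {k : Fin 2 → ℕ} (D : Dat ℚ 1 k) : Prop :=
  Good D ∧ (∀ l, IsCoprime (D.N l) (D.M l)) ∧ (D.M 1).natDegree ≤ (D.N 1).natDegree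

theorem square : Tors ((X + 1 : ℚ[X]) ^ 2) X (fun _ : Fin 1 => X) (fun _ => 1) := by
  have e1 : (X + 1 : ℚ[X]) = X + C 1 := by rw [C_1]
  have hm : (X + 1 : ℚ[X]).Monic := by
    rw [e1]
    exact monic_X_add_C 1
  have hi : ∀ i, IsIntegral ℤ ((X + 1 : ℚ[X]).coeff i) := by
    intro i
    rw [coeff_add]
    exact (int_X i).add (int_one i)
  refine ⟨hm.pow 2, Pool.Agent.U759.TP.isIntegral_coeff_pow' hi 2, int_X, X_ne_zero,
    fun _ => monic_X, fun _ => int_X, fun _ => monic_one, fun _ => int_one,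
    fun _ => ⟨1, by rw [pow_one]⟩, fun _ => ⟨0, one_dvd _⟩,
    fun _ => ⟨0, 1, int_zero, int_one, by ring⟩, fun _ => ⟨2, 2, two_ne_zero, ?_⟩,
    Or.inl ⟨monic_X, ?_⟩⟩
  · exact pow_dvd_pow_of_dvd ⟨X - 1, by ring⟩ 2
  · rw [hm.natDegree_pow, natDegree_X, e1, natDegree_X_add_C]
    norm_num

theorem fam_good {a p q : ℕ} (hp : p ≠ 0) (hq : q ≠ 0) (h : p + q < 2 * a) :
    Good (fam a p q) ∧ (∀ l, IsCoprime ((fam a p q).N l) ((fam a p q).M l)) ∧
      ((fam a p q).M 1).natDegree ≤ ((fam a p q).N 1).natDegree := by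
  have c0 : IsCoprime (X + 1 : ℚ[X]) X := ⟨1, -1, by ring⟩
  have c1 : IsCoprime (X ^ 2 - X + 1 : ℚ[X]) X := ⟨1, 1 - X, by ring⟩
  have c2 : IsCoprime (X ^ 2 - X + 1 : ℚ[X]) (X - 1) := ⟨1, -X, by ring⟩
  have c3 : IsCoprime (X : ℚ[X]) (X - 1) := ⟨1, -1, by ring⟩
  have h1 := hexagonal (K := ℚ) a p q hp hq h
  have hT : ∀ l, Tors ((fam a p q).N l) ((fam a p q).M l) ((fam a p q).A l)
      ((fam a p q).B l) := by
    intro l
    fin_cases l
    · exact square
    · have e : ((fam a p q).B 1) = ![1, 1] := by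
        funext j
        show (1 : ℚ[X]) = (![1, 1] : Fin 2 → ℚ[X]) j
        fin_cases j <;> rfl
      show Tors ((X ^ 2 - X + 1 : ℚ[X]) ^ a) (X ^ p * (X - 1) ^ q) ![X, X - 1]
        ((fam a p q).B 1)
      rw [e]
      exact h1
  refine ⟨⟨fun l => ?_, hT, ⟨fun l j => ?_, fun l i j hij => ?_, fun l i j => ?_,
    fun j => ?_⟩⟩, fun l => ?_, ?_⟩
  · fin_cases l
    · exact one_ne_zero
    · exact two_ne_zero
  · have e1 : (X - 1 : ℚ[X]) = X - C 1 := by rw [C_1]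
    fin_cases l
    · show 0 < (X : ℚ[X]).natDegree
      rw [natDegree_X]
      exact one_pos
    · show 0 < ((![X, X - 1] : Fin 2 → ℚ[X]) j).natDegree
      revert j
      show ∀ j : Fin 2, 0 < ((![X, X - 1] : Fin 2 → ℚ[X]) j).natDegree
      intro j
      fin_cases j
      · show 0 < (X : ℚ[X]).natDegree
        rw [natDegree_X]
        exact one_pos
      · show 0 < (X - 1 : ℚ[X]).natDegree
        rw [e1, natDegree_X_sub_C]
        exact one_pos
  · fin_cases l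
    · exact absurd (Subsingleton.elim (α := Fin 1) i j) hij
    · revert i j
      show ∀ i j : Fin 2, i ≠ j → IsCoprime ((![X, X - 1] : Fin 2 → ℚ[X]) i)
        ((![X, X - 1] : Fin 2 → ℚ[X]) j)
      intro i j hij
      fin_cases i <;> fin_cases j
      · exact absurd rfl hij
      · exact c3
      · exact c3.symm
      · exact absurd rfl hij
  · exact isCoprime_one_right
  · show IsCoprime (X : ℚ[X]) (derivative X)
    rw [derivative_X]
    exact isCoprime_one_right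
  · fin_cases l
    · exact IsCoprime.pow_left c0
    · exact IsCoprime.mul_right c1.pow c2.pow
  · rcases h1.inf with h2 | h2
    · exact h2.2.le
    · exfalso
      have h3 : (X : ℚ[X]).natDegree = (1 : ℚ[X]).natDegree := h2 0
      rw [natDegree_X, natDegree_one] at h3
      omega

theorem sextic_separable {lam : ℤ} (h0 : lam ≠ 0) (h1 : lam ≠ 16) (h2 : lam ≠ -9) :
    (sextic lam).Separable := by
  have g0 : (lam : ℚ) ≠ 0 := by exact_mod_cast h0
  have g1 : (lam : ℚ) - 16 ≠ 0 := by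
    intro h
    have h3 : (lam : ℚ) = ((16 : ℤ) : ℚ) := by
      push_cast
      linear_combination h
    exact h1 (by exact_mod_cast h3)
  have g2 : (lam : ℚ) + 9 ≠ 0 := by
    intro h
    have h3 : (lam : ℚ) = ((-9 : ℤ) : ℚ) := by
      push_cast
      linear_combination h
    exact h2 (by exact_mod_cast h3)
  set t : ℚ := (lam : ℚ) with ht
  have unit_C : ∀ c : ℚ, c ≠ 0 → (C c * C c⁻¹ : ℚ[X]) = 1 := fun c hc => by
    rw [← C_mul, mul_inv_cancel₀ hc, C_1]
  -- the quartic factor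
  set Q : ℚ[X] := C t * (X * (X - 1)) - 4 * (X ^ 2 - X + 1) ^ 2 with hQ
  have e2 : (C (2 : ℚ) : ℚ[X]) = 2 := rfl
  have hder : derivative Q = (2 * X - 1) * (C t - 8 * (X ^ 2 - X + 1)) := by
    rw [hQ]
    simp only [derivative_sub, derivative_mul, derivative_C, derivative_X, derivative_one,
      derivative_add, derivative_pow, derivative_ofNat]
    simp
    simp only [e2]
    ring
  have k1 : IsCoprime Q (2 * X - 1) := by
    have hu := unit_C (t + 9) g2
    have e : (C (t + 9) : ℚ[X]) = C t + 9 := by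
      rw [C_add]
      rfl
    refine ⟨-4 * C (t + 9)⁻¹, C (t + 9)⁻¹ * (2 * X - 1) * (C t - 6 - (2 * X - 1) ^ 2), ?_⟩
    rw [hQ]
    linear_combination hu - C (t + 9)⁻¹ * e
  have k2 : IsCoprime Q (C t - 8 * (X ^ 2 - X + 1)) := by
    have hu := unit_C (t * (t - 16)) (mul_ne_zero g0 g1)
    have e : (C (t * (t - 16)) : ℚ[X]) = C t * (C t - 16) := by
      rw [C_mul, C_sub]
      rfl
    refine ⟨16 * C (t * (t - 16))⁻¹, C (t * (t - 16))⁻¹ *
      (C t - 8 * (X ^ 2 - X + 1)), ?_⟩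
    rw [hQ]
    linear_combination hu - C (t * (t - 16))⁻¹ * e
  have hQs : Q.Separable := by
    unfold Separable
    rw [hder]
    exact k1.mul_right k2
  have hL : (C t * (X * (X - 1)) : ℚ[X]).Separable := by
    unfold Separable
    have hu := unit_C t g0
    have hd : derivative (C t * (X * (X - 1)) : ℚ[X]) = C t * (2 * X - 1) := by
      simp only [derivative_mul, derivative_C, derivative_X, derivative_sub, derivative_one]
      ring
    rw [hd]
    refine ⟨-4 * C t⁻¹, C t⁻¹ * (2 * X - 1), ?_⟩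
    linear_combination hu
  have hc : IsCoprime (C t * (X * (X - 1)) : ℚ[X]) Q := by
    have h4 : (C (4 : ℚ) * C (4 : ℚ)⁻¹ : ℚ[X]) = 1 := unit_C 4 (by norm_num)
    have e4 : (C (4 : ℚ) : ℚ[X]) = 4 := rfl
    have hu := unit_C t g0
    refine ⟨C (4 : ℚ)⁻¹ - (X ^ 2 - X + 2) * C t⁻¹, -(C (4 : ℚ)⁻¹), ?_⟩
    rw [hQ]
    rw [e4] at h4
    linear_combination (X ^ 2 - X + 1) ^ 2 * h4 - (X * (X - 1)) * (X ^ 2 - X + 2) * hu
  exact hL.mul hQs hc

theorem sextic_natDegree {lam : ℤ} (h0 : lam ≠ 0) : (sextic lam).natDegree = 6 := by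
  have g0 : (lam : ℚ) ≠ 0 := by exact_mod_cast h0
  have e1 : (sextic lam) = C (-4 * (lam : ℚ)) * X ^ 6 + (C (12 * (lam : ℚ)) * X ^ 5 +
      (C ((lam : ℚ) ^ 2 - 20 * lam) * X ^ 4 + (C (-2 * (lam : ℚ) ^ 2 + 20 * lam) * X ^ 3 +
      (C ((lam : ℚ) ^ 2 - 12 * lam) * X ^ 2 + C (4 * (lam : ℚ)) * X)))) := by
    unfold sextic
    simp only [C_mul, C_add, C_sub, C_neg, C_pow]
    have e4 : (C (4 : ℚ) : ℚ[X]) = 4 := rfl
    have e12 : (C (12 : ℚ) : ℚ[X]) = 12 := rfl
    have e20 : (C (20 : ℚ) : ℚ[X]) = 20 := rfl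
    have e2 : (C (2 : ℚ) : ℚ[X]) = 2 := rfl
    rw [e4, e12, e20, e2]
    ring
  rw [e1]
  compute_degree!

theorem genusTwo {lam : ℤ} (h0 : lam ≠ 0) (h1 : lam ≠ 16) (h2 : lam ≠ -9) : GenusTwo lam := by
  refine ⟨sextic_separable h0 h1 h2, sextic_natDegree h0, ?_⟩
  show ∃ y : (fam 2 1 1).CRing lam, y ^ 2 = (fam 2 1 1).pol lam 1 (sextic lam) ∧
    (fam 2 1 1).pol lam 1 (2 * (X ^ 2 - X + 1) ^ 2) * (fam 2 1 1).pol lam 0 X =
      y + (fam 2 1 1).pol lam 1 (C (lam : ℚ) * (X * (X - 1)) - 2 * (X ^ 2 - X + 1) ^ 2)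
  set D := fam 2 1 1 with hD
  have hrel := D.rel (lam : ℚ)
  rw [Fin.prod_univ_two, Fin.prod_univ_two] at hrel
  have n0 : D.N 0 = (X + 1) ^ 2 := rfl
  have n1 : D.N 1 = (X ^ 2 - X + 1) ^ 2 := rfl
  have m0 : D.M 0 = X := rfl
  have m1 : D.M 1 = X ^ 1 * (X - 1) ^ 1 := rfl
  rw [n0, n1, m0, m1, pow_one, pow_one] at hrel
  have hC : D.mk' (lam : ℚ) (MvPolynomial.C (lam : ℚ)) = D.pol lam 1 (C (lam : ℚ)) := by
    unfold Dat.pol mp
    rw [RingHom.comp_apply, Polynomial.coe_eval₂RingHom, Polynomial.eval₂_C]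
  rw [hC] at hrel
  unfold sextic
  simp only [map_mul, map_pow, map_sub, map_add, map_one, map_ofNat] at hrel ⊢
  set w := D.pol (lam : ℚ) 0 X with hw
  set x := D.pol (lam : ℚ) 1 X with hx
  set l := D.pol (lam : ℚ) 1 (C (lam : ℚ)) with hl
  refine ⟨2 * (x ^ 2 - x + 1) ^ 2 * (w + 1) - l * (x * (x - 1)), ?_, by ring⟩
  linear_combination 4 * (x ^ 2 - x + 1) ^ 2 * hrel

end Pool.Agent.U759.TQ.Crv
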