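import Pool.Agent.U759.TQ.Gro
import Pool.Agent.U759.TQ.Gtwo
set_option autoImplicit false

/-!
The hypersurfaces `(z_0 + 1)² P = λ z_0 Q`, where `P = ∏ (z_l² - z_l + 1) ^ (a_l)` and
`Q = ∏ z_l ^ (p_l) (z_l - 1) ^ (q_l)`: double covers of the affine space.
-/

namespace Pool.Agent.U759.TQ.Gro

open Polynomial

open Pool.Agent.U759.TQ.Crv (emb norm_emb hexagonal square)

/-- The numbers of the functions: one function of `z_0`, two functions of `z_l`, `l ≥ 1`. -/
def kk (n : ℕ) : Fin (n + 1) → ℕ := Fin.cases 1 fun _ => 2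

/-- The functions: `z_0`, and `z_l`, `z_l - 1` for `l ≥ 1`. -/
noncomputable def num (n : ℕ) : ∀ l : Fin (n + 1), Fin (kk n l) → ℚ[X] :=
  Fin.cases (fun _ => X) fun _ => ![X, X - 1]

/-- The functions `φ_0 = (z + 1)² / z` with the function `z`, and
`φ_l = (z² - z + 1) ^ (a_l) / (z ^ (p_l) (z - 1) ^ (q_l))`, `1 ≤ l ≤ n`, with the functions `z` and
`z - 1`. -/
noncomputable def dbl {n : ℕ} (a p q : Fin n → ℕ) : Dat ℚ n (kk n) where
  N := Fin.cases ((X + 1) ^ 2) fun l => (X ^ 2 - X + 1) ^ a l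
  M := Fin.cases X fun l => X ^ p l * (X - 1) ^ q l
  A := num n
  B _ _ := 1

/-- The function `P = ∏ (z_l² - z_l + 1) ^ (a_l)` on the hypersurface. -/
noncomputable def fP {n : ℕ} (a p q : Fin n → ℕ) (lam : ℤ) : Hyp (dbl a p q) lam :=
  ∏ l : Fin n, (dbl a p q).pol lam l.succ ((X ^ 2 - X + 1) ^ a l)

/-- The function `Q = ∏ z_l ^ (p_l) (z_l - 1) ^ (q_l)` on the hypersurface. -/
noncomputable def fQ {n : ℕ} (a p q : Fin n → ℕ) (lam : ℤ) : Hyp (dbl a p q) lam :=
  ∏ l : Fin n, (dbl a p q).pol lam l.succ (X ^ p l * (X - 1) ^ q l)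

/-- The function `z_0` on the hypersurface. -/
noncomputable def fz {n : ℕ} (a p q : Fin n → ℕ) (lam : ℤ) : Hyp (dbl a p q) lam :=
  (dbl a p q).pol lam 0 X

/-- There is a function `y` on the hypersurface with `y² = λ Q (λ Q - 4 P)` and
`2 P z_0 = y + λ Q - 2 P`. -/
def DoubleCover {n : ℕ} (a p q : Fin n → ℕ) (lam : ℤ) : Prop :=
  ∃ y : Hyp (dbl a p q) lam,
    y ^ 2 = lam * fQ a p q lam * (lam * fQ a p q lam - 4 * fP a p q lam) ∧
    2 * fP a p q lam * fz a p q lam = y + lam * fQ a p q lam - 2 * fP a p q lam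

/-- The conditions on the functions and the conditions for irreducibility. -/
def Nice {n : ℕ} {k : Fin (n + 1) → ℕ} (D : Dat ℚ n k) : Prop :=
  Good D ∧ (∀ l, IsCoprime (D.N l) (D.M l)) ∧
    ∀ l : Fin n, (D.M l.succ).natDegree ≤ (D.N l.succ).natDegree

theorem prod_kk (n : ℕ) : ∏ l, kk n l = 2 ^ n := by
  rw [Fin.prod_univ_succ]
  show 1 * ∏ _l : Fin n, 2 = 2 ^ n
  rw [one_mul, Finset.prod_const, Finset.card_univ, Fintype.card_fin]

theorem dbl_good {n : ℕ} {a p q : Fin n → ℕ} (hp : ∀ l, p l ≠ 0) (hq : ∀ l, q l ≠ 0)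
    (h : ∀ l, p l + q l < 2 * a l) : Nice (dbl a p q) := by
  have c0 : IsCoprime (X + 1 : ℚ[X]) X := ⟨1, -1, by ring⟩
  have c1 : IsCoprime (X ^ 2 - X + 1 : ℚ[X]) X := ⟨1, 1 - X, by ring⟩
  have c2 : IsCoprime (X ^ 2 - X + 1 : ℚ[X]) (X - 1) := ⟨1, -X, by ring⟩
  have c3 : IsCoprime (X : ℚ[X]) (X - 1) := ⟨1, -1, by ring⟩
  have e1 : (X - 1 : ℚ[X]) = X - C 1 := by rw [C_1]
  have h1 := fun l => hexagonal (K := ℚ) (a l) (p l) (q l) (hp l) (hq l) (h l)
  have hT : ∀ l, Tors ((dbl a p q).N l) ((dbl a p q).M l) ((dbl a p q).A l)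
      ((dbl a p q).B l) := by
    intro l
    refine Fin.cases ?_ (fun l => ?_) l
    · exact square
    · have e : ((dbl a p q).B l.succ) = ![1, 1] := by
        funext j
        show (1 : ℚ[X]) = (![1, 1] : Fin 2 → ℚ[X]) j
        revert j
        show ∀ j : Fin 2, (1 : ℚ[X]) = (![1, 1] : Fin 2 → ℚ[X]) j
        intro j
        fin_cases j <;> rfl
      show Tors ((X ^ 2 - X + 1 : ℚ[X]) ^ a l) (X ^ p l * (X - 1) ^ q l) ![X, X - 1]
        ((dbl a p q).B l.succ)
      rw [e]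
      exact h1 l
  refine ⟨⟨fun l => ?_, hT, ⟨fun l => ?_, fun l => ?_, fun l i j => ?_,
    fun j => ?_⟩⟩, fun l => ?_, fun l => ?_⟩
  · refine Fin.cases ?_ (fun l => ?_) l
    · exact one_ne_zero
    · exact two_ne_zero
  · refine Fin.cases ?_ (fun l => ?_) l
    · intro j
      show 0 < (X : ℚ[X]).natDegree
      rw [natDegree_X]
      exact one_pos
    · show ∀ j : Fin 2, 0 < ((![X, X - 1] : Fin 2 → ℚ[X]) j).natDegree
      intro j
      fin_cases j
      · show 0 < (X : ℚ[X]).natDegree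
        rw [natDegree_X]
        exact one_pos
      · show 0 < (X - 1 : ℚ[X]).natDegree
        rw [e1, natDegree_X_sub_C]
        exact one_pos
  · refine Fin.cases ?_ (fun l => ?_) l
    · intro i j hij
      exact absurd (Subsingleton.elim (α := Fin 1) i j) hij
    · show ∀ i j : Fin 2, i ≠ j → IsCoprime ((![X, X - 1] : Fin 2 → ℚ[X]) i)
        ((![X, X - 1] : Fin 2 → ℚ[X]) j)
      intro i j hij
      fin_cases i <;> fin_cases j
      · exact absurd rfl hij
      · exact c3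
      · exact c3.symm
      · exact absurd rfl hij
  · exact isCoprime_one_right
  · show IsCoprime (X : ℚ[X]) (derivative X)
    rw [derivative_X]
    exact isCoprime_one_right
  · refine Fin.cases ?_ (fun l => ?_) l
    · exact IsCoprime.pow_left c0
    · exact IsCoprime.mul_right c1.pow c2.pow
  · rcases (h1 l).inf with h2 | h2
    · exact h2.2.le
    · exfalso
      have h3 : (X : ℚ[X]).natDegree = (1 : ℚ[X]).natDegree := h2 0
      rw [natDegree_X, natDegree_one] at h3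
      omega

theorem doubleCover {n : ℕ} (a p q : Fin n → ℕ) (lam : ℤ) : DoubleCover a p q lam := by
  have hrel := (dbl a p q).rel (lam : ℚ)
  rw [Fin.prod_univ_succ, Fin.prod_univ_succ] at hrel
  have hC : (dbl a p q).mk' (lam : ℚ) (MvPolynomial.C (lam : ℚ)) =
      ((lam : ℤ) : (dbl a p q).CRing (lam : ℚ)) := by
    rw [map_intCast, map_intCast]
  rw [hC] at hrel
  have h1 : (fz a p q lam + 1) ^ 2 * fP a p q lam =
      (lam : Hyp (dbl a p q) lam) * (fz a p q lam * fQ a p q lam) := by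
    have h2 : (dbl a p q).pol (lam : ℚ) 0 ((dbl a p q).N 0) =
        ((dbl a p q).pol (lam : ℚ) 0 X + 1) ^ 2 := by
      show (dbl a p q).pol (lam : ℚ) 0 ((X + 1) ^ 2) = _
      rw [map_pow, map_add, map_one]
    rw [h2] at hrel
    exact hrel
  refine ⟨2 * fP a p q lam * (fz a p q lam + 1) - lam * fQ a p q lam, ?_, by ring⟩
  linear_combination 4 * fP a p q lam * h1

end Pool.Agent.U759.TQ.Gro
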