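import Pool.Agent.U759.TQ.Smooth
set_option autoImplicit false

/-!
Hypersurfaces `∏_l φ_l(z_l) = λ` with functions of two kinds: the functions with zeros and poles at the
poles of the `φ_l` and the functions with zeros and poles at the zeros of the `φ_l`. The definitions.
-/

namespace Pool.Agent.U759.TQ

open Polynomial

open Pool.Agent.TH826.MK (KQ symb Unramified Torus)

/-- The polynomials `N_l, M_l`, the functions `A_(l,j) / B_(l,j)` and the functions
`A'_(l,j) / B'_(l,j)`. -/
structure Dat2 (K : Type*) [Field K] (n : ℕ) (k k' : Fin (n + 1) → ℕ) where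
  /-- the numerator of `φ_l` -/
  N : Fin (n + 1) → K[X]
  /-- the denominator of `φ_l` -/
  M : Fin (n + 1) → K[X]
  /-- the numerators of the functions of `z_l` of the first kind -/
  A : ∀ l, Fin (k l) → K[X]
  /-- the denominators of the functions of `z_l` of the first kind -/
  B : ∀ l, Fin (k l) → K[X]
  /-- the numerators of the functions of `z_l` of the second kind -/
  A' : ∀ l, Fin (k' l) → K[X]
  /-- the denominators of the functions of `z_l` of the second kind -/
  B' : ∀ l, Fin (k' l) → K[X]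

variable {K : Type*} [Field K] {n : ℕ} {k k' : Fin (n + 1) → ℕ}

/-- All functions together. -/
def Dat2.dat (E : Dat2 K n k k') : Dat K n (fun l => k l + k' l) :=
  ⟨E.N, E.M, fun l => Fin.append (E.A l) (E.A' l), fun l => Fin.append (E.B l) (E.B' l)⟩

/-- The functions `φ_l` and the functions of the first kind. -/
def Dat2.fst (E : Dat2 K n k k') : Dat K n k := ⟨E.N, E.M, E.A, E.B⟩

/-- The functions `1 / φ_l` and the functions of the second kind. -/
def Dat2.snd (E : Dat2 K n k k') : Dat K n k' := ⟨E.M, E.N, E.A', E.B'⟩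

/-- The index of the symbol with the functions of the first or of the second kind. -/
def idx : (∀ l, Fin (k l)) ⊕ (∀ l, Fin (k' l)) → ∀ l, Fin (k l + k' l)
  | Sum.inl j => fun l => Fin.castAdd (k' l) (j l)
  | Sum.inr j => fun l => Fin.natAdd (k l) (j l)

/-- The conditions on a hypersurface with functions of both kinds. -/
structure Dat2.Ok (E : Dat2 K n k k') : Prop where
  fst : ∀ l, Tors (E.N l) (E.M l) (E.A l) (E.B l)
  snd : ∀ l, Tors (E.M l) (E.N l) (E.A' l) (E.B' l)
  pfst : Poles E.fst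
  psnd : Poles E.snd

/-- Zeros `α_i` and poles `β_j` with multiplicities `a_i` and `b_j`: algebraic integers, different, all
differences `α_i - β_j` are roots of unity, and there are more zeros than finite poles. -/
structure RootPts {K : Type*} [Field K] {r s : ℕ} (α : Fin (r + 1) → K) (a : Fin (r + 1) → ℕ)
    (β : Fin s → K) (b : Fin s → ℕ) : Prop where
  intα : ∀ i, IsIntegral ℤ (α i)
  intβ : ∀ j, IsIntegral ℤ (β j)
  injα : Function.Injective α
  injβ : Function.Injective β
  root : ∀ i j, ∃ m : ℕ, m ≠ 0 ∧ (α i - β j) ^ m = 1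
  posa : ∀ i, a i ≠ 0
  posb : ∀ j, b j ≠ 0
  lt : ∑ j, b j < ∑ i, a i

/-- `φ_l = ∏_i (z_l - α_(l,i)) ^ a_(l,i) / ∏_j (z_l - β_(l,j)) ^ b_(l,j)`, with the functions
`z_l - β_(l,j)` of the first kind and `(z_l - α_(l,i)) / (z_l - α_(l,0))`, `i ≥ 1`, of the second kind. -/
noncomputable def rootDat {r s : Fin (n + 1) → ℕ} (α : ∀ l, Fin (r l + 1) → K) (a : ∀ l, Fin (r l + 1) → ℕ)
    (β : ∀ l, Fin (s l) → K) (b : ∀ l, Fin (s l) → ℕ) : Dat2 K n s r where
  N l := ∏ i, (X - C (α l i)) ^ a l i
  M l := ∏ j, (X - C (β l j)) ^ b l j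
  A l j := X - C (β l j)
  B _ _ := 1
  A' l i := X - C (α l i.succ)
  B' l _ := X - C (α l 0)

/-- The indices of the symbols of the first and of the second kind. -/
def Ix {n : ℕ} (k k' : Fin (n + 1) → ℕ) : Type := (∀ l, Fin (k l)) ⊕ (∀ l, Fin (k' l))

instance {n : ℕ} (k k' : Fin (n + 1) → ℕ) : Fintype (Ix k k') :=
  instFintypeSum (∀ l, Fin (k l)) (∀ l, Fin (k' l))

instance {n : ℕ} (k k' : Fin (n + 1) → ℕ) : DecidableEq (Ix k k') :=
  (inferInstance : DecidableEq ((∀ l, Fin (k l)) ⊕ (∀ l, Fin (k' l))))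

/-- The coordinate ring of the hypersurface `∏_l N_l(z_l) = λ ∏_l M_l(z_l)`. -/
def Dat2.Ring (E : Dat2 K n k k') (lam : K) : Type _ := E.dat.CRing lam

noncomputable instance (E : Dat2 K n k k') (lam : K) : CommRing (E.Ring lam) :=
  Ideal.Quotient.commRing _

/-- The coordinate ring of the open part of the hypersurface on which the polynomials `M_l`, `A_(l,j)`,
`B_(l,j)`, `A'_(l,j)`, `B'_(l,j)` in `z_l` do not vanish. -/
def Dat2.Op (E : Dat2 K n k k') (lam : K) : Type _ := E.dat.Open lam

noncomputable instance (E : Dat2 K n k k') (lam : K) : CommRing (E.Op lam) :=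
  (inferInstance : CommRing (E.dat.Open lam))

/-- The constants. -/
noncomputable def Dat2.cst (E : Dat2 K n k k') (lam : K) : K →+* E.Op lam := E.dat.cst lam

/-- The symbols `{A_(l,j_l)(z_l) / B_(l,j_l)(z_l), 0 ≤ l ≤ n}` of the first kind and
`{A'_(l,j_l)(z_l) / B'_(l,j_l)(z_l), 0 ≤ l ≤ n}` of the second kind. -/
noncomputable def Dat2.sym (E : Dat2 K n k k') (lam : K) (s : Ix k k') : KQ (E.Op lam) (n + 1) :=
  symb (A := E.dat.Open lam) (E.dat.ent lam (idx s))

/-- All symbols have unramified images in `K_(n+1) ⊗ ℚ` of every field with a homomorphism from the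
coordinate ring of the open part of the hypersurface (for example, of the function field). -/
def UnramifiedSymbols.{u, v} {K : Type u} [Field K] {n : ℕ} {k k' : Fin (n + 1) → ℕ}
    (E : Dat2 K n k k') (lam : K) : Prop :=
  ∀ (L : Type v) [Field L] (h : E.Op lam →+* L) (s : Ix k k'),
    KQ.map (n + 1) h (E.sym lam s) ∈ Unramified L (n + 1)

/-- There are tori of dimension `n` in the complex points of the open part, one for each symbol, over `σ`
for the symbols of the first kind and over `τ` for those of the second kind, such that the determinant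
of the regulators of the symbols on the tori does not vanish. -/
def IndependentRegulators (σ τ : K →+* ℂ) (E : Dat2 K n k k') (lam : K) : Prop :=
  ∃ Γ : Ix k k' → Torus (E.Op lam) n,
    (∀ t θ (y : K), (Γ (Sum.inl t)).e θ (E.cst lam y) = σ y) ∧
    (∀ t θ (y : K), (Γ (Sum.inr t)).e θ (E.cst lam y) = τ y) ∧
    (Matrix.of fun t s => (Γ t).reg (E.sym lam s)).det ≠ 0

/-- The conclusions: the open part is not empty; the coordinate ring of the hypersurface is a domain, if
`N_l, M_l` are coprime for all `l` and `deg M_l ≤ deg N_l` for `l ≥ 1`; the hypersurface is smooth over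
`σ` and `τ` at the points with `M_l(z_l) ≠ 0` for all `l`; the symbols are unramified; and their
regulators are independent. -/
def Concl.{u, v} {K : Type u} [Field K] {n : ℕ} {k k' : Fin (n + 1) → ℕ} (σ τ : K →+* ℂ)
    (E : Dat2 K n k k') (lam : K) : Prop :=
  Nontrivial (E.Op lam) ∧
  ((∀ l, IsCoprime (E.N l) (E.M l)) → (∀ l, l ≠ 0 → (E.M l).natDegree ≤ (E.N l).natDegree) →
    IsDomain (E.Ring lam)) ∧
  Smooth σ E.dat lam ∧ Smooth τ E.dat lam ∧ UnramifiedSymbols.{u, v} E lam ∧
  IndependentRegulators σ τ E lam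

/-- There is a constant `C` such that the conclusions hold for all `σ, τ` and all units `λ` with
`|σ λ| ≥ C` and `|τ λ| ≤ 1 / C`; and for every unit `e` which is not a root of unity there are `σ` and
`τ` such that they hold for all large powers of `e`. -/
def LargeUnits.{u, v} {K : Type u} [Field K] {n : ℕ} {k k' : Fin (n + 1) → ℕ}
    (E : Dat2 K n k k') : Prop :=
  (∃ C : ℝ, ∀ (σ τ : K →+* ℂ) (lam : K), IsIntegral ℤ lam → IsIntegral ℤ lam⁻¹ →
    C ≤ ‖σ lam‖ → ‖τ lam‖ * C ≤ 1 → Concl.{u, v} σ τ E lam) ∧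
  ∀ e : K, e ≠ 0 → IsIntegral ℤ e → IsIntegral ℤ e⁻¹ → (∀ m : ℕ, 0 < m → e ^ m ≠ 1) →
    ∃ (σ τ : K →+* ℂ) (m₀ : ℕ), ∀ m ≥ m₀, Concl.{u, v} σ τ E (e ^ m)

/-- The conditions on the functions, and: `N_l, M_l` are coprime and `deg M_l < deg N_l` for all
`l`. -/
def Good (E : Dat2 K n k k') : Prop :=
  E.Ok ∧ ∀ l, IsCoprime (E.N l) (E.M l) ∧ (E.M l).natDegree < (E.N l).natDegree

end Pool.Agent.U759.TQ
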