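import Pool.Agent.U759.TQ.Smooth
import Pool.Agent.U759.TP.Dom
set_option autoImplicit false

/-!
The coordinate ring of the hypersurface `∏_l φ_l(z_l) = λ` is a domain for all large `λ`.
-/

namespace Pool.Agent.U759.TQ

open Polynomial Filter Topology Set

open Pool.Agent.U759.TP (ne_of_connected)

variable {K : Type*} [Field K] {n : ℕ} {k : Fin (n + 1) → ℕ} {D : Dat K n k}

section spl

/-- The polynomial in `z_l` which one gets by fixing the other variables. -/
noncomputable def spl (σ : K →+* ℂ) (y : Fin (n + 1) → ℂ) (l : Fin (n + 1)) :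
    MvPolynomial (Fin (n + 1)) K →+* ℂ[X] :=
  MvPolynomial.eval₂Hom (C.comp σ) (Function.update (fun i => C (y i)) l X)

theorem eval_spl (σ : K →+* ℂ) (y : Fin (n + 1) → ℂ) (l : Fin (n + 1))
    (p : MvPolynomial (Fin (n + 1)) K) (t : ℂ) :
    (spl σ y l p).eval t = MvPolynomial.eval₂Hom σ (Function.update y l t) p := by
  have h : (evalRingHom t).comp (spl σ y l) =
      MvPolynomial.eval₂Hom σ (Function.update y l t) := by
    refine MvPolynomial.ringHom_ext (fun a => ?_) fun i => ?_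
    · unfold spl
      simp
    · unfold spl
      rw [RingHom.comp_apply, MvPolynomial.eval₂Hom_X', MvPolynomial.eval₂Hom_X',
        coe_evalRingHom]
      by_cases hi : i = l
      · subst hi
        rw [Function.update_self, Function.update_self, eval_X]
      · rw [Function.update_of_ne hi, Function.update_of_ne hi, eval_C]
  exact congrArg (fun h : MvPolynomial (Fin (n + 1)) K →+* ℂ => h p) h

theorem natDegree_spl_le (σ : K →+* ℂ) (y : Fin (n + 1) → ℂ) (l : Fin (n + 1))
    (p : MvPolynomial (Fin (n + 1)) K) : (spl σ y l p).natDegree ≤ p.degreeOf l := by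
  unfold spl
  rw [MvPolynomial.coe_eval₂Hom, MvPolynomial.eval₂_eq']
  refine natDegree_sum_le_of_forall_le _ _ fun d hd => ?_
  rw [RingHom.comp_apply]
  refine (natDegree_C_mul_le _ _).trans ((natDegree_prod_le _ _).trans ?_)
  have h1 : ∑ i, ((Function.update (fun i => C (y i)) l X : Fin (n + 1) → ℂ[X]) i ^ d i).natDegree
      ≤ ∑ i, if i = l then d l else 0 := by
    refine Finset.sum_le_sum fun i _ => ?_
    refine natDegree_pow_le.trans ?_
    by_cases hi : i = l
    · subst hi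
      rw [Function.update_self, if_pos rfl, natDegree_X, mul_one]
    · rw [Function.update_of_ne hi, if_neg hi, natDegree_C, mul_zero]
  refine h1.trans ?_
  rw [Finset.sum_ite_eq' Finset.univ l, if_pos (Finset.mem_univ l)]
  exact MvPolynomial.monomial_le_degreeOf l hd

theorem mp_sum (l : Fin (n + 1)) (p : K[X]) : mp l p = ∑ i ∈ Finset.range (p.natDegree + 1),
    MvPolynomial.C (p.coeff i) * (MvPolynomial.X l : MvPolynomial (Fin (n + 1)) K) ^ i := by
  unfold mp
  rw [Polynomial.coe_eval₂RingHom, Polynomial.eval₂_eq_sum_range]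

theorem degreeOf_mp_le (l : Fin (n + 1)) (p : K[X]) :
    MvPolynomial.degreeOf l (mp l p) ≤ p.natDegree := by
  rw [mp_sum]
  refine (MvPolynomial.degreeOf_sum_le _ _ _).trans (Finset.sup_le fun i hi => ?_)
  refine (MvPolynomial.degreeOf_C_mul_le _ _ _).trans ?_
  rw [MvPolynomial.degreeOf_X_self_pow]
  exact Nat.lt_succ_iff.1 (Finset.mem_range.1 hi)

theorem degreeOf_mp_ne {j l : Fin (n + 1)} (h : j ≠ l) (p : K[X]) :
    MvPolynomial.degreeOf l (mp j p) = 0 := by
  refine Nat.le_zero.1 ?_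
  rw [mp_sum]
  refine (MvPolynomial.degreeOf_sum_le _ _ _).trans (Finset.sup_le fun i _ => ?_)
  refine (MvPolynomial.degreeOf_C_mul_le _ _ _).trans
    ((MvPolynomial.degreeOf_pow_le _ _ _).trans ?_)
  rw [MvPolynomial.degreeOf_X, if_neg (Ne.symm h), mul_zero]

theorem degreeOf_prod_mp (l : Fin (n + 1)) (p : Fin (n + 1) → K[X]) :
    MvPolynomial.degreeOf l (∏ j, mp j (p j)) ≤ (p l).natDegree := by
  refine (MvPolynomial.degreeOf_prod_le _ _ _).trans ?_
  rw [Finset.sum_eq_single l (fun j _ hj => degreeOf_mp_ne hj _)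
    (fun h => absurd (Finset.mem_univ l) h)]
  exact degreeOf_mp_le l _

theorem degreeOf_eqn (D : Dat K n k) (lam : K) (l : Fin (n + 1))
    (h : (D.M l).natDegree ≤ (D.N l).natDegree) :
    MvPolynomial.degreeOf l (D.eqn lam) ≤ (D.N l).natDegree := by
  unfold Dat.eqn
  rw [sub_eq_add_neg]
  refine (MvPolynomial.degreeOf_add_le _ _ _).trans (max_le (degreeOf_prod_mp l _) ?_)
  rw [← neg_one_mul, ← mul_assoc, ← MvPolynomial.C_1, ← map_neg, ← map_mul]
  exact ((MvPolynomial.degreeOf_C_mul_le _ _ _).trans (degreeOf_prod_mp l _)).trans h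

theorem spl_mp_ne (σ : K →+* ℂ) (y : Fin (n + 1) → ℂ) {j l : Fin (n + 1)} (h : j ≠ l) (p : K[X]) :
    spl σ y l (mp j p) = C ((p.map σ).eval (y j)) := by
  unfold spl mp
  rw [Polynomial.coe_eval₂RingHom, Polynomial.hom_eval₂, Polynomial.eval_map,
    Polynomial.hom_eval₂]
  congr 1
  · ext a
    simp
  · rw [MvPolynomial.eval₂Hom_X', Function.update_of_ne h]

theorem spl_mp_self (σ : K →+* ℂ) (y : Fin (n + 1) → ℂ) (l : Fin (n + 1)) (p : K[X]) :
    spl σ y l (mp l p) = p.map σ := by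
  unfold spl mp
  rw [Polynomial.coe_eval₂RingHom, Polynomial.hom_eval₂, MvPolynomial.eval₂Hom_X',
    Function.update_self]
  unfold Polynomial.map
  congr 1
  ext a
  simp

theorem spl_prod (σ : K →+* ℂ) (y : Fin (n + 1) → ℂ) (l : Fin (n + 1)) (p : Fin (n + 1) → K[X]) :
    spl σ y l (∏ j, mp j (p j)) =
      (p l).map σ * C (∏ j ∈ Finset.univ.erase l, ((p j).map σ).eval (y j)) := by
  rw [← Finset.mul_prod_erase _ _ (Finset.mem_univ l), map_mul, spl_mp_self, map_prod, map_prod]
  congr 1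
  exact Finset.prod_congr rfl fun j hj => spl_mp_ne σ y (Finset.ne_of_mem_erase hj) _

end spl

/-- A factor without zeros near the branch is a polynomial in `z_0`. -/
theorem degree_zero (σ : K →+* ℂ) {lam : K} {g h : MvPolynomial (Fin (n + 1)) K}
    (hgh : g * h = D.eqn lam) {c : Fin (n + 1) → ℂ} (hM : ((D.M 0).map σ).eval (c 0) = 0)
    (hN : ∀ l, ((D.N l).map σ).eval (c l) ≠ 0) {l : Fin (n + 1)} (hl : l ≠ 0)
    (hd : (D.M l).natDegree ≤ (D.N l).natDegree)
    (hz : ∀ a, ((D.N l).map σ).eval a = 0 →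
      MvPolynomial.eval₂Hom σ (Function.update c l a) h ≠ 0) : MvPolynomial.degreeOf l h = 0 := by
  have h1 : spl σ c l (D.eqn lam) =
      (D.N l).map σ * C (∏ j ∈ Finset.univ.erase l, ((D.N j).map σ).eval (c j)) := by
    unfold Dat.eqn
    rw [map_sub, map_mul, spl_prod, spl_prod]
    have h2 : ∏ j ∈ Finset.univ.erase l, ((D.M j).map σ).eval (c j) = 0 :=
      Finset.prod_eq_zero (Finset.mem_erase.2 ⟨hl.symm, Finset.mem_univ 0⟩) hM
    rw [h2, C_0, mul_zero, mul_zero, sub_zero]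
  have hc : ∏ j ∈ Finset.univ.erase l, ((D.N j).map σ).eval (c j) ≠ 0 :=
    Finset.prod_ne_zero_iff.2 fun j _ => hN j
  have hNl : (D.N l).map σ ≠ 0 := by
    intro h2
    have h3 := hN l
    rw [h2, eval_zero] at h3
    exact h3 rfl
  have h2 : spl σ c l g * spl σ c l h =
      (D.N l).map σ * C (∏ j ∈ Finset.univ.erase l, ((D.N j).map σ).eval (c j)) := by
    rw [← map_mul, hgh, h1]
  have hne : spl σ c l g * spl σ c l h ≠ 0 := by
    rw [h2]
    exact mul_ne_zero hNl (C_ne_zero.2 hc)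
  have hg0 := left_ne_zero_of_mul hne
  have hh0 := right_ne_zero_of_mul hne
  have h3 : (spl σ c l h).natDegree = 0 := by
    by_contra hcon
    obtain ⟨a, ha⟩ : ∃ a, (spl σ c l h).eval a = 0 := by
      refine IsAlgClosed.exists_root _ ?_
      rw [degree_eq_natDegree hh0]
      exact_mod_cast hcon
    have h4 := congrArg (eval a) h2
    rw [eval_mul, ha, mul_zero, eval_mul, eval_C] at h4
    have h5 := (mul_eq_zero.1 h4.symm).resolve_right hc
    exact hz a h5 (by rw [← eval_spl, ha])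
  have h4 : (spl σ c l g).natDegree = (D.N l).natDegree := by
    have h5 := congrArg natDegree h2
    rw [natDegree_mul hg0 hh0, h3, add_zero, natDegree_mul_C hc, natDegree_map] at h5
    exact h5
  have hgn : g ≠ 0 := by
    rintro rfl
    rw [map_zero] at hg0
    exact hg0 rfl
  have hhn : h ≠ 0 := by
    rintro rfl
    rw [map_zero] at hh0
    exact hh0 rfl
  have h5 := natDegree_spl_le σ c l g
  have h6 := degreeOf_eqn D lam l hd
  rw [← hgh, MvPolynomial.degreeOf_mul_eq hgn hhn] at h6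
  omega

/-- A polynomial in `z_0` which divides the equation is constant. -/
theorem isUnit_of_degree (σ : K →+* ℂ) {lam : K} (hl0 : lam ≠ 0)
    {g h : MvPolynomial (Fin (n + 1)) K} (hgh : g * h = D.eqn lam)
    (hcop : ∀ l, IsCoprime (D.N l) (D.M l))
    {a c : Fin n → ℂ} (ha : ∏ l, ((D.N (Fin.succ l)).map σ).eval (a l) = 0)
    (haM : ∏ l, ((D.M (Fin.succ l)).map σ).eval (a l) ≠ 0)
    (hc : ∏ l, ((D.N (Fin.succ l)).map σ).eval (c l) ≠ 0)
    (hd : ∀ l : Fin n, MvPolynomial.degreeOf l.succ h = 0) : IsUnit h := by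
  set p : K[X] := MvPolynomial.eval₂Hom C (fun i : Fin (n + 1) => if i = 0 then X else 0) h
    with hp
  have hmp : mp 0 p = h := by
    have h1 : ((mp 0 : K[X] →+* MvPolynomial (Fin (n + 1)) K).comp
        (MvPolynomial.eval₂Hom C (fun i : Fin (n + 1) => if i = 0 then X else 0))) h =
        (RingHom.id _) h := by
      refine MvPolynomial.hom_congr_vars ?_ ?_ rfl
      · ext a
        simp [mp]
      · intro i hi _
        have hi0 : i = 0 := by
          by_contra hi0
          obtain ⟨l, rfl⟩ := Fin.exists_succ_eq.2 hi0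
          have h2 := hd l
          rw [MvPolynomial.mem_vars_iff_mem_support] at hi
          obtain ⟨d, hd1, hd2⟩ := hi
          have h3 := MvPolynomial.monomial_le_degreeOf l.succ hd1
          rw [h2, Nat.le_zero] at h3
          exact (Finsupp.mem_support_iff.1 hd2) h3
        subst hi0
        rw [RingHom.comp_apply, MvPolynomial.eval₂Hom_X', if_pos rfl]
        unfold mp
        rw [Polynomial.coe_eval₂RingHom, Polynomial.eval₂_X]
        rfl
    exact h1
  have hσl : σ lam ≠ 0 := (map_ne_zero σ).2 hl0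
  have hp0 : p ≠ 0 := by
    intro h0
    rw [h0, map_zero] at hmp
    rw [← hmp, mul_zero] at hgh
    obtain ⟨x, hx⟩ : ∃ x : ℂ, ((D.N 0).map σ).eval x ≠ 0 := by
      by_contra hcon
      push Not at hcon
      have h1 : (D.N 0).map σ = 0 := Polynomial.funext fun z => by rw [hcon z, eval_zero]
      have h2 : D.N 0 = 0 := (Polynomial.map_eq_zero_iff σ.injective).1 h1
      obtain ⟨u, v, huv⟩ := hcop 0
      have h3 : ∀ x, (Fin.cons x c : Fin (n + 1) → ℂ) 0 = x := fun x => rfl
      have h4 : IsUnit (D.M 0) := by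
        rw [h2, mul_zero, zero_add] at huv
        exact IsUnit.of_mul_eq_one _ (by rw [mul_comm]; exact huv)
      have h5 := congrArg (MvPolynomial.eval₂Hom σ (Fin.cons 0 a : Fin (n + 1) → ℂ)) hgh
      unfold Dat.eqn at h5
      rw [map_zero, map_sub, map_mul, map_prod, map_prod, Fin.prod_univ_succ,
        Fin.prod_univ_succ, h2, map_zero, map_zero, zero_mul, zero_sub, MvPolynomial.coe_eval₂Hom,
        MvPolynomial.eval₂_C, ← MvPolynomial.coe_eval₂Hom] at h5
      simp only [eval_mp] at h5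
      have h6 := neg_eq_zero.1 h5.symm
      refine mul_ne_zero hσl (mul_ne_zero ?_ ?_) h6
      · exact (h4.map (Polynomial.eval₂RingHom σ _)).ne_zero
      · simp only [Fin.cons_succ, ← eval_map]
        exact haM
    have h1 := congrArg (MvPolynomial.eval₂Hom σ (Fin.cons x c : Fin (n + 1) → ℂ)) hgh
    have h2 := congrArg (MvPolynomial.eval₂Hom σ (Fin.cons x a : Fin (n + 1) → ℂ)) hgh
    unfold Dat.eqn at h1 h2
    rw [map_zero, map_sub, map_mul, map_prod, map_prod, Fin.prod_univ_succ,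
      Fin.prod_univ_succ, MvPolynomial.coe_eval₂Hom,
      MvPolynomial.eval₂_C, ← MvPolynomial.coe_eval₂Hom] at h1 h2
    simp only [eval_mp, Fin.cons_succ, Fin.cons_zero, ← eval_map] at h1 h2
    rw [ha, mul_zero, zero_sub] at h2
    have h3 := neg_eq_zero.1 h2.symm
    have h4 : ((D.M 0).map σ).eval x = 0 := by
      by_contra h5
      exact mul_ne_zero hσl (mul_ne_zero h5 haM) h3
    rw [h4, zero_mul, mul_zero, sub_zero] at h1
    exact mul_ne_zero hx hc h1.symm
  by_cases hdeg : p.natDegree = 0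
  · have h1 := eq_C_of_natDegree_eq_zero hdeg
    rw [← hmp, h1]
    refine IsUnit.map _ (isUnit_C.2 (isUnit_iff_ne_zero.2 fun h0 => hp0 ?_))
    rw [h1, h0, C_0]
  · exfalso
    obtain ⟨x, hx⟩ : ∃ x, (p.map σ).eval x = 0 := by
      refine IsAlgClosed.exists_root _ ?_
      rw [degree_map, degree_eq_natDegree hp0]
      exact_mod_cast hdeg
    have hv : ∀ z : Fin n → ℂ, MvPolynomial.eval₂Hom σ (Fin.cons x z : Fin (n + 1) → ℂ)
        (D.eqn lam) = 0 := by
      intro z
      rw [← hgh, map_mul, ← hmp, eval_mp, Fin.cons_zero, ← eval_map, hx, mul_zero]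
    have h1 := hv c
    have h2 := hv a
    unfold Dat.eqn at h1 h2
    rw [map_sub, map_mul, map_prod, map_prod, Fin.prod_univ_succ,
      Fin.prod_univ_succ, MvPolynomial.coe_eval₂Hom,
      MvPolynomial.eval₂_C, ← MvPolynomial.coe_eval₂Hom] at h1 h2
    simp only [eval_mp, Fin.cons_succ, Fin.cons_zero, ← eval_map] at h1 h2
    rw [ha, mul_zero, zero_sub, neg_eq_zero] at h2
    have h4 : ((D.M 0).map σ).eval x = 0 := by
      by_contra h5
      exact mul_ne_zero hσl (mul_ne_zero h5 haM) h2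
    rw [h4, zero_mul, mul_zero, sub_zero] at h1
    have h5 : ((D.N 0).map σ).eval x = 0 := (mul_eq_zero.1 h1).resolve_right hc
    obtain ⟨u, v, huv⟩ := hcop 0
    have h6 := congrArg (fun p => (p.map σ).eval x) huv
    simp only [Polynomial.map_add, Polynomial.map_mul, Polynomial.map_one, eval_add, eval_mul,
      eval_one, h4, h5, mul_zero, add_zero] at h6
    exact zero_ne_one h6

theorem F_cont (σ : K →+* ℂ) (p : MvPolynomial (Fin (n + 1)) K) {α : Type*} [TopologicalSpace α]
    {x : α → ℂ} {Z : α → Fin n → ℂ} (hx : Continuous x) (hZ : Continuous Z) :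
    Continuous fun t => MvPolynomial.eval₂Hom σ (Fin.cons (x t) (Z t) : Fin (n + 1) → ℂ) p := by
  induction p using MvPolynomial.induction_on with
  | C a => simpa using continuous_const
  | add p q hp hq =>
    simp only [map_add]
    exact Continuous.add hp hq
  | mul_X p i hp =>
    simp only [map_mul, MvPolynomial.eval₂Hom_X']
    refine hp.mul ?_
    refine Fin.cases ?_ (fun l => ?_) i
    · exact hx
    · exact (continuous_apply l).comp hZ

theorem F_diff (σ : K →+* ℂ) (p : MvPolynomial (Fin (n + 1)) K) (z : Fin n → ℂ) (x : ℂ) :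
    DifferentiableAt ℂ
      (fun x => MvPolynomial.eval₂Hom σ (Fin.cons x z : Fin (n + 1) → ℂ) p) x := by
  induction p using MvPolynomial.induction_on with
  | C a => simp
  | add p q hp hq =>
    simp only [map_add]
    exact DifferentiableAt.fun_add hp hq
  | mul_X p i hp =>
    simp only [map_mul, MvPolynomial.eval₂Hom_X']
    refine DifferentiableAt.fun_mul hp ?_
    refine Fin.cases ?_ (fun l => ?_) i
    · exact differentiableAt_id
    · exact differentiableAt_const _

theorem F_eqn (σ : K →+* ℂ) (D : Dat K n k) (lam : K) (x : ℂ) (z : Fin n → ℂ) :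
    MvPolynomial.eval₂Hom σ (Fin.cons x z : Fin (n + 1) → ℂ) (D.eqn lam) =
      ((D.N 0).map σ).eval x * ∏ l, ((D.N (Fin.succ l)).map σ).eval (z l) -
        σ lam * (((D.M 0).map σ).eval x * ∏ l, ((D.M (Fin.succ l)).map σ).eval (z l)) := by
  unfold Dat.eqn
  rw [map_sub, map_mul, map_prod, map_prod, Fin.prod_univ_succ,
    Fin.prod_univ_succ, MvPolynomial.coe_eval₂Hom,
    MvPolynomial.eval₂_C, ← MvPolynomial.coe_eval₂Hom]
  simp only [eval_mp, Fin.cons_succ, Fin.cons_zero, ← eval_map]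

/-- The branch of the inverse function of `M / N` at a simple zero of `M`. -/
theorem exists_branch' (N M : ℂ[X]) {b : ℂ} (hM0 : M.eval b = 0)
    (hM1 : (derivative M).eval b ≠ 0) (hN : N.eval b ≠ 0) :
    ∃ (δ : ℝ) (ψ : ℂ → ℂ), 0 < δ ∧ ∀ w, ‖w‖ < δ → ContinuousAt ψ w ∧
      M.eval (ψ w) = w * N.eval (ψ w) ∧ N.eval (ψ w) ≠ 0 ∧
      (derivative M).eval (ψ w) * N.eval (ψ w) - M.eval (ψ w) * (derivative N).eval (ψ w) ≠ 0 := by
  obtain ⟨δ, ψ, e, Φ, hδ, -, h⟩ := exists_branch N M (fun _ : Fin 1 => X - C b)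
    (fun _ => 1) 0 hM0 hM1 hN (X_sub_C_ne_zero b) (by rw [eval_sub, eval_X, eval_C, sub_self])
    (fun m hm => absurd (Subsingleton.elim m 0) hm) (fun m => by
      rw [eval_one]
      exact one_ne_zero)
  refine ⟨δ, ψ, hδ, fun w hw => ?_⟩
  obtain ⟨h1, h2, h3, -⟩ := h w hw
  refine ⟨h1.continuousAt, h2, h3, fun h0 => ?_⟩
  have hd : HasDerivAt ψ (deriv ψ w) w := (h1.differentiableAt (by norm_num)).hasDerivAt
  have e1 : HasDerivAt (fun w => M.eval (ψ w)) ((derivative M).eval (ψ w) * deriv ψ w) w :=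
    (M.hasDerivAt (ψ w)).comp w hd
  have e2 : HasDerivAt (fun w => w * N.eval (ψ w))
      (1 * N.eval (ψ w) + w * ((derivative N).eval (ψ w) * deriv ψ w)) w :=
    (hasDerivAt_id w).mul ((N.hasDerivAt (ψ w)).comp w hd)
  have e3 : (fun w => M.eval (ψ w)) =ᶠ[𝓝 w] fun w => w * N.eval (ψ w) := by
    have h4 : ∀ᶠ y in 𝓝 w, ‖y‖ < δ := continuous_norm.continuousAt.eventually_lt_const hw
    exact h4.mono fun y hy => (h y hy).2.1
  have e4 := (e1.congr_of_eventuallyEq e3.symm).unique e2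
  refine pow_ne_zero 2 h3 ?_
  have e5 : M.eval (ψ w) * (derivative N).eval (ψ w) =
      w * N.eval (ψ w) * (derivative N).eval (ψ w) := by rw [h2]
  linear_combination (-N.eval (ψ w)) * e4 + deriv ψ w * h0 + deriv ψ w * e5

theorem not_both (σ : K →+* ℂ) {lam : K} (hl0 : lam ≠ 0)
    {g h : MvPolynomial (Fin (n + 1)) K} (hgh : g * h = D.eqn lam) {x : ℂ} {z : Fin n → ℂ}
    (hrel : ((D.N 0).map σ).eval x * ∏ l, ((D.N (Fin.succ l)).map σ).eval (z l) =
      σ lam * (((D.M 0).map σ).eval x * ∏ l, ((D.M (Fin.succ l)).map σ).eval (z l)))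
    (hQ : ∏ l, ((D.M (Fin.succ l)).map σ).eval (z l) ≠ 0)
    (hW : (derivative ((D.M 0).map σ)).eval x * ((D.N 0).map σ).eval x -
      ((D.M 0).map σ).eval x * (derivative ((D.N 0).map σ)).eval x ≠ 0) :
    ¬ (MvPolynomial.eval₂Hom σ (Fin.cons x z : Fin (n + 1) → ℂ) g = 0 ∧
      MvPolynomial.eval₂Hom σ (Fin.cons x z : Fin (n + 1) → ℂ) h = 0) := by
  rintro ⟨hg, hh⟩
  have hσl : σ lam ≠ 0 := (map_ne_zero σ).2 hl0
  have h2 : deriv (fun x => MvPolynomial.eval₂Hom σ (Fin.cons x z : Fin (n + 1) → ℂ) g *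
      MvPolynomial.eval₂Hom σ (Fin.cons x z : Fin (n + 1) → ℂ) h) x = 0 := by
    rw [deriv_fun_mul (F_diff σ g z x) (F_diff σ h z x), hg, hh, mul_zero, zero_mul, add_zero]
  have h3 : (fun x => MvPolynomial.eval₂Hom σ (Fin.cons x z : Fin (n + 1) → ℂ) g *
      MvPolynomial.eval₂Hom σ (Fin.cons x z : Fin (n + 1) → ℂ) h) = fun x =>
      ((D.N 0).map σ).eval x * ∏ l, ((D.N (Fin.succ l)).map σ).eval (z l) -
        σ lam * (((D.M 0).map σ).eval x * ∏ l, ((D.M (Fin.succ l)).map σ).eval (z l)) := by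
    funext x
    rw [← map_mul, hgh, F_eqn]
  set P := ∏ l, ((D.N (Fin.succ l)).map σ).eval (z l) with hP
  set Q := ∏ l, ((D.M (Fin.succ l)).map σ).eval (z l) with hQd
  have h4 : HasDerivAt (fun x => ((D.N 0).map σ).eval x * P -
      σ lam * (((D.M 0).map σ).eval x * Q)) ((derivative ((D.N 0).map σ)).eval x * P -
      σ lam * ((derivative ((D.M 0).map σ)).eval x * Q)) x :=
    ((((D.N 0).map σ).hasDerivAt x).mul_const P).sub
      (((((D.M 0).map σ).hasDerivAt x).mul_const Q).const_mul (σ lam))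
  rw [h3, h4.deriv] at h2
  refine mul_ne_zero (mul_ne_zero hσl hQ) hW ?_
  linear_combination (-((D.N 0).map σ).eval x) * h2 + (derivative ((D.N 0).map σ)).eval x * hrel

theorem exists_irreducible (σ : K →+* ℂ) (D : Dat K n k) (hn : n ≠ 0)
    (hcop : ∀ l, IsCoprime (D.N l) (D.M l))
    (hM : ∀ l, D.M l ≠ 0) (hN : ∀ l : Fin n, 0 < (D.N l.succ).natDegree)
    (hdeg : ∀ l : Fin n, (D.M l.succ).natDegree ≤ (D.N l.succ).natDegree) {b : ℂ}
    (hb0 : ((D.M 0).map σ).eval b = 0) (hb1 : (derivative ((D.M 0).map σ)).eval b ≠ 0) :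
    ∃ C : ℝ, ∀ lam : K, C ≤ ‖σ lam‖ → Irreducible (D.eqn lam) := by
  classical
  have hcop' : ∀ l x, ((D.N l).map σ).eval x = 0 → ((D.M l).map σ).eval x ≠ 0 := by
    intro l x h4 h5
    obtain ⟨u, v, huv⟩ := hcop l
    have h6 := congrArg (fun p => (p.map σ).eval x) huv
    simp only [Polynomial.map_add, Polynomial.map_mul, Polynomial.map_one, eval_add, eval_mul,
      eval_one, h4, h5, mul_zero, add_zero] at h6
    exact zero_ne_one h6
  have hMσ : ∀ l, (D.M l).map σ ≠ 0 := fun l =>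
    (Polynomial.map_ne_zero_iff σ.injective).2 (hM l)
  have hN0 : ∀ l : Fin n, D.N l.succ ≠ 0 := fun l h => by
    have h1 := hN l
    rw [h, natDegree_zero] at h1
    omega
  have hNσ : ∀ l : Fin n, (D.N l.succ).map σ ≠ 0 := fun l =>
    (Polynomial.map_ne_zero_iff σ.injective).2 (hN0 l)
  -- the points
  have hex : ∀ l : Fin n, ∃ a, ((D.N l.succ).map σ).eval a = 0 := by
    intro l
    refine IsAlgClosed.exists_root _ ?_
    rw [degree_map, degree_eq_natDegree (hN0 l)]
    exact_mod_cast (hN l).ne'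
  choose a ha using hex
  have hexc : ∀ l : Fin n, ∃ c, ((D.N l.succ).map σ).eval c ≠ 0 ∧
      ((D.M l.succ).map σ).eval c ≠ 0 := by
    intro l
    by_contra hcon
    push Not at hcon
    refine mul_ne_zero (hNσ l) (hMσ l.succ) (Polynomial.funext fun z => ?_)
    rw [eval_mul, eval_zero]
    by_cases h1 : ((D.N l.succ).map σ).eval z = 0
    · rw [h1, zero_mul]
    · rw [hcon z h1, mul_zero]
  choose c hc hcM using hexc
  -- the paths
  have hfinr : ∀ p : ℂ[X], p ≠ 0 → Set.Finite {x | p.eval x = 0} := fun p hp =>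
    (p.roots.toFinset.finite_toSet).subset fun a ha => by
      simp only [Finset.mem_coe, Multiset.mem_toFinset]
      exact (mem_roots hp).2 ha
  have hpc : ∀ l : Fin n, IsPathConnected ({x | ((D.M l.succ).map σ).eval x = 0}ᶜ : Set ℂ) := by
    intro l
    refine (hfinr _ (hMσ l.succ)).countable.isPathConnected_compl_of_one_lt_rank ?_
    rw [Complex.rank_real_complex]
    exact Cardinal.one_lt_two
  set I : Type := Σ l : Fin n, {x // ((D.N l.succ).map σ).eval x = 0} with hI
  have hfinI : ∀ l : Fin n, Finite {x // ((D.N l.succ).map σ).eval x = 0} := fun l =>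
    Set.Finite.to_subtype (s := {x | ((D.N l.succ).map σ).eval x = 0}) (hfinr _ (hNσ l))
  have : Finite I := Finite.instSigma
  have := Fintype.ofFinite I
  set tgt : I → Fin n → ℂ := fun i => Function.update c i.1 i.2.1 with htgt
  have htM : ∀ (i : I) l, ((D.M (Fin.succ l)).map σ).eval (tgt i l) ≠ 0 := by
    intro i l
    simp only [htgt]
    by_cases hl : l = i.1
    · subst hl
      rw [Function.update_self]
      exact hcop' _ _ i.2.2
    · rw [Function.update_of_ne hl]
      exact hcM l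
  have hpath : ∀ (i : I) l, ∃ γ : Path (a l) (tgt i l), ∀ t,
      ((D.M (Fin.succ l)).map σ).eval (γ t) ≠ 0 := by
    intro i l
    have h1 := (hpc l).joinedIn (a l) (hcop' _ _ (ha l)) (tgt i l) (htM i l)
    exact ⟨h1.somePath, h1.somePath_mem⟩
  choose γ hγ using hpath
  set U : I → unitInterval → ℂ := fun i t =>
    (∏ l, ((D.N (Fin.succ l)).map σ).eval (γ i l t)) /
      ∏ l, ((D.M (Fin.succ l)).map σ).eval (γ i l t) with hU
  have hQ : ∀ i t, ∏ l, ((D.M (Fin.succ l)).map σ).eval (γ i l t) ≠ 0 := fun i t =>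
    Finset.prod_ne_zero_iff.2 fun l _ => hγ i l t
  have hUc : ∀ i, Continuous (U i) := by
    intro i
    refine Continuous.div ?_ ?_ (hQ i)
    · exact continuous_finsetProd _ fun l _ =>
        (((D.N (Fin.succ l)).map σ).continuous).comp (γ i l).continuous
    · exact continuous_finsetProd _ fun l _ =>
        (((D.M (Fin.succ l)).map σ).continuous).comp (γ i l).continuous
  have hT' : ∀ i, ∃ T : ℝ, ∀ t, ‖U i t‖ ≤ T := by
    intro i
    obtain ⟨T, hT⟩ := (isCompact_univ (X := unitInterval)).exists_bound_of_continuousOn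
      (hUc i).continuousOn
    exact ⟨T, fun t => hT t (mem_univ t)⟩
  choose T' hT' using hT'
  set T : ℝ := 1 + ∑ i, |T' i| with hTdef
  have hT1 : 1 ≤ T := by
    have : 0 ≤ ∑ i, |T' i| := Finset.sum_nonneg fun _ _ => abs_nonneg _
    linarith
  have hUT : ∀ i t, ‖U i t‖ ≤ T := by
    intro i t
    have h1 : |T' i| ≤ ∑ i, |T' i| :=
      Finset.single_le_sum (f := fun i => |T' i|) (fun _ _ => abs_nonneg _) (Finset.mem_univ i)
    have h2 := hT' i t
    have h3 := le_abs_self (T' i)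
    linarith
  -- the branch
  have hNb : ((D.N 0).map σ).eval b ≠ 0 := fun h => hcop' 0 b h hb0
  obtain ⟨δ, ψ, hδ, hψ⟩ := exists_branch' ((D.N 0).map σ) ((D.M 0).map σ) hb0 hb1 hNb
  set β := ψ 0 with hβ
  obtain ⟨-, hβ1, hβ2, hβ3⟩ := hψ 0 (by rw [norm_zero]; exact hδ)
  rw [← hβ, zero_mul] at hβ1
  rw [← hβ] at hβ2 hβ3
  have ha0 : ∏ l, ((D.N (Fin.succ l)).map σ).eval (a l) = 0 :=
    Finset.prod_eq_zero (Finset.mem_univ ⟨0, Nat.pos_of_ne_zero hn⟩) (ha _)
  have haM : ∏ l, ((D.M (Fin.succ l)).map σ).eval (a l) ≠ 0 :=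
    Finset.prod_ne_zero_iff.2 fun l _ => hcop' _ _ (ha l)
  have hc0 : ∏ l, ((D.N (Fin.succ l)).map σ).eval (c l) ≠ 0 :=
    Finset.prod_ne_zero_iff.2 fun l _ => hc l
  refine ⟨max 1 (2 * T / δ), fun lam hlam => ?_⟩
  have hl1 : 1 ≤ ‖σ lam‖ := (le_max_left _ _).trans hlam
  have hl2 : 2 * T / δ ≤ ‖σ lam‖ := (le_max_right _ _).trans hlam
  have hlpos : 0 < ‖σ lam‖ := by linarith
  have hσl : σ lam ≠ 0 := norm_pos_iff.1 hlpos
  have hl0 : lam ≠ 0 := fun h => hσl (by rw [h, map_zero])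
  set w : ℂ := (σ lam)⁻¹ with hw
  have hwT : ‖w‖ * T ≤ δ / 2 := by
    rw [hw, norm_inv, inv_mul_le_iff₀ hlpos]
    rw [div_le_iff₀ hδ] at hl2
    linarith
  have hlt : ∀ i t, ‖w * U i t‖ < δ := by
    intro i t
    rw [norm_mul]
    have := mul_le_mul_of_nonneg_left (hUT i t) (norm_nonneg w)
    linarith
  have hXc : ∀ i, Continuous fun t => ψ (w * U i t) := by
    intro i
    rw [continuous_iff_continuousAt]
    intro t
    have h1 : ContinuousAt ψ (w * U i t) := (hψ _ (hlt i t)).1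
    exact ContinuousAt.comp (g := ψ) (f := fun t => w * U i t) h1
      (continuous_const.mul (hUc i)).continuousAt
  have hZc : ∀ i, Continuous fun t => (fun l => γ i l t : Fin n → ℂ) := fun i =>
    continuous_pi fun l => (γ i l).continuous
  -- the equation and the gradient on the branch
  have hrel : ∀ i t, ((D.N 0).map σ).eval (ψ (w * U i t)) *
      ∏ l, ((D.N (Fin.succ l)).map σ).eval (γ i l t) =
      σ lam * (((D.M 0).map σ).eval (ψ (w * U i t)) *
        ∏ l, ((D.M (Fin.succ l)).map σ).eval (γ i l t)) := by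
    intro i t
    rw [(hψ _ (hlt i t)).2.1]
    have h1 := hQ i t
    simp only [hU, hw]
    field_simp
  have hU0 : ∀ i, U i 0 = 0 := fun i => by
    simp only [hU, Path.source]
    rw [ha0, zero_div]
  have htN : ∀ i : I, ∏ l, ((D.N (Fin.succ l)).map σ).eval (tgt i l) = 0 := by
    intro i
    refine Finset.prod_eq_zero (Finset.mem_univ i.1) ?_
    simp only [htgt]
    rw [Function.update_self]
    exact i.2.2
  have hU1 : ∀ i, U i 1 = 0 := fun i => by
    simp only [hU, Path.target]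
    rw [htN i, zero_div]
  have key : ∀ A B : MvPolynomial (Fin (n + 1)) K, A * B = D.eqn lam →
      MvPolynomial.eval₂Hom σ (Fin.cons β a : Fin (n + 1) → ℂ) B ≠ 0 → IsUnit B := by
    intro A B hAB h0
    have hne : ∀ i : I,
        MvPolynomial.eval₂Hom σ (Fin.cons β (tgt i) : Fin (n + 1) → ℂ) B ≠ 0 := by
      intro i
      have h1 := ne_of_connected
        (a := fun t => MvPolynomial.eval₂Hom σ (Fin.cons (ψ (w * U i t))
          (fun l => γ i l t) : Fin (n + 1) → ℂ) B)
        (b := fun t => MvPolynomial.eval₂Hom σ (Fin.cons (ψ (w * U i t))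
          (fun l => γ i l t) : Fin (n + 1) → ℂ) A)
        (F_cont σ B (hXc i) (hZc i)) (F_cont σ A (hXc i) (hZc i))
        (fun t => ?_) (fun t ht => ?_) ?_ 1
      · simp only [hU1 i, mul_zero, ← hβ, Path.target] at h1
        exact h1
      · rw [← map_mul, mul_comm B A, hAB, F_eqn, hrel i t, sub_self]
      · exact not_both σ hl0 hAB (hrel i t) (hQ i t) (hψ _ (hlt i t)).2.2.2 ⟨ht.2, ht.1⟩
      · simp only [hU0 i, mul_zero, ← hβ, Path.source]
        exact h0
    refine isUnit_of_degree σ hl0 hAB hcop ha0 haM hc0 fun l => ?_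
    refine degree_zero σ hAB (c := Fin.cons β c) ?_ ?_ (Fin.succ_ne_zero l) (hdeg l) ?_
    · rw [Fin.cons_zero]
      exact hβ1
    · intro j
      refine Fin.cases ?_ (fun j => ?_) j
      · rw [Fin.cons_zero]
        exact hβ2
      · rw [Fin.cons_succ]
        exact hc j
    · intro x hx
      have h1 := hne ⟨l, x, hx⟩
      simp only [htgt] at h1
      rw [← Fin.cons_update]
      exact h1
  have hstart : ((D.N 0).map σ).eval β * ∏ l, ((D.N (Fin.succ l)).map σ).eval (a l) =
      σ lam * (((D.M 0).map σ).eval β * ∏ l, ((D.M (Fin.succ l)).map σ).eval (a l)) := by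
    rw [ha0, hβ1, zero_mul, mul_zero, mul_zero]
  refine ⟨fun h => ?_, fun A B hAB => ?_⟩
  · have h1 := (h.map (MvPolynomial.eval₂Hom σ (Fin.cons β a : Fin (n + 1) → ℂ))).ne_zero
    rw [F_eqn, hstart, sub_self] at h1
    exact h1 rfl
  · by_cases h0 : MvPolynomial.eval₂Hom σ (Fin.cons β a : Fin (n + 1) → ℂ) B = 0
    · refine Or.inl (key B A (by rw [mul_comm, ← hAB]) fun h1 => ?_)
      exact not_both σ hl0 hAB.symm hstart haM hβ3 ⟨h1, h0⟩
    · exact Or.inr (key A B hAB.symm h0)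

theorem exists_domain (σ : K →+* ℂ) (D : Dat K n k) (hn : n ≠ 0)
    (hcop : ∀ l, IsCoprime (D.N l) (D.M l))
    (hM : ∀ l, D.M l ≠ 0) (hN : ∀ l : Fin n, 0 < (D.N l.succ).natDegree)
    (hdeg : ∀ l : Fin n, (D.M l.succ).natDegree ≤ (D.N l.succ).natDegree) {b : ℂ}
    (hb0 : ((D.M 0).map σ).eval b = 0) (hb1 : (derivative ((D.M 0).map σ)).eval b ≠ 0) :
    ∃ C : ℝ, ∀ lam : K, C ≤ ‖σ lam‖ → IsDomain (D.CRing lam) := by
  obtain ⟨C, hC⟩ := exists_irreducible σ D hn hcop hM hN hdeg hb0 hb1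
  refine ⟨C, fun lam hlam => ?_⟩
  have h1 := hC lam hlam
  have h2 : (Ideal.span {D.eqn lam}).IsPrime :=
    (Ideal.span_singleton_prime h1.ne_zero).2 h1.prime
  exact Ideal.Quotient.isDomain _

end Pool.Agent.U759.TQ
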