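import Pool.Agent.U759.TQ.Two
set_option autoImplicit false

/-!
Rational functions of one variable such that all differences between a zero and a pole are roots of
unity.
-/

namespace Pool.Agent.U759.TQ

open Polynomial

open Pool.Agent.U759.TP (lifts_iff isIntegral_coeff_sub isIntegral_coeff_pow' exists_quot)

section int

variable {K : Type*} [Field K]

theorem int_lifts {P : K[X]}
    (hP : P ∈ Polynomial.lifts (integralClosure ℤ K).toSubring.subtype) (i : ℕ) :
    IsIntegral ℤ (P.coeff i) := (lifts_iff P).2 hP i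

theorem int_C {a : K} (ha : IsIntegral ℤ a) (i : ℕ) : IsIntegral ℤ ((C a : K[X]).coeff i) := by
  rw [coeff_C]
  split_ifs
  · exact ha
  · exact isIntegral_zero

theorem int_XC {a : K} (ha : IsIntegral ℤ a) (i : ℕ) : IsIntegral ℤ ((X - C a : K[X]).coeff i) :=
  isIntegral_coeff_sub (int_lifts (Polynomial.X_mem_lifts _)) (int_C ha) i

theorem int_mul' {P Q : K[X]} (hP : ∀ i, IsIntegral ℤ (P.coeff i))
    (hQ : ∀ i, IsIntegral ℤ (Q.coeff i)) (i : ℕ) : IsIntegral ℤ ((P * Q).coeff i) :=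
  int_lifts (mul_mem ((lifts_iff P).1 hP) ((lifts_iff Q).1 hQ)) i

theorem int_prod {ι : Type*} [Fintype ι] {P : ι → K[X]} (hP : ∀ j i, IsIntegral ℤ ((P j).coeff i))
    (i : ℕ) : IsIntegral ℤ ((∏ j, P j).coeff i) :=
  int_lifts (prod_mem fun j _ => (lifts_iff (P j)).1 (hP j)) i

theorem exists_common {ι : Type*} [Fintype ι] (x : ι → K) (h : ∀ i, ∃ m : ℕ, m ≠ 0 ∧ x i ^ m = 1) :
    ∃ m : ℕ, m ≠ 0 ∧ ∀ i, x i ^ m = 1 := by
  choose m hm h1 using h
  refine ⟨∏ i, m i, Finset.prod_ne_zero_iff.2 fun i _ => hm i, fun i => ?_⟩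
  obtain ⟨q, hq⟩ := Finset.dvd_prod_of_mem m (Finset.mem_univ i)
  rw [hq, pow_mul, h1, one_pow]

theorem prod_pow_dvd {ι : Type*} [Fintype ι] (x : ι → K) (a : ι → ℕ) (F : K[X])
    (h : ∀ i, F.eval (x i) = 0) : ∏ i, (X - C (x i)) ^ a i ∣ F ^ ∑ i, a i := by
  rw [← Finset.prod_pow_eq_pow_sum]
  exact Finset.prod_dvd_prod_of_dvd _ _ fun i _ =>
    pow_dvd_pow_of_dvd (dvd_iff_isRoot.2 (h i)) _

end int

section one

variable {K : Type*} [Field K] {r s : ℕ} {α : Fin (r + 1) → K} {a : Fin (r + 1) → ℕ}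
    {β : Fin s → K} {b : Fin s → ℕ}

theorem monic_prod {ι : Type*} [Fintype ι] (x : ι → K) (a : ι → ℕ) :
    (∏ i, (X - C (x i)) ^ a i : K[X]).Monic :=
  monic_prod_of_monic _ _ fun i _ => (monic_X_sub_C (x i)).pow (a i)

theorem natDegree_prod' {ι : Type*} [Fintype ι] (x : ι → K) (a : ι → ℕ) :
    (∏ i, (X - C (x i)) ^ a i : K[X]).natDegree = ∑ i, a i := by
  rw [natDegree_prod_of_monic _ _ fun i _ => (monic_X_sub_C (x i)).pow (a i)]
  refine Finset.sum_congr rfl fun i _ => ?_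
  rw [(monic_X_sub_C (x i)).natDegree_pow, natDegree_X_sub_C, mul_one]

theorem RootPts.fst (H : RootPts α a β b) :
    Tors (∏ i, (X - C (α i)) ^ a i) (∏ j, (X - C (β j)) ^ b j) (fun j => X - C (β j))
      (fun _ => 1) := by
  refine ⟨monic_prod α a, int_prod fun i => isIntegral_coeff_pow' (int_XC (H.intα i)) _,
    int_prod fun j => isIntegral_coeff_pow' (int_XC (H.intβ j)) _, (monic_prod β b).ne_zero,
    fun j => monic_X_sub_C _, fun j => int_XC (H.intβ j), fun _ => monic_one,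
    fun _ => int_lifts (one_mem _), fun j => ⟨1, ?_⟩, fun _ => ⟨0, one_dvd _⟩,
    fun _ => ⟨0, 1, int_lifts (zero_mem _), int_lifts (one_mem _), by ring⟩, fun j => ?_,
    Or.inl ⟨monic_prod β b, ?_⟩⟩
  · rw [pow_one]
    exact (dvd_pow_self _ (H.posb j)).trans (Finset.dvd_prod_of_mem _ (Finset.mem_univ j))
  · obtain ⟨m, hm, h1⟩ := exists_common (fun i => α i - β j) fun i => H.root i j
    refine ⟨m, ∑ i, a i, hm, prod_pow_dvd α a _ fun i => ?_⟩
    rw [one_pow, eval_sub, eval_pow, eval_sub, eval_X, eval_C, eval_one, h1, sub_self]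
  · rw [natDegree_prod', natDegree_prod']
    exact H.lt

theorem RootPts.snd (H : RootPts α a β b) :
    Tors (∏ j, (X - C (β j)) ^ b j) (∏ i, (X - C (α i)) ^ a i) (fun i : Fin r => X - C (α i.succ))
      (fun _ : Fin r => X - C (α 0)) := by
  have hd : ∀ i, (X - C (α i)) ∣ (∏ i, (X - C (α i)) ^ a i : K[X]) ^ 1 := fun i => by
    rw [pow_one]
    exact (dvd_pow_self _ (H.posa i)).trans (Finset.dvd_prod_of_mem _ (Finset.mem_univ i))
  have hint : ∀ i, IsIntegral ℤ ((∏ j, (X - C (β j)) ^ b j : K[X]).coeff i) :=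
    int_prod fun j => isIntegral_coeff_pow' (int_XC (H.intβ j)) _
  obtain ⟨m, hm, h1⟩ := exists_common (fun p : Fin (r + 1) × Fin s => α p.1 - β p.2)
    fun p => H.root p.1 p.2
  refine ⟨monic_prod β b, hint,
    int_prod fun j => isIntegral_coeff_pow' (int_XC (H.intα j)) _, (monic_prod α a).ne_zero,
    fun j => monic_X_sub_C _, fun j => int_XC (H.intα _), fun _ => monic_X_sub_C _,
    fun _ => int_XC (H.intα 0), fun i => ⟨1, hd _⟩, fun _ => ⟨1, hd 0⟩,
    fun _ => ?_, fun i => ?_, Or.inr fun j => ?_⟩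
  · set u : K := (∏ j, (X - C (β j)) ^ b j : K[X]).eval (α 0) with hu
    have hum : u ^ m = 1 := by
      rw [hu, eval_prod, ← Finset.prod_pow]
      refine Finset.prod_eq_one fun j _ => ?_
      rw [eval_pow, eval_sub, eval_X, eval_C, ← pow_mul, mul_comm, pow_mul, h1 (0, j), one_pow]
    have hu0 : u ≠ 0 := by
      intro h0
      rw [h0, zero_pow hm] at hum
      exact zero_ne_one hum
    have hui : IsIntegral ℤ u := IsIntegral.of_pow (Nat.pos_of_ne_zero hm) (by
      rw [hum]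
      exact isIntegral_one)
    have hui' : IsIntegral ℤ u⁻¹ := IsIntegral.of_pow (Nat.pos_of_ne_zero hm) (by
      rw [inv_pow, hum, inv_one]
      exact isIntegral_one)
    obtain ⟨Q, hQ, hPQ⟩ := exists_quot (P := ∏ j, (X - C (β j)) ^ b j - C u)
      (N := X - C (α 0)) (monic_X_sub_C (α 0)) (int_XC (H.intα 0))
      (isIntegral_coeff_sub hint (int_C hui)) (dvd_iff_isRoot.2 (by
        rw [IsRoot.def, eval_sub, eval_C, hu, sub_self]))
    refine ⟨C u⁻¹, -(C u⁻¹ * Q), int_C hui', fun i => ?_, ?_⟩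
    · rw [coeff_neg]
      exact (int_mul' (int_C hui') hQ i).neg
    · have h2 : (C u⁻¹ * C u : K[X]) = 1 := by rw [← C_mul, inv_mul_cancel₀ hu0, C_1]
      have h3 : (∏ j, (X - C (β j)) ^ b j : K[X]) = (X - C (α 0)) * Q + C u := by
        rw [← hPQ]
        ring
      rw [h3]
      linear_combination h2
  · refine ⟨m, ∑ j, b j, hm, prod_pow_dvd β b _ fun j => ?_⟩
    have h2 := h1 (i.succ, j)
    have h3 := h1 (0, j)
    simp only at h2 h3
    rw [eval_sub, eval_pow, eval_pow, eval_sub, eval_sub, eval_X, eval_C, eval_C,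
      ← neg_sub (α i.succ), ← neg_sub (α 0), neg_pow, neg_pow (α 0 - β j), h2, h3, sub_self]
  · rw [natDegree_X_sub_C, natDegree_X_sub_C]

theorem RootPts.ne (H : RootPts α a β b) (i : Fin (r + 1)) (j : Fin s) : α i ≠ β j := by
  intro h
  obtain ⟨m, hm, h1⟩ := H.root i j
  rw [h, sub_self, zero_pow hm] at h1
  exact zero_ne_one h1

theorem isCoprime_XC {x y : K} (h : x ≠ y) : IsCoprime (X - C x) (X - C y) :=
  isCoprime_X_sub_C_of_isUnit_sub (sub_ne_zero.2 h).isUnit

theorem RootPts.cop (H : RootPts α a β b) :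
    IsCoprime (∏ i, (X - C (α i)) ^ a i) (∏ j, (X - C (β j)) ^ b j) :=
  IsCoprime.prod_left fun i _ => IsCoprime.prod_right fun j _ =>
    (isCoprime_XC (H.ne i j)).pow

/-- Simple zeros. -/
theorem cop_deriv {ι : Type*} [Fintype ι] [DecidableEq ι] {x : ι → K}
    (hx : Function.Injective x) (a : ι → ℕ) (ha : ∀ i, a i = 1) (i : ι) :
    IsCoprime (X - C (x i)) (derivative (∏ j, (X - C (x j)) ^ a j)) := by
  have h1 : (∏ j, (X - C (x j)) ^ a j : K[X]) =
      (X - C (x i)) * ∏ j ∈ Finset.univ.erase i, (X - C (x j)) := by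
    rw [← Finset.mul_prod_erase _ _ (Finset.mem_univ i), ha, pow_one]
    congr 1
    exact Finset.prod_congr rfl fun j _ => by rw [ha, pow_one]
  rw [h1, derivative_mul, derivative_sub, derivative_X, derivative_C, sub_zero, one_mul,
    IsCoprime.add_mul_left_right_iff]
  exact IsCoprime.prod_right fun j hj =>
    isCoprime_XC fun h => Finset.ne_of_mem_erase hj (hx h).symm

end one

section all

variable {K : Type*} [Field K] {n : ℕ} {r s : Fin (n + 1) → ℕ}

theorem rootDat_ok {α : ∀ l, Fin (r l + 1) → K} {a : ∀ l, Fin (r l + 1) → ℕ}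
    {β : ∀ l, Fin (s l) → K} {b : ∀ l, Fin (s l) → ℕ}
    (H : ∀ l, RootPts (α l) (a l) (β l) (b l)) (ha : ∀ i, a 0 i = 1) (hb : ∀ j, b 0 j = 1) :
    (rootDat α a β b).Ok := by
  classical
  refine ⟨fun l => (H l).fst, fun l => (H l).snd, ⟨fun l j => ?_, fun l i j hij => ?_,
    fun l i j => ?_, fun j => ?_⟩, ⟨fun l j => ?_, fun l i j hij => ?_, fun l i j => ?_,
    fun j => ?_⟩⟩
  · show 0 < (X - C (β l j)).natDegree
    rw [natDegree_X_sub_C]
    exact one_pos
  · exact isCoprime_XC fun h => hij ((H l).injβ h)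
  · exact isCoprime_one_right
  · exact cop_deriv (H 0).injβ (b 0) hb j
  · show 0 < (X - C (α l j.succ)).natDegree
    rw [natDegree_X_sub_C]
    exact one_pos
  · exact isCoprime_XC fun h => hij (Fin.succ_injective _ ((H l).injα h))
  · exact isCoprime_XC fun h => Fin.succ_ne_zero i ((H l).injα h)
  · exact cop_deriv (H 0).injα (a 0) ha j.succ

end all

end Pool.Agent.U759.TQ
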