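import Pool.Agent.U759.TQ.Crv
set_option autoImplicit false

/-!
Hypersurfaces over the rational numbers in all dimensions: growth of the regulators.
-/

namespace Pool.Agent.U759.TQ.Gro

open Polynomial

open Pool.Agent.TH826.MK (KQ symb Torus Unramified)

open Pool.Agent.U759.TQ.Crv (emb norm_emb)

variable {n : ℕ} {k : Fin (n + 1) → ℕ}

/-- The coordinate ring of the hypersurface `N_0(z_0) ⋯ N_n(z_n) = λ M_0(z_0) ⋯ M_n(z_n)`. -/
def Hyp (D : Dat ℚ n k) (lam : ℤ) : Type := D.CRing lam

noncomputable instance (D : Dat ℚ n k) (lam : ℤ) : CommRing (Hyp D lam) :=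
  Ideal.Quotient.commRing _

/-- The coordinate ring of the open part of the hypersurface on which the polynomials `M_l`,
`A_(l,j)`, `B_(l,j)` do not vanish. -/
def Op (D : Dat ℚ n k) (lam : ℤ) : Type := D.Open lam

noncomputable instance (D : Dat ℚ n k) (lam : ℤ) : CommRing (Op D lam) :=
  (inferInstance : CommRing (D.Open lam))

/-- The symbols `{A_(0,j_0)/B_(0,j_0) (z_0), ..., A_(n,j_n)/B_(n,j_n) (z_n)}`, `s = (j_0, ..., j_n)`. -/
noncomputable def sy (D : Dat ℚ n k) (lam : ℤ) (s : ∀ l, Fin (k l)) : KQ (Op D lam) (n + 1) :=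
  symb (A := D.Open lam) (D.ent lam s)

/-- All symbols have unramified images in `K_(n+1) ⊗ ℚ` of every field with a homomorphism from the
coordinate ring of the open part (for example, of the function field). -/
def UnramifiedSymbols.{v} (D : Dat ℚ n k) (lam : ℤ) : Prop :=
  ∀ (L : Type v) [Field L] (h : Op D lam →+* L) (s : ∀ l, Fin (k l)),
    KQ.map (n + 1) h (sy D lam s) ∈ Unramified L (n + 1)

/-- There are `k_0 ⋯ k_n` tori `Γ_t` of dimension `n` in the complex points of the open part such that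
the regulators of the symbols `s` on them are `- δ_(s,t) c_t log |λ| + O(B)`, and such that their
determinant, divided by `(- log |λ|) ^ (k_0 ⋯ k_n)`, is the product of the `c_t` up to `ε`; it is not
zero. -/
def Regulators (D : Dat ℚ n k) (c : (∀ l, Fin (k l)) → ℝ) (B ε : ℝ) (lam : ℤ) : Prop :=
  ∃ Γ : (∀ l, Fin (k l)) → Torus (Op D lam) n,
    (∀ t s, |(Γ t).reg (sy D lam s) + (if s = t then c t * Real.log |(lam : ℝ)| else 0)| ≤ B) ∧
    (Matrix.of fun t s => (Γ t).reg (sy D lam s)).det ≠ 0 ∧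
    |(Matrix.of fun t s => (Γ t).reg (sy D lam s)).det / (-Real.log |(lam : ℝ)|) ^ (∏ l, k l) -
      ∏ t, c t| ≤ ε

/-- If `N_l, M_l` are coprime for all `l` and `deg M_l ≤ deg N_l` for `l ≥ 1`, the coordinate ring of
the hypersurface is a domain and its equation is irreducible over the complex numbers. -/
def IrreducibleHypersurface (D : Dat ℚ n k) (lam : ℤ) : Prop :=
  (∀ l, IsCoprime (D.N l) (D.M l)) →
    (∀ l : Fin n, (D.M l.succ).natDegree ≤ (D.N l.succ).natDegree) →
    IsDomain (Hyp D lam) ∧ Irreducible (MvPolynomial.map emb (D.eqn lam))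

/-- The conclusions: there are constants `B` and `c_t ≥ 1`, and for every `ε > 0` there is `C`, such
that for all integers `λ` with `|λ| ≥ C` the open part is not empty, the hypersurface is irreducible,
it is smooth at the points where the `M_l` do not vanish, the symbols are unramified, and their
regulators are independent with the given growth. -/
def Concl.{v} (D : Dat ℚ n k) : Prop :=
  ∃ (B : ℝ) (c : (∀ l, Fin (k l)) → ℝ), (∀ t, 1 ≤ c t) ∧ ∀ ε : ℝ, 0 < ε → ∃ C : ℝ, ∀ lam : ℤ,
    C ≤ |(lam : ℝ)| →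
    Nontrivial (Op D lam) ∧ IrreducibleHypersurface D lam ∧ Smooth emb D lam ∧
      UnramifiedSymbols.{v} D lam ∧ Regulators D c B ε lam

/-- The conditions on the functions. -/
def Good (D : Dat ℚ n k) : Prop :=
  (∀ l, k l ≠ 0) ∧ (∀ l, Tors (D.N l) (D.M l) (D.A l) (D.B l)) ∧ Poles D

theorem natDegree_pos {D : Dat ℚ n k} (H : Good D) (l : Fin (n + 1)) :
    0 < (D.M l).natDegree := by
  have j : Fin (k l) := ⟨0, Nat.pos_of_ne_zero (H.1 l)⟩
  obtain ⟨s, hs⟩ := (H.2.1 l).dvdA j
  have h1 := H.2.2.pos l j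
  have h2 := natDegree_le_of_dvd hs (pow_ne_zero s (H.2.1 l).M_ne)
  rw [natDegree_pow] at h2
  by_contra h3
  have h4 : (D.M l).natDegree = 0 := by omega
  rw [h4, mul_zero] at h2
  omega

/-- The determinant is continuous at a diagonal matrix. -/
theorem det_near {ι : Type*} [Fintype ι] [DecidableEq ι] (c : ι → ℝ) {ε : ℝ} (hε : 0 < ε) :
    ∃ δ : ℝ, 0 < δ ∧ ∀ A : ι → ι → ℝ, (∀ t s, |A t s - (if s = t then c t else 0)| < δ) →
      |(Matrix.of A).det - ∏ t, c t| < ε := by
  have hc : Continuous fun A : ι → ι → ℝ => (Matrix.of A).det := by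
    simp only [Matrix.det_apply]
    refine continuous_finsetSum _ fun σ _ => ?_
    refine Continuous.const_smul ?_ _
    refine continuous_finsetProd _ fun i _ => ?_
    exact (continuous_apply i).comp (continuous_apply (σ i))
  obtain ⟨δ, hδ, h⟩ := Metric.continuousAt_iff.1
    (hc.continuousAt (x := fun t s => if s = t then c t else 0)) ε hε
  refine ⟨δ, hδ, fun A hA => ?_⟩
  have h1 := @h A ((dist_pi_lt_iff hδ).2 fun t => (dist_pi_lt_iff hδ).2 fun s => by
    rw [Real.dist_eq]
    exact hA t s)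
  rw [Real.dist_eq] at h1
  have h2 : (Matrix.of fun t s : ι => if s = t then c t else 0) = Matrix.diagonal c := by
    ext t s
    rw [Matrix.of_apply, Matrix.diagonal_apply]
    by_cases hst : s = t
    · rw [if_pos hst, if_pos hst.symm]
    · rw [if_neg hst, if_neg (Ne.symm hst)]
  rw [h2, Matrix.det_diagonal] at h1
  exact h1

theorem concl.{v} {D : Dat ℚ n k} (hn : n ≠ 0) (H : Good D) : Concl.{v} D := by
  classical
  obtain ⟨C1, B, c, hc, h1⟩ := exists_growth emb H.2.1 H.2.2
  obtain ⟨C2, h2⟩ := exists_smooth emb H.2.1 H.2.2 H.1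
  have h3 : ∃ C : ℝ, ∀ lam : ℤ, C ≤ |(lam : ℝ)| → IrreducibleHypersurface D lam := by
    by_cases hh : (∀ l, IsCoprime (D.N l) (D.M l)) ∧
        ∀ l : Fin n, (D.M l.succ).natDegree ≤ (D.N l.succ).natDegree
    · have j : Fin (k 0) := ⟨0, Nat.pos_of_ne_zero (H.1 0)⟩
      obtain ⟨b, hb⟩ : ∃ b, ((D.A 0 j).map emb).eval b = 0 := by
        refine IsAlgClosed.exists_root _ ?_
        rw [degree_map, degree_eq_natDegree ((H.2.1 0).monicA j).ne_zero]
        exact_mod_cast (H.2.2.pos 0 j).ne'
      have hb0 : ((D.M 0).map emb).eval b = 0 := by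
        by_contra h
        exact dvd_ne emb ((H.2.1 0).dvdA j) h hb
      have hb1 : (derivative ((D.M 0).map emb)).eval b ≠ 0 := by
        rw [derivative_map]
        exact coprime_ne emb (H.2.2.simple j) hb
      have hN : ∀ l : Fin n, 0 < (D.N l.succ).natDegree := fun l =>
        (natDegree_pos H l.succ).trans_le (hh.2 l)
      obtain ⟨C3, h3⟩ := exists_domain emb D hn hh.1 (fun l => (H.2.1 l).M_ne) hN hh.2
        hb0 hb1
      obtain ⟨C4, h4⟩ := exists_geom emb D hn hh.1 (fun l => (H.2.1 l).M_ne) hN hh.2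
        hb0 hb1
      refine ⟨max C3 C4, fun lam hlam _ _ => ⟨h3 lam ?_, h4 lam ?_⟩⟩
      · rw [norm_emb]
        exact (le_max_left _ _).trans hlam
      · rw [norm_emb]
        exact (le_max_right _ _).trans hlam
    · exact ⟨0, fun lam _ a b => absurd ⟨a, b⟩ hh⟩
  obtain ⟨C3, h3⟩ := h3
  refine ⟨B, c, hc, fun ε hε => ?_⟩
  obtain ⟨δ, hδ, hdet⟩ := det_near c hε
  refine ⟨max (max C1 (Real.exp (B / δ + 1))) (max C2 C3), fun lam hlam => ?_⟩
  have e1 : C1 ≤ ‖emb (lam : ℚ)‖ := by
    rw [norm_emb]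
    exact ((le_max_left _ _).trans (le_max_left _ _)).trans hlam
  have e2 : C2 ≤ ‖emb (lam : ℚ)‖ := by
    rw [norm_emb]
    exact ((le_max_left _ _).trans (le_max_right _ _)).trans hlam
  have e3 : C3 ≤ |(lam : ℝ)| := ((le_max_right _ _).trans (le_max_right _ _)).trans hlam
  have e4 : B / δ + 1 ≤ Real.log |(lam : ℝ)| := by
    have h5 : Real.exp (B / δ + 1) ≤ |(lam : ℝ)| :=
      ((le_max_right _ _).trans (le_max_left _ _)).trans hlam
    exact (Real.le_log_iff_exp_le (lt_of_lt_of_le (Real.exp_pos _) h5)).2 h5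
  obtain ⟨Γ, g1, g2, g3⟩ := h1 lam e1
  have hint : IsIntegral ℤ (lam : ℚ) := by
    have := isIntegral_algebraMap (R := ℤ) (A := ℚ) (x := lam)
    simpa using this
  have g2' : ∀ t s, |(Γ t).reg (symb (D.ent lam s)) +
      (if s = t then c t * Real.log |(lam : ℝ)| else 0)| ≤ B := by
    intro t s
    have h5 := g2 t s
    rw [norm_emb] at h5
    exact h5
  have hB : 0 ≤ B := (abs_nonneg _).trans (g2' (fun l => ⟨0, Nat.pos_of_ne_zero (H.1 l)⟩)
    fun l => ⟨0, Nat.pos_of_ne_zero (H.1 l)⟩)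
  have hL : 0 < Real.log |(lam : ℝ)| := by
    have : 0 ≤ B / δ := div_nonneg hB hδ.le
    linarith
  refine ⟨?_, h3 lam e3, h2 lam e2, fun L _ h j => symb_unramified h H.2.1 hint j, Γ, g2', g3, ?_⟩
  · exact RingHom.domain_nontrivial ((Γ fun l => ⟨0, Nat.pos_of_ne_zero (H.1 l)⟩).e 0)
  · set L := Real.log |(lam : ℝ)| with hLdef
    have h6 := hdet (fun t s => (Γ t).reg (symb (D.ent lam s)) / (-L)) (fun t s => by
      have h7 : (Γ t).reg (symb (D.ent lam s)) / (-L) - (if s = t then c t else 0) =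
          -(((Γ t).reg (symb (D.ent lam s)) + (if s = t then c t * L else 0)) / L) := by
        by_cases hst : s = t
        · rw [if_pos hst, if_pos hst]
          field_simp
          ring
        · rw [if_neg hst, if_neg hst]
          field_simp
          ring
      rw [h7, abs_neg, abs_div, abs_of_pos hL, div_lt_iff₀ hL]
      refine (g2' t s).trans_lt ?_
      have h8 : B / δ < L := by linarith
      rw [div_lt_iff₀ hδ] at h8
      linarith)
    have h9 : (Matrix.of fun t s => (Γ t).reg (symb (D.ent lam s)) / (-L)) =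
        (-L)⁻¹ • (Matrix.of fun t s => (Γ t).reg (symb (D.ent lam s))) := by
      ext t s
      rw [Matrix.smul_apply, Matrix.of_apply, Matrix.of_apply, smul_eq_mul, div_eq_inv_mul]
    rw [h9, Matrix.det_smul, Fintype.card_pi] at h6
    simp only [Fintype.card_fin] at h6
    rw [inv_pow, ← div_eq_inv_mul] at h6
    exact h6.le

end Pool.Agent.U759.TQ.Gro
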