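import Pool.Agent.U759.TQ.Joint
import Pool.Agent.U759.TQ.Dom
set_option autoImplicit false

/-!
The matrix of the regulators is `- diag(c) log |λ| + O(1)`; the equation is irreducible over the complex
numbers.
-/

namespace Pool.Agent.U759.TQ

open Polynomial

open Pool.Agent.TH826.MK (KQ symb unitPart Unramified Torus pairing vf)

variable {K : Type*} [Field K] {n : ℕ} {k : Fin (n + 1) → ℕ}

/-- The regulators of the symbols on tori. -/
theorem exists_growth (σ : K →+* ℂ) {D : Dat K n k}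
    (H : ∀ l, Tors (D.N l) (D.M l) (D.A l) (D.B l)) (P : Poles D) :
    ∃ (C B : ℝ) (c : (∀ l, Fin (k l)) → ℝ), (∀ t, 1 ≤ c t) ∧ ∀ lam : K, C ≤ ‖σ lam‖ →
      ∃ Γ : (∀ l, Fin (k l)) → Torus (D.Open lam) n,
        (∀ t θ a, (Γ t).e θ (D.cst lam a) = σ a) ∧
        (∀ t s, |(Γ t).reg (symb (D.ent lam s)) +
          (if s = t then c t * Real.log ‖σ lam‖ else 0)| ≤ B) ∧
        (Matrix.of fun t s : (∀ l, Fin (k l)) => (Γ t).reg (symb (D.ent lam s))).det ≠ 0 := by
  classical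
  obtain ⟨β, hβ⟩ := loc_of σ D H P D.A D.B (fun l a => a) (fun l a => rfl) (fun l a => rfl)
    (fun l m hm => absurd rfl (hm m))
  obtain ⟨C1, B1, c1, hB1, hc1, h1⟩ := exists_points hβ
  set R : ℝ := 1 + (Fintype.card (∀ l, Fin (k l)) + 1) * B1 with hR
  refine ⟨max (max 1 (Real.exp R)) C1, B1, c1, hc1, fun lam hσ => ?_⟩
  have hC1 : 1 ≤ ‖σ lam‖ := ((le_max_left _ _).trans (le_max_left _ _)).trans hσ
  have hlog : R ≤ Real.log ‖σ lam‖ := by
    have h3 : Real.exp R ≤ ‖σ lam‖ := ((le_max_right _ _).trans (le_max_left _ _)).trans hσ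
    exact (Real.le_log_iff_exp_le (lt_of_lt_of_le (Real.exp_pos R) h3)).2 h3
  obtain ⟨X1, Z1, h1⟩ := h1 (σ lam) ((le_max_right _ _).trans hσ)
  have p1 : ∀ t (θ : Fin n → ℝ), PtS σ D lam (Fin.cons (X1 t θ) fun l => Z1 t l (θ l)) :=
    fun t θ => by
      have h3 := (h1 t).2.2.1 θ
      exact pt_of h3.eq h3.neM h3.neA h3.neB
  have hbd : ∀ t s : (∀ l, Fin (k l)), |(mkS (h1 t).1 (h1 t).2.1 (p1 t)).reg (symb (D.ent lam s)) +
      (if s = t then c1 t * Real.log ‖σ lam‖ else 0)| ≤ B1 := by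
    intro t s
    have h3 := (h1 t).2.2.2 s
    have h4 : (mkS (h1 t).1 (h1 t).2.1 (p1 t)).reg (symb (D.ent lam s)) =
        pairing (Fin.cons (fun θ => ((D.A 0 (s 0)).map σ).eval (X1 t θ) /
          ((D.B 0 (s 0)).map σ).eval (X1 t θ))
        (vf fun l r => ((D.A l.succ (s l.succ)).map σ).eval (Z1 t l r) /
          ((D.B l.succ (s l.succ)).map σ).eval (Z1 t l r))) := by
      rw [mkS_reg]
      simp only [eval_map]
    rw [h4]
    exact h3
  refine ⟨fun t => mkS (h1 t).1 (h1 t).2.1 (p1 t), fun t θ a => ?_, hbd, ?_⟩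
  · show (mkS (h1 t).1 (h1 t).2.1 (p1 t)).e θ _ = _
    rw [mkS_e, PtS.evA_cst]
  · set A : Matrix (∀ l, Fin (k l)) (∀ l, Fin (k l)) ℝ := Matrix.of fun t s =>
      (mkS (h1 t).1 (h1 t).2.1 (p1 t)).reg (symb (D.ent lam s)) with hA
    show A.det ≠ 0
    refine det_ne_zero_of_sum_row_lt_diag fun t => ?_
    have hoffd : ∀ s ∈ Finset.univ.erase t, ‖A t s‖ ≤ B1 := by
      intro s hs
      have h3 := hbd t s
      rw [if_neg (Finset.ne_of_mem_erase hs), add_zero] at h3
      rw [Real.norm_eq_abs]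
      exact h3
    have hsum : ∑ s ∈ Finset.univ.erase t, ‖A t s‖ ≤ Fintype.card (∀ l, Fin (k l)) * B1 := by
      refine (Finset.sum_le_card_nsmul _ _ _ hoffd).trans ?_
      rw [nsmul_eq_mul]
      refine mul_le_mul_of_nonneg_right ?_ hB1
      exact_mod_cast Finset.card_le_univ _
    refine hsum.trans_lt ?_
    have h3 := hbd t t
    rw [if_pos rfl] at h3
    have h4 := (abs_le.1 h3).2
    have h5 := neg_le_abs (A t t)
    rw [Real.norm_eq_abs]
    have h6 : R = 1 + Fintype.card (∀ l, Fin (k l)) * B1 + B1 := by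
      rw [hR]
      ring
    have h7 : R ≤ c1 t * Real.log ‖σ lam‖ := by
      have h8 := hc1 t
      have h9 : 0 ≤ Real.log ‖σ lam‖ := Real.log_nonneg hC1
      nlinarith
    have h8 : A t t + c1 t * Real.log ‖σ lam‖ ≤ B1 := h4
    linarith

/-- The data over a larger field. -/
noncomputable def Dat.map {L : Type*} [Field L] (σ : K →+* L) (D : Dat K n k) : Dat L n k :=
  ⟨fun l => (D.N l).map σ, fun l => (D.M l).map σ, fun l j => (D.A l j).map σ,
    fun l j => (D.B l j).map σ⟩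

theorem map_mp {L : Type*} [Field L] (σ : K →+* L) (l : Fin (n + 1)) (p : K[X]) :
    MvPolynomial.map σ (mp l p) = mp l (p.map σ) := by
  unfold mp
  rw [Polynomial.coe_eval₂RingHom, Polynomial.hom_eval₂, Polynomial.coe_eval₂RingHom,
    Polynomial.eval₂_map, MvPolynomial.map_X]
  congr 1
  ext a
  simp

theorem map_eqn {L : Type*} [Field L] (σ : K →+* L) (D : Dat K n k) (lam : K) :
    MvPolynomial.map σ (D.eqn lam) = (D.map σ).eqn (σ lam) := by
  unfold Dat.eqn Dat.map
  rw [map_sub, map_mul, map_prod, map_prod, MvPolynomial.map_C]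
  simp only [map_mp]

/-- The equation is irreducible over the complex numbers. -/
theorem exists_geom (σ : K →+* ℂ) (D : Dat K n k) (hn : n ≠ 0)
    (hcop : ∀ l, IsCoprime (D.N l) (D.M l))
    (hM : ∀ l, D.M l ≠ 0) (hN : ∀ l : Fin n, 0 < (D.N l.succ).natDegree)
    (hdeg : ∀ l : Fin n, (D.M l.succ).natDegree ≤ (D.N l.succ).natDegree) {b : ℂ}
    (hb0 : ((D.M 0).map σ).eval b = 0) (hb1 : (derivative ((D.M 0).map σ)).eval b ≠ 0) :
    ∃ C : ℝ, ∀ lam : K, C ≤ ‖σ lam‖ → Irreducible (MvPolynomial.map σ (D.eqn lam)) := by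
  obtain ⟨C, hC⟩ := exists_irreducible (RingHom.id ℂ) (D.map σ) hn
    (fun l => (hcop l).map (Polynomial.mapRingHom σ))
    (fun l => (Polynomial.map_ne_zero_iff σ.injective).2 (hM l))
    (fun l => by
      show 0 < ((D.N l.succ).map σ).natDegree
      rw [natDegree_map]
      exact hN l)
    (fun l => by
      show ((D.M l.succ).map σ).natDegree ≤ ((D.N l.succ).map σ).natDegree
      rw [natDegree_map, natDegree_map]
      exact hdeg l)
    (b := b) (by
      rw [Polynomial.map_id]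
      exact hb0) (by
      rw [Polynomial.map_id]
      exact hb1)
  refine ⟨C, fun lam hlam => ?_⟩
  rw [map_eqn]
  exact hC (σ lam) hlam

end Pool.Agent.U759.TQ
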