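import Pool.Agent.U759.TQ.Points
import Pool.Agent.U759.TQ.Def2
set_option autoImplicit false

/-!
The hypersurfaces `∏_l φ_l(z_l) = λ` for units `λ`: the functions with zeros and poles at the poles of
the `φ_l` together with the functions with zeros and poles at the zeros of the `φ_l`.
-/

namespace Pool.Agent.U759.TQ

open scoped WithZero

open Polynomial

open Pool.Agent.TH826.MK (KQ symb unitPart Unramified Torus pairing vf)

open Pool.Agent.U759.TP (val_int)

variable {K : Type*} [Field K] {n : ℕ} {k k' : Fin (n + 1) → ℕ}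

theorem idx_injective : Function.Injective (idx (k := k) (k' := k')) := by
  intro s t h
  have hne : ∀ (a : ∀ l, Fin (k l)) (b : ∀ l, Fin (k' l)), idx (k' := k') (Sum.inl a) ≠
      idx (Sum.inr b) := by
    intro a b hab
    have h1 := congrArg Fin.val (congrFun hab 0)
    simp only [idx, Fin.val_castAdd, Fin.val_natAdd] at h1
    have := (a 0).isLt
    omega
  rcases s with a | a <;> rcases t with b | b
  · congr 1
    funext l
    exact Fin.castAdd_injective _ _ (congrFun h l)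
  · exact absurd h (hne a b)
  · exact absurd h.symm (hne b a)
  · congr 1
    funext l
    have h1 := congrArg Fin.val (congrFun h l)
    simp only [idx, Fin.val_natAdd] at h1
    exact Fin.ext (by omega)

section unram

theorem val_core {L : Type*} [Field L] (c : K →+* L) (v : Valuation L ℤᵐ⁰) (D : Dat K n k)
    (H : ∀ l, Tors (D.N l) (D.M l) (D.A l) (D.B l)) {μ : L} (hμ : v μ ≤ 1)
    (y : Fin (n + 1) → L)
    (hrel : ∏ l, (D.N l).eval₂ c (y l) = μ * ∏ l, (D.M l).eval₂ c (y l))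
    (hM : ∀ l, (D.M l).eval₂ c (y l) ≠ 0) (j : ∀ l, Fin (k l))
    (hB : ∀ l, (D.B l (j l)).eval₂ c (y l) ≠ 0) (a : Fin (n + 1) → Lˣ)
    (ha : ∀ l, (a l : L) = (D.A l (j l)).eval₂ c (y l) / (D.B l (j l)).eval₂ c (y l)) :
    symb a ∈ unitPart v (n + 1) := by
  by_cases hu : ∀ l, v (a l : L) = 1
  · exact Submodule.subset_span ⟨a, hu, rfl⟩
  · push Not at hu
    obtain ⟨l0, hl0⟩ := hu
    have h0 : v ((D.M l0).eval₂ c (y l0)) < v ((D.N l0).eval₂ c (y l0)) := by
      refine (H l0).pole c v (j l0) (hB l0) ?_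
      rw [← ha]
      exact hl0
    obtain ⟨l1, hl1⟩ : ∃ l1, v ((D.N l1).eval₂ c (y l1)) < v ((D.M l1).eval₂ c (y l1)) := by
      by_contra hcon
      push Not at hcon
      have h1 := congrArg v hrel
      rw [map_mul, map_prod, map_prod] at h1
      have h2 : v μ * ∏ l, v ((D.M l).eval₂ c (y l)) ≤ ∏ l, v ((D.M l).eval₂ c (y l)) := by
        calc _ ≤ 1 * ∏ l, v ((D.M l).eval₂ c (y l)) := mul_le_mul' hμ le_rfl
          _ = _ := one_mul _
      rw [← h1] at h2
      have h3 : ∏ l, v ((D.M l).eval₂ c (y l)) < ∏ l, v ((D.N l).eval₂ c (y l)) := by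
        refine Finset.prod_lt_prod (fun l _ => ?_) (fun l _ => hcon l) ⟨l0, Finset.mem_univ _, h0⟩
        exact (zero_lt_iff.2 ((Valuation.ne_zero_iff v).2 (hM l)))
      exact absurd h2 (not_le.2 h3)
    obtain ⟨m, hm, h1⟩ := (H l1).zero c v (j l1) (hB l1) hl1
    refine Pool.Agent.TH826.MK.mem_unitPart_of_pow v l1 a hm ?_
    rw [← ha] at h1
    exact h1

theorem unramified2 {E : Dat2 K n k k'} (H : E.Ok) {lam : K} (hlam : IsIntegral ℤ lam)
    (hlam' : IsIntegral ℤ lam⁻¹) (hl0 : lam ≠ 0) {L : Type*} [Field L]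
    (g : E.dat.Open lam →+* L) (s : (∀ l, Fin (k l)) ⊕ (∀ l, Fin (k' l))) :
    KQ.map (n + 1) g (symb (E.dat.ent lam (idx s))) ∈ Unramified L (n + 1) := by
  rw [KQ.map_symb]
  unfold Unramified
  simp only [Submodule.mem_iInf]
  intro v _
  have hrel : ∏ l, (E.N l).eval₂ (cO g) (yO g l) =
      cO g lam * ∏ l, (E.M l).eval₂ (cO g) (yO g l) := rel_map g
  have hM : ∀ l, (E.M l).eval₂ (cO g) (yO g l) ≠ 0 := fun l => M_ne_zero g l
  have hc0 : cO g lam ≠ 0 := (map_ne_zero (cO g)).2 hl0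
  have hN : ∀ l, (E.N l).eval₂ (cO g) (yO g l) ≠ 0 := by
    intro l
    have h1 : ∏ l, (E.N l).eval₂ (cO g) (yO g l) ≠ 0 := by
      rw [hrel]
      exact mul_ne_zero hc0 (Finset.prod_ne_zero_iff.2 fun l _ => hM l)
    exact Finset.prod_ne_zero_iff.1 h1 l (Finset.mem_univ l)
  rcases s with j | j
  · refine val_core (cO g) v E.fst H.fst (val_int (cO g) v hlam) (yO g) hrel hM j
      (fun l => ?_) _ (fun l => ?_)
    · have h1 := B_ne_zero g l (idx (k' := k') (Sum.inl j) l)
      have h2 : E.dat.B l (idx (k' := k') (Sum.inl j) l) = E.B l (j l) := Fin.append_left _ _ _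
      rw [h2] at h1
      exact h1
    · rw [map_ent]
      have h2 : E.dat.B l (idx (k' := k') (Sum.inl j) l) = E.B l (j l) := Fin.append_left _ _ _
      have h3 : E.dat.A l (idx (k' := k') (Sum.inl j) l) = E.A l (j l) := Fin.append_left _ _ _
      rw [h2, h3]
      rfl
  · have hrel' : ∏ l, (E.snd.N l).eval₂ (cO g) (yO g l) =
        cO g lam⁻¹ * ∏ l, (E.snd.M l).eval₂ (cO g) (yO g l) := by
      show ∏ l, (E.M l).eval₂ (cO g) (yO g l) =
        cO g lam⁻¹ * ∏ l, (E.N l).eval₂ (cO g) (yO g l)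
      rw [hrel, map_inv₀, inv_mul_cancel_left₀ hc0]
    refine val_core (cO g) v E.snd H.snd (val_int (cO g) v hlam') (yO g) hrel' hN j
      (fun l => ?_) _ (fun l => ?_)
    · have h1 := B_ne_zero g l (idx (k := k) (Sum.inr j) l)
      have h2 : E.dat.B l (idx (k := k) (Sum.inr j) l) = E.B' l (j l) := Fin.append_right _ _ _
      rw [h2] at h1
      exact h1
    · rw [map_ent]
      have h2 : E.dat.B l (idx (k := k) (Sum.inr j) l) = E.B' l (j l) := Fin.append_right _ _ _
      have h3 : E.dat.A l (idx (k := k) (Sum.inr j) l) = E.A' l (j l) := Fin.append_right _ _ _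
      rw [h2, h3]
      rfl

end unram

section loc

theorem dvd_ne (σ : K →+* ℂ) {p q : K[X]} {b : ℂ} (h : ∃ s, p ∣ q ^ s)
    (hq : (q.map σ).eval b ≠ 0) : (p.map σ).eval b ≠ 0 := by
  intro hp
  obtain ⟨s, r, hr⟩ := h
  have h1 := congrArg (fun p => (p.map σ).eval b) hr
  simp only [Polynomial.map_pow, Polynomial.map_mul, eval_pow, eval_mul, hp, zero_mul] at h1
  exact hq (eq_zero_of_pow_eq_zero h1)

theorem loc_of {κ : Fin (n + 1) → ℕ} (σ : K →+* ℂ) (D : Dat K n k)
    (H : ∀ l, Tors (D.N l) (D.M l) (D.A l) (D.B l)) (P : Poles D)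
    (AA BB : ∀ l, Fin (κ l) → K[X]) (ι : ∀ l, Fin (k l) → Fin (κ l))
    (hA : ∀ l a, AA l (ι l a) = D.A l a) (hB : ∀ l a, BB l (ι l a) = D.B l a)
    (ho : ∀ l m, (∀ a, m ≠ ι l a) → (AA l m).Monic ∧ (BB l m).Monic ∧
      (∃ s, AA l m ∣ D.N l ^ s) ∧ ∃ s, BB l m ∣ D.N l ^ s) :
    ∃ β, Loc (fun l => (D.N l).map σ) (fun l => (D.M l).map σ) (fun l m => (AA l m).map σ)
      (fun l m => (BB l m).map σ) ι β := by
  have hroot : ∀ l (j : Fin (k l)), ∃ β, ((D.A l j).map σ).eval β = 0 := by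
    intro l j
    refine IsAlgClosed.exists_root _ ?_
    rw [degree_map, degree_eq_natDegree ((H l).monicA j).ne_zero]
    exact_mod_cast (P.pos l j).ne'
  choose β hβ using hroot
  have hN : ∀ l a, ((D.N l).map σ).eval (β l a) ≠ 0 := fun l a => (H l).N_ne σ (hβ l a)
  refine ⟨β, ⟨fun l => ((H l).monicN.map σ).ne_zero,
    fun l => (Polynomial.map_ne_zero_iff σ.injective).2 (H l).M_ne, fun l m => ?_, fun l m => ?_,
    fun l a => ?_, fun l a m hm => ?_, fun l a m => ?_, fun a => ?_, fun a => ?_,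
    fun a => hN 0 a⟩⟩
  · by_cases h : ∃ a, m = ι l a
    · obtain ⟨a, rfl⟩ := h
      rw [hA]
      exact ((H l).monicA a).map σ
    · push Not at h
      exact (ho l m h).1.map σ
  · by_cases h : ∃ a, m = ι l a
    · obtain ⟨a, rfl⟩ := h
      rw [hB]
      exact ((H l).monicB a).map σ
    · push Not at h
      exact (ho l m h).2.1.map σ
  · rw [hA]
    exact hβ l a
  · by_cases h : ∃ a, m = ι l a
    · obtain ⟨a', rfl⟩ := h
      have hne : a' ≠ a := fun e => hm (by rw [e])
      rw [hA]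
      exact fun h1 => coprime_ne σ (P.copA l a' a hne) h1 (hβ l a)
    · push Not at h
      exact dvd_ne σ (ho l m h).2.2.1 (hN l a)
  · by_cases h : ∃ a, m = ι l a
    · obtain ⟨a', rfl⟩ := h
      rw [hB]
      exact coprime_ne σ (P.copB l a a') (hβ l a)
    · push Not at h
      exact dvd_ne σ (ho l m h).2.2.2 (hN l a)
  · by_contra h
    exact dvd_ne σ ((H 0).dvdA a) h (hβ 0 a)
  · rw [derivative_map]
    exact coprime_ne σ (P.simple a) (hβ 0 a)

theorem pt_of {κ : Fin (n + 1) → ℕ} {D : Dat K n κ} {σ : K →+* ℂ} {lam : K}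
    {y : Fin (n + 1) → ℂ}
    (h : ∏ l, ((D.N l).map σ).eval (y l) = σ lam * ∏ l, ((D.M l).map σ).eval (y l))
    (hM : ∀ l, ((D.M l).map σ).eval (y l) ≠ 0) (hA : ∀ l m, ((D.A l m).map σ).eval (y l) ≠ 0)
    (hB : ∀ l m, ((D.B l m).map σ).eval (y l) ≠ 0) : PtS σ D lam y := by
  refine ⟨?_, fun l => ?_⟩
  · simp only [← eval_map]
    exact h
  · rw [← eval_map]
    unfold Dat.R
    rw [Polynomial.map_mul, eval_mul, Polynomial.map_prod, eval_prod]
    refine mul_ne_zero (hM l) (Finset.prod_ne_zero_iff.2 fun m _ => ?_)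
    rw [Polynomial.map_mul, eval_mul]
    exact mul_ne_zero (hA l m) (hB l m)

end loc

/-- The regulators of all symbols on tori over two embeddings. -/
theorem exists_tori2 (σ τ : K →+* ℂ) {E : Dat2 K n k k'} (H : E.Ok) :
    ∃ C : ℝ, ∀ lam : K, C ≤ ‖σ lam‖ → ‖τ lam‖ * C ≤ 1 →
      ∃ Γ : ((∀ l, Fin (k l)) ⊕ (∀ l, Fin (k' l))) → Torus (E.dat.Open lam) n,
        (∀ t θ a, (Γ (Sum.inl t)).e θ (E.dat.cst lam a) = σ a) ∧
        (∀ t θ a, (Γ (Sum.inr t)).e θ (E.dat.cst lam a) = τ a) ∧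
        (Matrix.of fun t s : ((∀ l, Fin (k l)) ⊕ (∀ l, Fin (k' l))) =>
          (Γ t).reg (symb (E.dat.ent lam (idx s)))).det ≠ 0 := by
  classical
  obtain ⟨β, hβ⟩ := loc_of σ E.fst H.fst H.pfst E.dat.A E.dat.B
    (fun l => Fin.castAdd (k' l)) (fun l a => Fin.append_left _ _ _)
    (fun l a => Fin.append_left _ _ _) (fun l m hm => by
      refine Fin.addCases (motive := fun m => (∀ a, m ≠ Fin.castAdd (k' l) a) →
        (E.dat.A l m).Monic ∧ (E.dat.B l m).Monic ∧ (∃ s, E.dat.A l m ∣ E.fst.N l ^ s) ∧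
          ∃ s, E.dat.B l m ∣ E.fst.N l ^ s) (fun a h => absurd rfl (h a)) (fun a _ => ?_) m hm
      have e1 : E.dat.A l (Fin.natAdd (k l) a) = E.A' l a := Fin.append_right _ _ _
      have e2 : E.dat.B l (Fin.natAdd (k l) a) = E.B' l a := Fin.append_right _ _ _
      rw [e1, e2]
      exact ⟨(H.snd l).monicA a, (H.snd l).monicB a, (H.snd l).dvdA a, (H.snd l).dvdB a⟩)
  obtain ⟨β', hβ'⟩ := loc_of τ E.snd H.snd H.psnd E.dat.A E.dat.B
    (fun l => Fin.natAdd (k l)) (fun l a => Fin.append_right _ _ _)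
    (fun l a => Fin.append_right _ _ _) (fun l m hm => by
      refine Fin.addCases (motive := fun m => (∀ a, m ≠ Fin.natAdd (k l) a) →
        (E.dat.A l m).Monic ∧ (E.dat.B l m).Monic ∧ (∃ s, E.dat.A l m ∣ E.snd.N l ^ s) ∧
          ∃ s, E.dat.B l m ∣ E.snd.N l ^ s) (fun a _ => ?_) (fun a h => absurd rfl (h a)) m hm
      have e1 : E.dat.A l (Fin.castAdd (k' l) a) = E.A l a := Fin.append_left _ _ _
      have e2 : E.dat.B l (Fin.castAdd (k' l) a) = E.B l a := Fin.append_left _ _ _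
      rw [e1, e2]
      exact ⟨(H.fst l).monicA a, (H.fst l).monicB a, (H.fst l).dvdA a, (H.fst l).dvdB a⟩)
  obtain ⟨C1, B1, c1, hB1, hc1, h1⟩ := exists_points hβ
  obtain ⟨C2, B2, c2, hB2, hc2, h2⟩ := exists_points hβ'
  set I := ((∀ l, Fin (k l)) ⊕ (∀ l, Fin (k' l))) with hI
  set B : ℝ := B1 + B2 with hB
  have hB0 : 0 ≤ B := add_nonneg hB1 hB2
  set R : ℝ := 1 + (Fintype.card I + 1) * B with hR
  have hR0 : 0 < R := by
    rw [hR]
    positivity
  refine ⟨max (max 1 (Real.exp R)) (max C1 C2), fun lam hσ hτ => ?_⟩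
  have hC1 : 1 ≤ ‖σ lam‖ := ((le_max_left _ _).trans (le_max_left _ _)).trans hσ
  have hl0 : lam ≠ 0 := by
    rintro rfl
    rw [map_zero, norm_zero] at hC1
    linarith
  have hτ0 : τ lam ≠ 0 := (map_ne_zero τ).2 hl0
  have hτp : 0 < ‖τ lam‖ := norm_pos_iff.2 hτ0
  have hτ' : max (max 1 (Real.exp R)) (max C1 C2) ≤ ‖(τ lam)⁻¹‖ := by
    rw [norm_inv, le_inv_comm₀ _ hτp]
    · rw [← one_div, le_div_iff₀ (by
        exact lt_of_lt_of_le zero_lt_one ((le_max_left _ _).trans (le_max_left _ _)))]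
      exact hτ
    · exact lt_of_lt_of_le zero_lt_one ((le_max_left _ _).trans (le_max_left _ _))
  have hlog : ∀ L : ℂ, max (max 1 (Real.exp R)) (max C1 C2) ≤ ‖L‖ → R ≤ Real.log ‖L‖ := by
    intro L hL
    have h3 : Real.exp R ≤ ‖L‖ := ((le_max_right _ _).trans (le_max_left _ _)).trans hL
    exact (Real.le_log_iff_exp_le (lt_of_lt_of_le (Real.exp_pos R) h3)).2 h3
  obtain ⟨X1, Z1, h1⟩ := h1 (σ lam) (((le_max_left _ _).trans (le_max_right _ _)).trans hσ)
  obtain ⟨X2, Z2, h2⟩ := h2 (τ lam)⁻¹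
    (((le_max_right _ _).trans (le_max_right _ _)).trans hτ')
  have p1 : ∀ t (θ : Fin n → ℝ), PtS σ E.dat lam (Fin.cons (X1 t θ) fun l => Z1 t l (θ l)) :=
    fun t θ => by
      have h3 := (h1 t).2.2.1 θ
      exact pt_of h3.eq h3.neM h3.neA h3.neB
  have p2 : ∀ t (θ : Fin n → ℝ), PtS τ E.dat lam (Fin.cons (X2 t θ) fun l => Z2 t l (θ l)) :=
    fun t θ => by
      have h3 := (h2 t).2.2.1 θ
      refine pt_of ?_ h3.neN h3.neA h3.neB
      have h4 := h3.eq
      have h5 : ∏ l, ((E.N l).map τ).eval ((Fin.cons (X2 t θ) fun l => Z2 t l (θ l) :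
          Fin (n + 1) → ℂ) l) = τ lam * ((τ lam)⁻¹ * ∏ l, ((E.N l).map τ).eval
            ((Fin.cons (X2 t θ) fun l => Z2 t l (θ l) : Fin (n + 1) → ℂ) l)) := by
        rw [mul_inv_cancel_left₀ hτ0]
      refine h5.trans ?_
      congr 1
      exact h4.symm
  refine ⟨fun t => match t with
    | Sum.inl t => mkS (h1 t).1 (h1 t).2.1 (p1 t)
    | Sum.inr t => mkS (h2 t).1 (h2 t).2.1 (p2 t), fun t θ a => ?_, fun t θ a => ?_, ?_⟩
  · show (mkS (h1 t).1 (h1 t).2.1 (p1 t)).e θ _ = _
    rw [mkS_e, PtS.evA_cst]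
  · show (mkS (h2 t).1 (h2 t).2.1 (p2 t)).e θ _ = _
    rw [mkS_e, PtS.evA_cst]
  · -- the matrix
    set A : Matrix I I ℝ := Matrix.of fun t s : I => (match t with
      | Sum.inl t => mkS (h1 t).1 (h1 t).2.1 (p1 t)
      | Sum.inr t => mkS (h2 t).1 (h2 t).2.1 (p2 t) : Torus (E.dat.Open lam) n).reg
        (symb (E.dat.ent lam (idx s))) with hA
    have key : ∀ t : I, ∃ d : ℝ, R ≤ d ∧ ∀ s : I, |A t s + (if s = t then d else 0)| ≤ B := by
      intro t
      rcases t with t | t
      · refine ⟨c1 t * Real.log ‖σ lam‖, ?_, fun s => ?_⟩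
        · have h3 := hlog _ hσ
          have h4 := hc1 t
          nlinarith
        · have h3 := (h1 t).2.2.2 (idx s)
          have h4 : A (Sum.inl t) s = pairing (Fin.cons (fun θ =>
              ((E.dat.A 0 (idx s 0)).map σ).eval (X1 t θ) /
                ((E.dat.B 0 (idx s 0)).map σ).eval (X1 t θ))
              (vf fun l r => ((E.dat.A l.succ (idx s l.succ)).map σ).eval (Z1 t l r) /
                ((E.dat.B l.succ (idx s l.succ)).map σ).eval (Z1 t l r))) := by
            show (mkS (h1 t).1 (h1 t).2.1 (p1 t)).reg (symb (E.dat.ent lam (idx s))) = _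
            rw [mkS_reg]
            simp only [eval_map]
          have h5 : (s = Sum.inl t) ↔ (idx s = fun l => Fin.castAdd (k' l) (t l)) := by
            constructor
            · rintro rfl
              rfl
            · intro h
              exact idx_injective (h.trans rfl)
          rw [h4, if_congr h5 rfl rfl]
          exact h3.trans (by rw [hB]; linarith)
      · refine ⟨c2 t * Real.log ‖(τ lam)⁻¹‖, ?_, fun s => ?_⟩
        · have h3 := hlog _ hτ'
          have h4 := hc2 t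
          nlinarith
        · have h3 := (h2 t).2.2.2 (idx s)
          have h4 : A (Sum.inr t) s = pairing (Fin.cons (fun θ =>
              ((E.dat.A 0 (idx s 0)).map τ).eval (X2 t θ) /
                ((E.dat.B 0 (idx s 0)).map τ).eval (X2 t θ))
              (vf fun l r => ((E.dat.A l.succ (idx s l.succ)).map τ).eval (Z2 t l r) /
                ((E.dat.B l.succ (idx s l.succ)).map τ).eval (Z2 t l r))) := by
            show (mkS (h2 t).1 (h2 t).2.1 (p2 t)).reg (symb (E.dat.ent lam (idx s))) = _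
            rw [mkS_reg]
            simp only [eval_map]
          have h5 : (s = Sum.inr t) ↔ (idx s = fun l => Fin.natAdd (k l) (t l)) := by
            constructor
            · rintro rfl
              rfl
            · intro h
              exact idx_injective (h.trans rfl)
          rw [h4, if_congr h5 rfl rfl]
          exact h3.trans (by rw [hB]; linarith)
    show A.det ≠ 0
    refine det_ne_zero_of_sum_row_lt_diag fun t => ?_
    obtain ⟨d, hd, hd'⟩ := key t
    have hoffd : ∀ s ∈ Finset.univ.erase t, ‖A t s‖ ≤ B := by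
      intro s hs
      have h3 := hd' s
      rw [if_neg (Finset.ne_of_mem_erase hs), add_zero] at h3
      rw [Real.norm_eq_abs]
      exact h3
    have hsum : ∑ s ∈ Finset.univ.erase t, ‖A t s‖ ≤ Fintype.card I * B := by
      refine (Finset.sum_le_card_nsmul _ _ _ hoffd).trans ?_
      rw [nsmul_eq_mul]
      refine mul_le_mul_of_nonneg_right ?_ hB0
      exact_mod_cast Finset.card_le_univ _
    refine hsum.trans_lt ?_
    have h3 := hd' t
    rw [if_pos rfl] at h3
    have h4 := (abs_le.1 h3).2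
    have h5 := neg_le_abs (A t t)
    rw [Real.norm_eq_abs]
    have h6 : R = 1 + Fintype.card I * B + B := by
      rw [hR]
      ring
    linarith

end Pool.Agent.U759.TQ
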