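import Pool.Agent.U759.TQ.Exa
set_option autoImplicit false

/-!
The main theorem and the example.
-/

namespace Pool.Agent.U759.TQ

open Polynomial

open Pool.Agent.TH826.MK (KQ symb Unramified Torus)

variable {K : Type*} [Field K] {n : ℕ} {k k' : Fin (n + 1) → ℕ}

theorem largeUnits.{u, v} {K : Type u} [Field K] [NumberField K] {n : ℕ}
    {k k' : Fin (n + 1) → ℕ} {E : Dat2 K n k k'} (H : E.Ok) (hk : ∀ l, k l ≠ 0)
    (hk' : ∀ l, k' l ≠ 0) (hn : n ≠ 0) : LargeUnits.{u, v} E := by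
  obtain ⟨C, hC⟩ := exists_const H hk hk' hn
  have h1 : ∀ (σ τ : K →+* ℂ) (lam : K), IsIntegral ℤ lam → IsIntegral ℤ lam⁻¹ →
      C ≤ ‖σ lam‖ → ‖τ lam‖ * C ≤ 1 → Concl.{u, v} σ τ E lam := by
    intro σ τ lam i1 i2 hσ hτ
    obtain ⟨hl0, c1, c2, c3, c4, c5⟩ := hC σ τ lam hσ hτ
    exact ⟨c1, c2, c3, c4, fun L _ h s => unramified2 H i1 i2 hl0 h s, c5⟩
  refine ⟨⟨C, h1⟩, fun e he0 he he' hne => ?_⟩
  obtain ⟨σ, τ, M, hM⟩ := exists_pow he he' hne he0 C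
  refine ⟨σ, τ, M, fun m hm => h1 σ τ _ (he.pow m) ?_ (hM m hm).1 (hM m hm).2⟩
  rw [← inv_pow]
  exact he'.pow m

theorem rootDat_good {r s : Fin (n + 1) → ℕ} {α : ∀ l, Fin (r l + 1) → K}
    {a : ∀ l, Fin (r l + 1) → ℕ} {β : ∀ l, Fin (s l) → K} {b : ∀ l, Fin (s l) → ℕ}
    (H : ∀ l, RootPts (α l) (a l) (β l) (b l)) (ha : ∀ i, a 0 i = 1) (hb : ∀ j, b 0 j = 1) :
    Good (rootDat α a β b) := by
  refine ⟨rootDat_ok H ha hb, fun l => ⟨(H l).cop, ?_⟩⟩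
  show (∏ j, (X - C (β l j)) ^ b l j).natDegree < (∏ i, (X - C (α l i)) ^ a l i).natDegree
  rw [Pool.Agent.U759.TQ.natDegree_prod', Pool.Agent.U759.TQ.natDegree_prod']
  exact (H l).lt

end Pool.Agent.U759.TQ
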