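import Pool.Agent.TH826.MK.Bound
import Pool.Agent.U759.TP.Loc
set_option autoImplicit false

/-!
The regulator integrals of functions `F_l(θ_l)` and of a function `(w V)^e Φ(w V)` for small `w`.
-/

namespace Pool.Agent.U759.TQ

open Filter Topology Polynomial MeasureTheory Set

open Pool.Agent.TH826.MK

open Pool.Agent.U759.TP (cir cir_sub cir_add_one contDiff_cir norm_cir_sub)

variable {G H : ℝ → ℂ} {v w : ℝ}

theorem one_const {c : ℂ} (hc : c ≠ 0) : One (fun _ => c) 0 where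
  smooth := contDiff_const
  ne_zero _ := hc
  per _ := rfl
  wind := by simp

theorem One.mul' (hG : One G v) (hH : One H w) : One (fun s => G s * H s) (v + w) := by
  have h1 := (one_const (one_ne_zero (α := ℂ))).div hH
  have h2 := hG.div h1
  have e : (fun s => G s / (1 / H s)) = fun s => G s * H s := by
    funext s
    rw [div_div_eq_mul_div, div_one]
  rw [e] at h2
  convert h2 using 1
  ring

theorem one_poly {β : ℂ} {ε : ℝ} (hε : 0 < ε) {p : ℂ[X]} (hp : p.Monic)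
    (h : ∀ a, p.eval a = 0 → ‖a - β‖ ≠ ε) :
    One (fun t => p.eval (cir β ε t)) ((p.roots.map fun a => wd ε (a - β)).sum) := by
  have e : (fun t => p.eval (cir β ε t)) =
      fun t => (p.roots.map fun a => cir β ε t - a).prod :=
    funext fun t => (IsAlgClosed.splits p).eval_eq_prod_roots_of_monic hp _
  rw [e]
  have h' : ∀ a ∈ p.roots, ‖a - β‖ ≠ ε := fun a ha => h a (mem_roots'.1 ha).2
  generalize p.roots = s at h'
  induction s using Multiset.induction_on with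
  | empty => simpa using one_const (one_ne_zero (α := ℂ))
  | cons a s ih =>
    simp only [Multiset.map_cons, Multiset.prod_cons, Multiset.sum_cons]
    refine One.mul' ?_ (ih fun a ha => h' a (Multiset.mem_cons_of_mem ha))
    have e2 : (fun t => cir β ε t - a) = fun t => circ ε t - (a - β) :=
      funext fun t => cir_sub a t
    rw [e2]
    exact one_lin hε (h' a (Multiset.mem_cons_self a s))

theorem sum_wd_zero {β : ℂ} {ε : ℝ} {p : ℂ[X]} (h : ∀ a, p.eval a = 0 → ε < ‖a - β‖) :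
    (p.roots.map fun a => wd ε (a - β)).sum = 0 := by
  have h1 : (p.roots.map fun a => wd ε (a - β)) = p.roots.map fun _ => (0 : ℝ) := by
    refine Multiset.map_congr rfl fun a ha => ?_
    unfold wd
    rw [if_neg (not_lt.2 (h a (mem_roots'.1 ha).2).le)]
  rw [h1]
  simp

theorem one_le_sum_wd {β : ℂ} {ε : ℝ} (hε : 0 < ε) {p : ℂ[X]} (hp : p.Monic)
    (h0 : p.eval β = 0) : 1 ≤ (p.roots.map fun a => wd ε (a - β)).sum := by
  have hmem : β ∈ p.roots := (mem_roots hp.ne_zero).2 h0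
  obtain ⟨s, hs⟩ := Multiset.exists_cons_of_mem hmem
  rw [hs, Multiset.map_cons, Multiset.sum_cons]
  have h2 : wd ε (β - β) = 1 := by
    unfold wd
    rw [sub_self, norm_zero, if_pos hε]
  have h3 : 0 ≤ (s.map fun a => wd ε (a - β)).sum := by
    refine Multiset.sum_nonneg fun x hx => ?_
    obtain ⟨a, -, rfl⟩ := Multiset.mem_map.1 hx
    unfold wd
    split_ifs <;> norm_num
  rw [h2]
  linarith

variable {d : ℕ}

theorem tl_mem {y : Fin (d + 1) → ℝ} (hy : y ∈ Icc (0 : Fin (d + 1) → ℝ) 1) :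
    tl d y ∈ Icc (0 : Fin d → ℝ) 1 := by
  constructor
  · intro i
    exact hy.1 i.succ
  · intro i
    exact hy.2 i.succ

/-- A uniform bound for the regulator integrals of the `F_l` and `Φ(w V)`. -/
theorem exists_bound_n {Φ : ℂ → ℂ} {δ : ℝ} (hδ : 0 < δ)
    (hΦ : ∀ w, ‖w‖ < δ → ContDiffAt ℂ 2 Φ w ∧ Φ w ≠ 0)
    {F : Fin d → ℝ → ℂ} {wn : Fin d → ℝ} (hF : ∀ l, One (F l) (wn l)) {V : (Fin d → ℝ) → ℂ}
    (hV : ContDiff ℝ 2 V) {T : ℝ} (hT : 1 ≤ T) (hVT : ∀ θ, ‖V θ‖ ≤ T) :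
    ∃ C : ℝ, 0 ≤ C ∧ ∀ w : ℂ, ‖w‖ * T ≤ δ / 2 →
      |pairing (Fin.cons (fun θ => Φ (w * V θ)) (vf F))| ≤ C := by
  classical
  have hK : IsCompact (Metric.closedBall (0 : ℂ) (δ / 2)) := isCompact_closedBall _ _
  have hin : ∀ w ∈ Metric.closedBall (0 : ℂ) (δ / 2), ‖w‖ < δ := by
    intro w hw
    have := mem_closedBall_zero_iff.1 hw
    linarith
  have hcΦ : ContinuousOn Φ (Metric.closedBall (0 : ℂ) (δ / 2)) := fun w hw =>
    (hΦ w (hin w hw)).1.continuousAt.continuousWithinAt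
  have hball : ∀ w ∈ Metric.ball (0 : ℂ) δ, ContDiffAt ℂ 2 Φ w := fun w hw =>
    (hΦ w (mem_ball_zero_iff.1 hw)).1
  have hcd : ContinuousOn (deriv Φ) (Metric.closedBall (0 : ℂ) (δ / 2)) := by
    have h1 : ContDiffOn ℂ 2 Φ (Metric.ball (0 : ℂ) δ) := fun w hw =>
      (hball w hw).contDiffWithinAt
    have h2 := (h1.continuousOn_deriv_of_isOpen Metric.isOpen_ball (by norm_num))
    exact h2.mono fun w hw => mem_ball_zero_iff.2 (hin w hw)
  obtain ⟨A4, hA4⟩ := hK.exists_bound_of_continuousOn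
    (hcd.div hcΦ fun w hw => (hΦ w (hin w hw)).2)
  obtain ⟨A5, hA5⟩ := hK.exists_bound_of_continuousOn
    (f := fun w => Real.log ‖Φ w‖) ((hcΦ.norm).log fun w hw =>
      norm_ne_zero_iff.2 (hΦ w (hin w hw)).2)
  have hI : IsCompact (Icc (0 : Fin d → ℝ) 1) := isCompact_Icc
  have hJ : IsCompact (Icc (0 : Fin (d + 1) → ℝ) 1) := isCompact_Icc
  have hA3' : ∀ j : Fin d, ∃ A3, ∀ θ ∈ Icc (0 : Fin d → ℝ) 1,
      ‖fderiv ℝ V θ (Pi.single j 1)‖ ≤ A3 := by
    intro j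
    refine hI.exists_bound_of_continuousOn (f := fun θ => fderiv ℝ V θ (Pi.single j 1)) ?_
    exact ((hV.continuous_fderiv (by norm_num)).clm_apply continuous_const).continuousOn
  choose A3' hA3' using hA3'
  have hB' : ∀ (l : Fin d) (j : Fin (d + 1)), ∃ B, ∀ y ∈ Icc (0 : Fin (d + 1) → ℝ) 1,
      ‖grow (vf F l) y j‖ ≤ B := by
    intro l j
    exact hJ.exists_bound_of_continuousOn
      ((continuous_pi_iff.1 (continuous_grow ((hF l).good l)) j).continuousOn)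
  choose B' hB' using hB'
  have h0I : (0 : Fin d → ℝ) ∈ Icc (0 : Fin d → ℝ) 1 := ⟨le_rfl, zero_le_one⟩
  have h0J : (0 : Fin (d + 1) → ℝ) ∈ Icc (0 : Fin (d + 1) → ℝ) 1 := ⟨le_rfl, zero_le_one⟩
  have h0K : (0 : ℂ) ∈ Metric.closedBall (0 : ℂ) (δ / 2) := by
    rw [mem_closedBall_zero_iff, norm_zero]
    linarith
  have n3 : ∀ j, 0 ≤ A3' j := fun j => (norm_nonneg _).trans (hA3' j 0 h0I)
  have n4 : 0 ≤ A4 := (norm_nonneg _).trans (hA4 0 h0K)
  have n5 : 0 ≤ A5 := (norm_nonneg _).trans (hA5 0 h0K)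
  have nB : ∀ l j, 0 ≤ B' l j := fun l j => (norm_nonneg _).trans (hB' l j 0 h0J)
  set A3 : ℝ := ∑ j, A3' j with hA3
  have hA3le : ∀ j, A3' j ≤ A3 := fun j =>
    Finset.single_le_sum (fun j _ => n3 j) (Finset.mem_univ j)
  have n3' : 0 ≤ A3 := Finset.sum_nonneg fun j _ => n3 j
  set B : Fin d → ℝ := fun l => ∑ j, B' l j with hB
  have hBle : ∀ l j, B' l j ≤ B l := fun l j =>
    Finset.single_le_sum (fun j _ => nB l j) (Finset.mem_univ j)
  have nB' : ∀ l, 0 ≤ B l := fun l => Finset.sum_nonneg fun j _ => nB l j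
  set E : ℝ := A5 + 2 * (A4 * (δ / 2 * A3)) with hE
  have hE0 : 0 ≤ E := by positivity
  refine ⟨(d + 1).factorial * (E * ∏ l, B l),
    mul_nonneg (Nat.cast_nonneg _) (mul_nonneg hE0 (Finset.prod_nonneg fun l _ => nB' l)),
    fun w hw => ?_⟩
  have hwδ : ‖w‖ ≤ δ / 2 := by
    have := norm_nonneg w
    nlinarith
  have hwV : ∀ θ, w * V θ ∈ Metric.closedBall (0 : ℂ) (δ / 2) := by
    intro θ
    rw [mem_closedBall_zero_iff, norm_mul]
    exact (mul_le_mul_of_nonneg_left (hVT θ) (norm_nonneg w)).trans hw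
  refine abs_pairing_le (fun y hy j => ?_) (fun l y hy j => (hB' l j y hy).trans (hBle l j))
  refine norm_grow_le hy ?_ (fun j => ?_) j
  · have h1 := hA5 _ (hwV (tl d y))
    rw [Real.norm_eq_abs] at h1
    have h2 : 0 ≤ 2 * (A4 * (δ / 2 * A3)) := by positivity
    linarith
  · have h1 : HasFDerivAt V (fderiv ℝ V (tl d y)) (tl d y) :=
      ((hV.differentiable (by norm_num)) _).hasFDerivAt
    have h1' : HasFDerivAt (fun θ => w * V θ) (w • fderiv ℝ V (tl d y)) (tl d y) :=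
      h1.const_mul w
    have h2 : HasDerivAt Φ (deriv Φ (w * V (tl d y))) (w * V (tl d y)) :=
      ((hΦ _ (hin _ (hwV _))).1.differentiableAt (by norm_num)).hasDerivAt
    have h3 := h2.comp_hasFDerivAt (tl d y) h1'
    have h4 : fderiv ℝ (fun θ => Φ (w * V θ)) (tl d y) = _ := h3.fderiv
    unfold lw
    rw [h4]
    have e : (deriv Φ (w * V (tl d y)) • w • fderiv ℝ V (tl d y)) (Pi.single j 1) /
        Φ (w * V (tl d y)) = (deriv Φ (w * V (tl d y)) / Φ (w * V (tl d y))) *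
          (w * fderiv ℝ V (tl d y) (Pi.single j 1)) := by
      simp only [smul_apply, smul_eq_mul]
      ring
    rw [e, norm_mul, norm_mul]
    have h5 : ‖deriv Φ (w * V (tl d y)) / Φ (w * V (tl d y))‖ *
        (‖w‖ * ‖fderiv ℝ V (tl d y) (Pi.single j 1)‖) ≤ A4 * (δ / 2 * A3) :=
      mul_le_mul (hA4 _ (hwV _)) (mul_le_mul hwδ ((hA3' j _ (tl_mem hy)).trans (hA3le j))
        (norm_nonneg _) (by linarith)) (by positivity) n4
    linarith

theorem good_pow {g : (Fin d → ℝ) → ℂ} (hg : Good g) (e : ℕ) : Good fun θ => g θ ^ e :=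
  ⟨hg.smooth.pow e, fun θ => pow_ne_zero e (hg.ne_zero θ)⟩

theorem pairing_pow {g : (Fin d → ℝ) → ℂ} (hg : Good g) {F : Fin d → ℝ → ℂ} {wn : Fin d → ℝ}
    (hF : ∀ l, One (F l) (wn l)) (e : ℕ) :
    pairing (Fin.cons (fun θ => g θ ^ e) (vf F)) = e * pairing (Fin.cons g (vf F)) := by
  have hv : ∀ l, Good (vf F l) := fun l => (hF l).good l
  induction e with
  | zero => simpa using pairing_one hF
  | succ e ih =>
    simp only [pow_succ]
    rw [pairing_cons_mul (good_pow hg e) hg hv, ih]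
    push_cast
    ring

/-- The regulator integral of the `F_l` and `(w V)^e Φ(w V)` for small `w`. -/
theorem pairing_asymp {Φ : ℂ → ℂ} {δ : ℝ} (hδ : 0 < δ)
    (hΦ : ∀ w, ‖w‖ < δ → ContDiffAt ℂ 2 Φ w ∧ Φ w ≠ 0)
    {F : Fin d → ℝ → ℂ} {wn : Fin d → ℝ} (hF : ∀ l, One (F l) (wn l)) {V : (Fin d → ℝ) → ℂ}
    (hV : Good V) {T : ℝ} (hT : 1 ≤ T) (hVT : ∀ θ, ‖V θ‖ ≤ T) (e : ℕ) :
    ∃ C : ℝ, 0 ≤ C ∧ ∀ w : ℂ, w ≠ 0 → ‖w‖ * T ≤ δ / 2 →
      Good (fun θ => (w * V θ) ^ e * Φ (w * V θ)) ∧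
      |pairing (Fin.cons (fun θ => (w * V θ) ^ e * Φ (w * V θ)) (vf F)) -
        e * ((2 * Real.pi) ^ d * Real.log ‖w‖ * ∏ l, wn l)| ≤ C := by
  obtain ⟨C, hC0, hC⟩ := exists_bound_n hδ hΦ hF hV.smooth hT hVT
  refine ⟨e * |pairing (Fin.cons V (vf F))| + C, by positivity, fun w hw0 hw => ?_⟩
  have hv : ∀ l, Good (vf F l) := fun l => (hF l).good l
  have hlt : ∀ θ, ‖w * V θ‖ < δ := by
    intro θ
    rw [norm_mul]
    have := mul_le_mul_of_nonneg_left (hVT θ) (norm_nonneg w)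
    linarith
  have g1 : Good fun θ => w * V θ := (good_const hw0).mul hV
  have g2 : Good fun θ => Φ (w * V θ) := by
    refine ⟨?_, fun θ => (hΦ _ (hlt θ)).2⟩
    rw [contDiff_iff_contDiffAt]
    intro θ
    exact ((hΦ _ (hlt θ)).1.restrict_scalars ℝ).comp θ g1.smooth.contDiffAt
  refine ⟨(good_pow g1 e).mul g2, ?_⟩
  rw [pairing_cons_mul (good_pow g1 e) g2 hv, pairing_pow g1 hF e,
    pairing_cons_mul (good_const hw0) hV hv, pairing_const _ _ _ hF]
  have h3 : (e : ℝ) * ((2 * Real.pi) ^ d * Real.log ‖w‖ * ∏ l, wn l +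
      pairing (Fin.cons V (vf F))) + pairing (Fin.cons (fun θ => Φ (w * V θ)) (vf F)) -
      e * ((2 * Real.pi) ^ d * Real.log ‖w‖ * ∏ l, wn l) =
      e * pairing (Fin.cons V (vf F)) + pairing (Fin.cons (fun θ => Φ (w * V θ)) (vf F)) := by
    ring
  rw [h3]
  refine (abs_add_le _ _).trans (add_le_add ?_ (hC w hw))
  rw [abs_mul, Nat.abs_cast]

end Pool.Agent.U759.TQ
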