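import Pool.Agent.U759.TQ.Tor
import Pool.Agent.U759.TQ.Branch
import Pool.Agent.U759.TP.Reg
set_option autoImplicit false

/-!
Tori in the complex hypersurface `∏_l N_l(z_l) = Λ ∏_l M_l(z_l)` for large `Λ` and the asymptotic
behaviour of the regulator integrals of arbitrary functions `A_(l,m) / B_(l,m)` on them.
-/

namespace Pool.Agent.U759.TQ

open Polynomial Filter Topology Set

open Pool.Agent.TH826.MK (pairing wd One vf Good good_prod)

open Pool.Agent.U759.TP (cir cir_add_one contDiff_cir norm_cir_sub contDiff_eval_real exists_eps)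

variable {n : ℕ} {κ k : Fin (n + 1) → ℕ}

/-- The points `β_(l,a)` around which the tori are built: zeros of the `A_(l,ι a)`. -/
structure Loc (N M : Fin (n + 1) → ℂ[X]) (A B : ∀ l, Fin (κ l) → ℂ[X])
    (ι : ∀ l, Fin (k l) → Fin (κ l)) (β : ∀ l, Fin (k l) → ℂ) : Prop where
  hN : ∀ l, N l ≠ 0
  hM : ∀ l, M l ≠ 0
  mA : ∀ l j, (A l j).Monic
  mB : ∀ l j, (B l j).Monic
  zero : ∀ l a, (A l (ι l a)).eval (β l a) = 0
  neA : ∀ l a m, m ≠ ι l a → (A l m).eval (β l a) ≠ 0
  neB : ∀ l a m, (B l m).eval (β l a) ≠ 0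
  M0 : ∀ a, (M 0).eval (β 0 a) = 0
  M1 : ∀ a, (derivative (M 0)).eval (β 0 a) ≠ 0
  N0 : ∀ a, (N 0).eval (β 0 a) ≠ 0

/-- The points of the hypersurface at which all the functions are units. -/
structure Pt (N M : Fin (n + 1) → ℂ[X]) (A B : ∀ l, Fin (κ l) → ℂ[X]) (L : ℂ)
    (y : Fin (n + 1) → ℂ) : Prop where
  eq : ∏ l, (N l).eval (y l) = L * ∏ l, (M l).eval (y l)
  neN : ∀ l, (N l).eval (y l) ≠ 0
  neM : ∀ l, (M l).eval (y l) ≠ 0
  neA : ∀ l m, (A l m).eval (y l) ≠ 0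
  neB : ∀ l m, (B l m).eval (y l) ≠ 0

theorem exists_points {N M : Fin (n + 1) → ℂ[X]} {A B : ∀ l, Fin (κ l) → ℂ[X]}
    {ι : ∀ l, Fin (k l) → Fin (κ l)} {β : ∀ l, Fin (k l) → ℂ} (H : Loc N M A B ι β) :
    ∃ (C B0 : ℝ) (c : (∀ l, Fin (k l)) → ℝ), 0 ≤ B0 ∧ (∀ t, 1 ≤ c t) ∧ ∀ L : ℂ, C ≤ ‖L‖ →
      ∃ (X : (∀ l, Fin (k l)) → (Fin n → ℝ) → ℂ) (Z : (∀ l, Fin (k l)) → Fin n → ℝ → ℂ),
        ∀ t, (ContDiff ℝ 2 fun θ : Fin n → ℝ => (Fin.cons (X t θ) fun l => Z t l (θ l) :
            Fin (n + 1) → ℂ)) ∧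
          (∀ (θ : Fin n → ℝ) i, (Fin.cons (X t (θ + Pi.single i 1))
            (fun l => Z t l ((θ + Pi.single i 1 : Fin n → ℝ) l)) : Fin (n + 1) → ℂ) =
              Fin.cons (X t θ) fun l => Z t l (θ l)) ∧
          (∀ θ : Fin n → ℝ, Pt N M A B L (Fin.cons (X t θ) fun l => Z t l (θ l))) ∧
          ∀ s : (∀ l, Fin (κ l)), |pairing (Fin.cons (fun θ => (A 0 (s 0)).eval (X t θ) /
            (B 0 (s 0)).eval (X t θ)) (vf fun l r => (A l.succ (s l.succ)).eval (Z t l r) /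
              (B l.succ (s l.succ)).eval (Z t l r))) +
            (if s = (fun l => ι l (t l)) then c t * Real.log ‖L‖ else 0)| ≤ B0 := by
  classical
  set Q : Fin (n + 1) → ℂ[X] := fun l => N l * (M l * ∏ j, (A l j * B l j)) with hQdef
  have hQ0 : ∀ l, Q l ≠ 0 := fun l => mul_ne_zero (H.hN l) (mul_ne_zero (H.hM l)
    (Finset.prod_ne_zero_iff.2 fun j _ => mul_ne_zero (H.mA l j).ne_zero (H.mB l j).ne_zero))
  choose ε hε hεQ using fun l (j : Fin (k l)) => exists_eps (hQ0 l) (β l j)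
  have hQR : ∀ l (p : ℂ[X]), p ∣ Q l → ∀ a, p.eval a = 0 → (Q l).eval a = 0 := by
    intro l p hp a ha
    obtain ⟨q, hq⟩ := hp
    rw [hq, eval_mul, ha, zero_mul]
  have dN : ∀ l, N l ∣ Q l := fun l => Dvd.intro _ rfl
  have dM : ∀ l, M l ∣ Q l := fun l => Dvd.dvd.mul_left (Dvd.intro _ rfl) _
  have dA : ∀ l j, A l j ∣ Q l := fun l j => Dvd.dvd.mul_left (Dvd.dvd.mul_left
    ((Dvd.intro _ rfl).trans (Finset.dvd_prod_of_mem (fun j => A l j * B l j)
      (Finset.mem_univ j))) _) _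
  have dB : ∀ l j, B l j ∣ Q l := fun l j => Dvd.dvd.mul_left (Dvd.dvd.mul_left
    ((Dvd.intro_left _ rfl).trans (Finset.dvd_prod_of_mem (fun j => A l j * B l j)
      (Finset.mem_univ j))) _) _
  have hoff : ∀ l (j : Fin (k l)) a, (Q l).eval a = 0 → ‖a - β l j‖ ≠ ε l j := by
    intro l j a ha h
    by_cases hab : a = β l j
    · rw [hab, sub_self, norm_zero] at h
      exact (hε l j).ne h
    · exact (hεQ l j a ha hab).ne' h
  have hcR : ∀ l (a : Fin (k l)) s (p : ℂ[X]), p ∣ Q l → p.eval (cir (β l a) (ε l a) s) ≠ 0 := by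
    intro l a s p hp h
    exact hoff l a _ (hQR l p hp _ h) (norm_cir_sub (hε l a).le s)
  -- the functions on the circles
  set WA : ∀ l, Fin (k l) → Fin (κ l) → ℝ := fun l a j =>
    ((A l j).roots.map fun r => wd (ε l a) (r - β l a)).sum with hWA
  set WB : ∀ l, Fin (k l) → Fin (κ l) → ℝ := fun l a j =>
    ((B l j).roots.map fun r => wd (ε l a) (r - β l a)).sum with hWB
  set F : ∀ l, Fin (k l) → Fin (κ l) → ℝ → ℂ := fun l a j s =>
    (A l j).eval (cir (β l a) (ε l a) s) / (B l j).eval (cir (β l a) (ε l a) s) with hF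
  have oneF : ∀ l a j, One (F l a j) (WA l a j - WB l a j) := fun l a j =>
    (one_poly (hε l a) (H.mA l j) fun r hr => hoff l a r (hQR l _ (dA l j) r hr)).div
      (one_poly (hε l a) (H.mB l j) fun r hr => hoff l a r (hQR l _ (dB l j) r hr))
  have hWB0 : ∀ l a j, WB l a j = 0 := by
    intro l a j
    refine sum_wd_zero fun r hr => hεQ l a r (hQR l _ (dB l j) r hr) ?_
    rintro rfl
    exact H.neB l a j hr
  have hWA0 : ∀ l a j, j ≠ ι l a → WA l a j = 0 := by
    intro l a j hj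
    refine sum_wd_zero fun r hr => hεQ l a r (hQR l _ (dA l j) r hr) ?_
    rintro rfl
    exact H.neA l a j hj hr
  have hWA1 : ∀ l a, 1 ≤ WA l a (ι l a) := fun l a =>
    one_le_sum_wd (hε l a) (H.mA l _) (H.zero l a)
  set U : ∀ l, Fin (k l) → ℝ → ℂ := fun l a s => (N l).eval (cir (β l a) (ε l a) s) /
    (M l).eval (cir (β l a) (ε l a) s) with hU
  have cU : ∀ l a, ContDiff ℝ 2 (U l a) := by
    intro l a
    have h1 : ContDiff ℝ 2 fun s => (N l).eval (cir (β l a) (ε l a) s) :=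
      (contDiff_eval_real _).comp contDiff_cir
    have h2 : ContDiff ℝ 2 fun s => (M l).eval (cir (β l a) (ε l a) s) :=
      (contDiff_eval_real _).comp contDiff_cir
    have e : U l a = fun s => (N l).eval (cir (β l a) (ε l a) s) *
        ((M l).eval (cir (β l a) (ε l a) s))⁻¹ := by
      funext s
      simp only [hU]
      rw [div_eq_mul_inv]
    rw [e]
    exact h1.mul (h2.inv fun s => hcR l a s _ (dM l))
  have pU : ∀ l a s, U l a (s + 1) = U l a s := by
    intro l a s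
    simp only [hU, cir_add_one]
  have nU : ∀ l a s, U l a s ≠ 0 := fun l a s =>
    div_ne_zero (hcR l a s _ (dN l)) (hcR l a s _ (dM l))
  have hT' : ∀ l (a : Fin (k l)), ∃ T : ℝ, ∀ s, ‖U l a s‖ ≤ T := by
    intro l a
    have hp : Function.Periodic (U l a) 1 := fun s => pU l a s
    obtain ⟨T, hT⟩ := (hp.isBounded_of_continuous one_ne_zero
      (cU l a).continuous).exists_norm_le
    exact ⟨T, fun s => hT _ (mem_range_self s)⟩
  choose T' hT' using hT'
  set V : (∀ l, Fin (k l)) → (Fin n → ℝ) → ℂ := fun t θ => ∏ l : Fin n,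
    U l.succ (t l.succ) (θ l) with hV
  have gV : ∀ t, Good (V t) := fun t => good_prod Finset.univ fun l =>
    ⟨(cU l.succ (t l.succ)).comp (contDiff_apply ℝ ℝ l), fun θ => nU _ _ _⟩
  set T : (∀ l, Fin (k l)) → ℝ := fun t => 1 + ∏ l : Fin n, |T' l.succ (t l.succ)| with hT
  have hT1 : ∀ t, 1 ≤ T t := fun t => by
    have : 0 ≤ ∏ l : Fin n, |T' l.succ (t l.succ)| := Finset.prod_nonneg fun _ _ => abs_nonneg _
    simp only [hT]
    linarith
  have hVT : ∀ t θ, ‖V t θ‖ ≤ T t := by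
    intro t θ
    have h1 : ‖V t θ‖ ≤ ∏ l : Fin n, |T' l.succ (t l.succ)| := by
      simp only [hV]
      rw [norm_prod]
      exact Finset.prod_le_prod (fun _ _ => norm_nonneg _) fun l _ =>
        (hT' l.succ (t l.succ) (θ l)).trans (le_abs_self _)
    simp only [hT]
    linarith
  -- the branches
  choose δ ψ e Φ hδ he hψ using fun i => exists_branch (N 0) (M 0) (fun m => A 0 m)
    (fun m => B 0 m) (ι 0 i) (H.M0 i) (H.M1 i) (H.N0 i) (H.mA 0 _).ne_zero (H.zero 0 i)
    (H.neA 0 i) (H.neB 0 i)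
  have hasy := fun (t : ∀ l, Fin (k l)) (s : ∀ l, Fin (κ l)) => pairing_asymp (hδ (t 0))
    (Φ := Φ (t 0) (s 0)) (fun w hw => ⟨((hψ (t 0) w hw).2.2.2 (s 0)).2.1,
      ((hψ (t 0) w hw).2.2.2 (s 0)).2.2.1⟩)
    (F := fun l : Fin n => F l.succ (t l.succ) (s l.succ))
    (fun l => oneF l.succ (t l.succ) (s l.succ)) (gV t) (hT1 t) (hVT t)
    (if s 0 = ι 0 (t 0) then e (t 0) else 0)
  choose c' hc0 hc using hasy
  set B0 : ℝ := ∑ t, ∑ s, c' t s with hB
  have hcB : ∀ t s, c' t s ≤ B0 := fun t s =>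
    (Finset.single_le_sum (f := fun s => c' t s) (fun s _ => hc0 t s) (Finset.mem_univ s)).trans
      (Finset.single_le_sum (f := fun t => ∑ s, c' t s)
        (fun t _ => Finset.sum_nonneg fun s _ => hc0 t s) (Finset.mem_univ t))
  have hB0 : 0 ≤ B0 := Finset.sum_nonneg fun t _ => Finset.sum_nonneg fun s _ => hc0 t s
  set S : ℝ := ∑ t : (∀ l, Fin (k l)), 2 * T t / δ (t 0) with hS
  have hST : ∀ t, 2 * T t / δ (t 0) ≤ S := fun t =>
    Finset.single_le_sum (f := fun t : (∀ l, Fin (k l)) => 2 * T t / δ (t 0)) (fun t _ => by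
      have h1 := hT1 t
      have h2 := hδ (t 0)
      positivity) (Finset.mem_univ t)
  have hW : ∀ t : (∀ l, Fin (k l)), 1 ≤ ∏ l : Fin n, (WA l.succ (t l.succ) (ι l.succ (t l.succ)) -
      WB l.succ (t l.succ) (ι l.succ (t l.succ))) := by
    intro t
    refine Finset.one_le_prod fun l _ => ?_
    rw [hWB0, sub_zero]
    exact hWA1 _ _
  refine ⟨max 1 S, B0, fun t => e (t 0) * ((2 * Real.pi) ^ n * ∏ l : Fin n,
    (WA l.succ (t l.succ) (ι l.succ (t l.succ)) - WB l.succ (t l.succ) (ι l.succ (t l.succ)))),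
    hB0, fun t => ?_, fun L hL => ?_⟩
  · have h3 : (1 : ℝ) ≤ e (t 0) := by exact_mod_cast Nat.one_le_iff_ne_zero.2 (he (t 0))
    have h4 : (1 : ℝ) ≤ (2 * Real.pi) ^ n := one_le_pow₀ (by linarith [Real.pi_gt_three])
    exact one_le_mul_of_one_le_of_one_le h3 (one_le_mul_of_one_le_of_one_le h4 (hW t))
  have hl1 : 1 ≤ ‖L‖ := (le_max_left _ _).trans hL
  have hl2 : S ≤ ‖L‖ := (le_max_right _ _).trans hL
  have hlpos : 0 < ‖L‖ := by linarith
  have hl0 : L ≠ 0 := norm_pos_iff.1 hlpos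
  set w : ℂ := L⁻¹ with hw
  have hw0 : w ≠ 0 := inv_ne_zero hl0
  have hwT : ∀ t, ‖w‖ * T t ≤ δ (t 0) / 2 := by
    intro t
    have h1 := (hST t).trans hl2
    rw [hw, norm_inv, inv_mul_le_iff₀ hlpos]
    rw [div_le_iff₀ (hδ (t 0))] at h1
    linarith
  have hlt : ∀ t θ, ‖w * V t θ‖ < δ (t 0) := by
    intro t θ
    rw [norm_mul]
    have h1 := mul_le_mul_of_nonneg_left (hVT t θ) (norm_nonneg w)
    have h2 := hwT t
    have h3 := hδ (t 0)
    linarith
  set Z : (∀ l, Fin (k l)) → Fin n → ℝ → ℂ := fun t l s =>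
    cir (β l.succ (t l.succ)) (ε l.succ (t l.succ)) s with hZ
  have hVper : ∀ t θ i, V t (θ + Pi.single i 1) = V t θ := by
    intro t θ i
    simp only [hV]
    refine Finset.prod_congr rfl fun l _ => ?_
    by_cases hl : l = i
    · subst hl
      rw [Pi.add_apply, Pi.single_eq_same, pU]
    · rw [Pi.add_apply, Pi.single_eq_of_ne hl, add_zero]
  refine ⟨fun t θ => ψ (t 0) (w * V t θ), Z, fun t => ⟨?_, fun θ i => ?_, fun θ => ?_,
    fun s => ?_⟩⟩
  · rw [contDiff_pi]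
    intro l
    refine Fin.cases ?_ (fun l => ?_) l
    · show ContDiff ℝ 2 fun θ => ψ (t 0) (w * V t θ)
      rw [contDiff_iff_contDiffAt]
      intro θ
      have h1 : ContDiff ℝ 2 fun θ => w * V t θ := contDiff_const.mul (gV t).smooth
      exact ((hψ (t 0) _ (hlt t θ)).1.restrict_scalars ℝ).comp θ h1.contDiffAt
    · exact contDiff_cir.comp (contDiff_apply ℝ ℝ l)
  · simp only [hVper]
    congr 1
    funext l
    simp only [hZ]
    by_cases hl : l = i
    · subst hl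
      rw [Pi.add_apply, Pi.single_eq_same, cir_add_one]
    · rw [Pi.add_apply, Pi.single_eq_of_ne hl, add_zero]
  · obtain ⟨h1, h2, h3, h4⟩ := hψ (t 0) _ (hlt t θ)
    have hwV : w * V t θ ≠ 0 := mul_ne_zero hw0 ((gV t).ne_zero θ)
    refine ⟨?_, fun l => ?_, fun l => ?_, fun l => ?_, fun l => ?_⟩
    · rw [Fin.prod_univ_succ, Fin.prod_univ_succ]
      simp only [Fin.cons_zero, Fin.cons_succ]
      rw [h2]
      have h5 : V t θ * ∏ l : Fin n, (M l.succ).eval (Z t l (θ l)) =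
          ∏ l : Fin n, (N l.succ).eval (Z t l (θ l)) := by
        simp only [hV]
        rw [← Finset.prod_mul_distrib]
        refine Finset.prod_congr rfl fun l _ => ?_
        simp only [hU, hZ]
        exact div_mul_cancel₀ _ (hcR _ _ _ _ (dM _))
      rw [← h5]
      have h6 : L * w = 1 := by rw [hw, mul_inv_cancel₀ hl0]
      linear_combination (-(V t θ * (N 0).eval (ψ (t 0) (w * V t θ)) *
        ∏ l : Fin n, (M l.succ).eval (Z t l (θ l)))) * h6
    · refine Fin.cases h3 (fun l => ?_) l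
      exact hcR _ _ _ _ (dN _)
    · refine Fin.cases ?_ (fun l => ?_) l
      · show (M 0).eval (ψ (t 0) (w * V t θ)) ≠ 0
        rw [h2]
        exact mul_ne_zero hwV h3
      · exact hcR _ _ _ _ (dM _)
    · refine Fin.cases (fun m => ?_) (fun l m => ?_) l
      · show (A 0 m).eval (ψ (t 0) (w * V t θ)) ≠ 0
        intro h
        have h7 := (h4 m).2.2.2
        rw [h, zero_div] at h7
        exact (mul_ne_zero (pow_ne_zero _ hwV) (h4 m).2.2.1) h7.symm
      · exact hcR _ _ _ _ (dA _ _)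
    · refine Fin.cases (fun m => (h4 m).1) (fun l m => ?_) l
      exact hcR _ _ _ _ (dB _ _)
  · have h1 := ((hc t s) w hw0 (hwT t)).2
    have h2 : pairing (Fin.cons (fun θ => (A 0 (s 0)).eval (ψ (t 0) (w * V t θ)) /
            (B 0 (s 0)).eval (ψ (t 0) (w * V t θ))) (vf fun l r =>
              (A l.succ (s l.succ)).eval (Z t l r) / (B l.succ (s l.succ)).eval (Z t l r))) =
        pairing (Fin.cons (fun θ => (w * V t θ) ^ (if s 0 = ι 0 (t 0) then e (t 0)
          else 0) * Φ (t 0) (s 0) (w * V t θ))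
          (vf fun l : Fin n => F l.succ (t l.succ) (s l.succ))) := by
      congr 2
      funext θ
      exact ((hψ (t 0) _ (hlt t θ)).2.2.2 (s 0)).2.2.2
    have h3 : (if s = (fun l => ι l (t l)) then (e (t 0) * ((2 * Real.pi) ^ n * ∏ l : Fin n,
        (WA l.succ (t l.succ) (ι l.succ (t l.succ)) -
          WB l.succ (t l.succ) (ι l.succ (t l.succ))))) * Real.log ‖L‖ else 0) =
        -(((if s 0 = ι 0 (t 0) then e (t 0) else 0 : ℕ) : ℝ) *
        ((2 * Real.pi) ^ n * Real.log ‖w‖ * ∏ l : Fin n,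
          (WA l.succ (t l.succ) (s l.succ) - WB l.succ (t l.succ) (s l.succ)))) := by
      by_cases hs : s = fun l => ι l (t l)
      · subst hs
        rw [if_pos rfl, if_pos rfl, hw, norm_inv, Real.log_inv]
        ring
      · rw [if_neg hs]
        by_cases h0 : s 0 = ι 0 (t 0)
        · obtain ⟨l, hl⟩ : ∃ l : Fin n, s l.succ ≠ ι l.succ (t l.succ) := by
            by_contra hcon
            push Not at hcon
            refine hs (funext fun l => ?_)
            refine Fin.cases h0 (fun l => hcon l) l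
          rw [Finset.prod_eq_zero (Finset.mem_univ l) (by rw [hWA0 _ _ _ hl, hWB0, sub_zero]),
            mul_zero, mul_zero, neg_zero]
        · rw [if_neg h0, Nat.cast_zero, zero_mul, neg_zero]
    simp only
    rw [h2, h3, ← sub_eq_add_neg]
    exact h1.trans (hcB t s)

end Pool.Agent.U759.TQ
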