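import Pool.Agent.U759.TQ.Ring
import Pool.Agent.U759.TP.Unram
set_option autoImplicit false

/-!
The symbols on the hypersurfaces `∏_l φ_l(z_l) = λ` are unramified at all discrete valuations.
-/

namespace Pool.Agent.U759.TQ

open scoped WithZero

open Polynomial

open Pool.Agent.TH826.MK (KQ symb unitPart Unramified)

open Pool.Agent.U759.TP (exists_quot val_int val_eval_int val_eval_monic val_eval_lt lifts_iff
  isIntegral_coeff_pow' isIntegral_coeff_sub)

section val

variable {K L : Type*} [Field K] [Field L] (c : K →+* L) (v : Valuation L ℤᵐ⁰) {κ : ℕ}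
  {N M : K[X]} {A B : Fin κ → K[X]}

theorem Tors.intpow {p q : K[X]} (hp : ∀ i, IsIntegral ℤ (p.coeff i))
    (hq : ∀ i, IsIntegral ℤ (q.coeff i)) (m s : ℕ) (i : ℕ) :
    IsIntegral ℤ (((p ^ m - q ^ m) ^ s).coeff i) :=
  isIntegral_coeff_pow' (isIntegral_coeff_sub (isIntegral_coeff_pow' hp m)
    (isIntegral_coeff_pow' hq m)) s i

/-- At a large argument. -/
theorem large {p q : K[X]} (hp : p.Monic) (hq : q.Monic) (ip : ∀ i, IsIntegral ℤ (p.coeff i))
    (iq : ∀ i, IsIntegral ℤ (q.coeff i)) (hd : p.natDegree = q.natDegree) {z : L} (hz : 1 < v z)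
    (hq0 : q.eval₂ c z ≠ 0) : v (p.eval₂ c z / q.eval₂ c z - 1) < 1 := by
  have e : p.eval₂ c z / q.eval₂ c z - 1 = (p - q).eval₂ c z / q.eval₂ c z := by
    rw [Polynomial.eval₂_sub, sub_div, div_self hq0]
  rw [e, map_div₀, val_eval_monic c v iq hq hz,
    div_lt_one₀ (pow_pos (zero_lt_one.trans hz) _)]
  rcases Nat.eq_zero_or_pos q.natDegree with h0 | h0
  · have h1 : q = 1 := hq.natDegree_eq_zero.1 h0
    have h2 : p = 1 := hp.natDegree_eq_zero.1 (by rw [hd, h0])
    rw [h1, h2, sub_self, Polynomial.eval₂_zero, map_zero]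
    simp
  refine val_eval_lt c v (isIntegral_coeff_sub ip iq) hz ?_
  by_cases hPR : p - q = 0
  · rw [hPR, natDegree_zero]
    exact h0
  · have h1 := degree_sub_lt_left (p := p) (q := q)
      (by rw [degree_eq_natDegree hp.ne_zero, degree_eq_natDegree hq.ne_zero, hd])
      hp.ne_zero (by rw [hp.leadingCoeff, hq.leadingCoeff])
    have h2 := natDegree_lt_natDegree hPR h1
    rw [← hd]
    exact h2

variable (H : Tors N M A B) {z : L}
include H

theorem Tors.unit_B (hz : v z ≤ 1) (j : Fin κ) (hN : v (N.eval₂ c z) < 1) :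
    v ((B j).eval₂ c z) = 1 := by
  obtain ⟨a, b, ia, ib, hab⟩ := H.uni j
  refine le_antisymm (val_eval_int c v (H.intB j) hz) ?_
  by_contra hcon
  have hlt := not_le.1 hcon
  have h1 := congrArg (fun p => v (p.eval₂ c z)) hab
  simp only [Polynomial.eval₂_add, Polynomial.eval₂_mul, Polynomial.eval₂_one, map_one] at h1
  have h2 : v (a.eval₂ c z * N.eval₂ c z + b.eval₂ c z * (B j).eval₂ c z) < 1 := by
    refine (Valuation.map_add_lt v ?_ ?_)
    · rw [map_mul, mul_comm]
      exact mul_lt_one_of_lt_of_le hN (val_eval_int c v ia hz)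
    · rw [map_mul, mul_comm]
      exact mul_lt_one_of_lt_of_le hlt (val_eval_int c v ib hz)
  exact h2.ne h1

theorem Tors.small (hz : v z ≤ 1) (j : Fin κ) (hN : v (N.eval₂ c z) < 1) :
    ∃ m : ℕ, m ≠ 0 ∧ v ((A j).eval₂ c z ^ m - (B j).eval₂ c z ^ m) < 1 := by
  obtain ⟨m, s, hm, hdvd⟩ := H.tors j
  obtain ⟨Q, hQ, hPQ⟩ := exists_quot H.monicN H.intN
    (Tors.intpow (H.intA j) (H.intB j) m s) hdvd
  refine ⟨m, hm, ?_⟩
  have he : ((A j).eval₂ c z ^ m - (B j).eval₂ c z ^ m) ^ s = N.eval₂ c z * Q.eval₂ c z := by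
    rw [← Polynomial.eval₂_mul, ← hPQ, Polynomial.eval₂_pow, Polynomial.eval₂_sub,
      Polynomial.eval₂_pow, Polynomial.eval₂_pow]
  have h1 : v (((A j).eval₂ c z ^ m - (B j).eval₂ c z ^ m) ^ s) < 1 := by
    rw [he, map_mul]
    exact mul_lt_one_of_lt_of_le hN (val_eval_int c v hQ hz)
  rw [map_pow] at h1
  by_contra hcon
  exact absurd h1 (not_lt.2 (one_le_pow₀ (not_lt.1 hcon)))

theorem Tors.lt_of_dvd (hz : v z ≤ 1) {p : K[X]} (hp : p.Monic)
    (ip : ∀ i, IsIntegral ℤ (p.coeff i)) (hd : ∃ s, p ∣ M ^ s) (hlt : v (p.eval₂ c z) < 1) :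
    v (M.eval₂ c z) < 1 := by
  obtain ⟨s, hs⟩ := hd
  obtain ⟨Q, hQ, hPQ⟩ := exists_quot hp ip (isIntegral_coeff_pow' H.intM s) hs
  have h1 : v (M.eval₂ c z ^ s) < 1 := by
    rw [← Polynomial.eval₂_pow, hPQ, Polynomial.eval₂_mul, map_mul]
    exact mul_lt_one_of_lt_of_le hlt (val_eval_int c v hQ hz)
  rw [map_pow] at h1
  by_contra hcon
  exact absurd h1 (not_lt.2 (one_le_pow₀ (not_lt.1 hcon)))

/-- At a zero of `φ` the functions are torsion. -/
theorem Tors.zero (j : Fin κ) (hB0 : (B j).eval₂ c z ≠ 0)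
    (hlt : v (N.eval₂ c z) < v (M.eval₂ c z)) :
    ∃ m : ℕ, m ≠ 0 ∧ v (((A j).eval₂ c z / (B j).eval₂ c z) ^ m - 1) < 1 := by
  rcases lt_or_ge 1 (v z) with hz | hz
  · rcases H.inf with ⟨hM, hd⟩ | hd
    · rw [val_eval_monic c v H.intN H.monicN hz, val_eval_monic c v H.intM hM hz] at hlt
      exact absurd hlt (not_lt.2 (pow_le_pow_right₀ hz.le hd.le))
    · exact ⟨1, one_ne_zero, by
        rw [pow_one]
        exact large c v (H.monicA j) (H.monicB j) (H.intA j) (H.intB j) (hd j) hz hB0⟩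
  · have hN : v (N.eval₂ c z) < 1 := hlt.trans_le (val_eval_int c v H.intM hz)
    obtain ⟨m, hm, h1⟩ := H.small c v hz j hN
    refine ⟨m, hm, ?_⟩
    have h2 := H.unit_B c v hz j hN
    have e : ((A j).eval₂ c z / (B j).eval₂ c z) ^ m - 1 =
        ((A j).eval₂ c z ^ m - (B j).eval₂ c z ^ m) / (B j).eval₂ c z ^ m := by
      rw [div_pow, sub_div, div_self (pow_ne_zero _ hB0)]
    rw [e, map_div₀, map_pow, h2, one_pow, div_one]
    exact h1

/-- The zeros and poles of the functions are poles of `φ`. -/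
theorem Tors.pole (j : Fin κ) (hB0 : (B j).eval₂ c z ≠ 0)
    (hne : v ((A j).eval₂ c z / (B j).eval₂ c z) ≠ 1) :
    v (M.eval₂ c z) < v (N.eval₂ c z) := by
  rcases lt_or_ge 1 (v z) with hz | hz
  · rcases H.inf with ⟨hM, hd⟩ | hd
    · rw [val_eval_monic c v H.intN H.monicN hz, val_eval_monic c v H.intM hM hz]
      exact pow_lt_pow_right₀ hz hd
    · exact absurd (Pool.Agent.TH826.MK.val_one_of_sub_one
        (large c v (H.monicA j) (H.monicB j) (H.intA j) (H.intB j) (hd j) hz hB0)) hne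
  · have hNle := val_eval_int c v H.intN hz
    have hAle := val_eval_int c v (H.intA j) hz
    have hBle := val_eval_int c v (H.intB j) hz
    by_cases hN : v (N.eval₂ c z) < 1
    · exfalso
      have hB1 := H.unit_B c v hz j hN
      obtain ⟨m, hm, h1⟩ := H.small c v hz j hN
      have hA1 : v ((A j).eval₂ c z) = 1 := by
        refine le_antisymm hAle ?_
        by_contra hcon
        have hlt := not_le.1 hcon
        have h2 : v ((A j).eval₂ c z ^ m) < v ((B j).eval₂ c z ^ m) := by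
          rw [map_pow, map_pow, hB1, one_pow]
          exact pow_lt_one₀ zero_le hlt hm
        rw [Valuation.map_sub_swap, Valuation.map_sub_eq_of_lt_left v h2, map_pow, hB1,
          one_pow] at h1
        exact lt_irrefl _ h1
      exact hne (by rw [map_div₀, hA1, hB1, div_one])
    · have hN1 : v (N.eval₂ c z) = 1 := le_antisymm hNle (not_lt.1 hN)
      rw [hN1]
      by_cases hB1 : v ((B j).eval₂ c z) = 1
      · have hA1 : v ((A j).eval₂ c z) ≠ 1 := fun h => hne (by rw [map_div₀, h, hB1, div_one])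
        exact H.lt_of_dvd c v hz (H.monicA j) (H.intA j) (H.dvdA j) (lt_of_le_of_ne hAle hA1)
      · exact H.lt_of_dvd c v hz (H.monicB j) (H.intB j) (H.dvdB j) (lt_of_le_of_ne hBle hB1)

end val

section unram

variable {K : Type*} [Field K] {n : ℕ} {k : Fin (n + 1) → ℕ} {D : Dat K n k} {lam : K}
  {L : Type*} [Field L] (g : D.Open lam →+* L)

/-- the composite map from the coefficient field -/
noncomputable def cO : K →+* L := g.comp (D.cst lam)

/-- the image of `z_l` -/
noncomputable def yO (l : Fin (n + 1)) : L := g (D.toO lam (D.pol lam l X))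

theorem map_pol (l : Fin (n + 1)) (p : K[X]) :
    g (D.toO lam (D.pol lam l p)) = p.eval₂ (cO g) (yO g l) := by
  have h : (g.comp (D.toO lam)).comp (D.pol lam l) =
      Polynomial.eval₂RingHom (cO g) (yO g l) := by
    refine Polynomial.ringHom_ext (fun a => ?_) ?_
    · rw [Polynomial.coe_eval₂RingHom, Polynomial.eval₂_C]
      have e : D.pol lam l (C a) = D.mk' lam (MvPolynomial.C a) := by
        unfold Dat.pol mp
        rw [RingHom.comp_apply, Polynomial.coe_eval₂RingHom, Polynomial.eval₂_C]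
      rw [RingHom.comp_apply, e]
      rfl
    · rw [Polynomial.coe_eval₂RingHom, Polynomial.eval₂_X]
      rfl
  exact congrArg (fun h : K[X] →+* L => h p) h

theorem rel_map : ∏ l, (D.N l).eval₂ (cO g) (yO g l) =
    cO g lam * ∏ l, (D.M l).eval₂ (cO g) (yO g l) := by
  have h := congrArg (fun a => g (D.toO lam a)) (D.rel lam)
  simp only [map_mul, map_prod, map_pol] at h
  exact h

theorem R_ne_zero (l : Fin (n + 1)) : (D.R l).eval₂ (cO g) (yO g l) ≠ 0 := by
  rw [← map_pol]
  exact ((D.isUnit_R lam (dvd_refl (D.R l))).map g).ne_zero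

theorem M_ne_zero (l : Fin (n + 1)) : (D.M l).eval₂ (cO g) (yO g l) ≠ 0 := by
  rw [← map_pol]
  exact ((D.isUnit_R lam (Dvd.intro _ rfl)).map g).ne_zero

theorem A_ne_zero (l : Fin (n + 1)) (j : Fin (k l)) : (D.A l j).eval₂ (cO g) (yO g l) ≠ 0 := by
  rw [← map_pol]
  exact ((D.isUnit_R lam (D.A_dvd l j)).map g).ne_zero

theorem B_ne_zero (l : Fin (n + 1)) (j : Fin (k l)) : (D.B l j).eval₂ (cO g) (yO g l) ≠ 0 := by
  rw [← map_pol]
  exact ((D.isUnit_R lam (D.B_dvd l j)).map g).ne_zero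

theorem map_ent (j : ∀ l, Fin (k l)) (l : Fin (n + 1)) :
    (Units.map (g : D.Open lam →* L) (D.ent lam j l) : L) =
      (D.A l (j l)).eval₂ (cO g) (yO g l) / (D.B l (j l)).eval₂ (cO g) (yO g l) := by
  have h1 : Units.map (g : D.Open lam →* L) (D.ent lam j l) =
      Units.map (g : D.Open lam →* L) (D.uA lam l (j l)) /
        Units.map (g : D.Open lam →* L) (D.uB lam l (j l)) :=
    _root_.map_div (Units.map (g : D.Open lam →* L)) _ _
  rw [h1, Units.val_div_eq_div_val, ← map_pol, ← map_pol, ← D.coe_uA, ← D.coe_uB]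
  rfl

theorem val_symb (H : ∀ l, Tors (D.N l) (D.M l) (D.A l) (D.B l)) (hlam : IsIntegral ℤ lam)
    (v : Valuation L ℤᵐ⁰) (j : ∀ l, Fin (k l)) :
    symb (fun l => Units.map (g : D.Open lam →* L) (D.ent lam j l)) ∈ unitPart v (n + 1) := by
  set a : Fin (n + 1) → Lˣ := fun l => Units.map (g : D.Open lam →* L) (D.ent lam j l) with ha
  by_cases hu : ∀ l, v (a l : L) = 1
  · exact Submodule.subset_span ⟨a, hu, rfl⟩
  · push Not at hu
    obtain ⟨l0, hl0⟩ := hu
    have h0 : v ((D.M l0).eval₂ (cO g) (yO g l0)) < v ((D.N l0).eval₂ (cO g) (yO g l0)) := by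
      refine (H l0).pole (cO g) v (j l0) (B_ne_zero g l0 _) ?_
      rw [← map_ent]
      exact hl0
    obtain ⟨l1, hl1⟩ : ∃ l1, v ((D.N l1).eval₂ (cO g) (yO g l1)) <
        v ((D.M l1).eval₂ (cO g) (yO g l1)) := by
      by_contra hcon
      push Not at hcon
      have h1 := congrArg v (rel_map g)
      rw [map_mul, map_prod, map_prod] at h1
      have h2 : v (cO g lam) * ∏ l, v ((D.M l).eval₂ (cO g) (yO g l)) ≤
          ∏ l, v ((D.M l).eval₂ (cO g) (yO g l)) := by
        calc _ ≤ 1 * ∏ l, v ((D.M l).eval₂ (cO g) (yO g l)) :=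
              mul_le_mul' (val_int (cO g) v hlam) le_rfl
          _ = _ := one_mul _
      rw [← h1] at h2
      have h3 : ∏ l, v ((D.M l).eval₂ (cO g) (yO g l)) <
          ∏ l, v ((D.N l).eval₂ (cO g) (yO g l)) := by
        refine Finset.prod_lt_prod (fun l _ => ?_) (fun l _ => hcon l) ⟨l0, Finset.mem_univ _, h0⟩
        exact (zero_lt_iff.2 ((Valuation.ne_zero_iff v).2 (M_ne_zero g l)))
      exact absurd h2 (not_le.2 h3)
    obtain ⟨m, hm, h1⟩ := (H l1).zero (cO g) v (j l1) (B_ne_zero g l1 _) hl1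
    refine Pool.Agent.TH826.MK.mem_unitPart_of_pow v l1 a hm ?_
    rw [← map_ent] at h1
    exact h1

theorem symb_unramified (H : ∀ l, Tors (D.N l) (D.M l) (D.A l) (D.B l)) (hlam : IsIntegral ℤ lam)
    (j : ∀ l, Fin (k l)) :
    KQ.map (n + 1) g (symb (D.ent lam j)) ∈ Unramified L (n + 1) := by
  rw [KQ.map_symb]
  unfold Unramified
  simp only [Submodule.mem_iInf]
  intro v _
  exact val_symb g H hlam v j

end unram

end Pool.Agent.U759.TQ
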