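import Pool.Agent.U759.TQ.Tor
import Pool.Agent.U759.TQ.Unram
import Pool.Agent.U759.TQ.Branch
import Pool.Agent.U759.TP.Reg
set_option autoImplicit false

/-!
The regulators of the symbols on the hypersurface `∏_l φ_l(z_l) = λ` are linearly independent for all
large `λ`.
-/

namespace Pool.Agent.U759.TQ

open Polynomial Filter Topology Set

open Pool.Agent.TH826.MK (Torus symb pairing wd One vf Good good_prod)

open Pool.Agent.U759.TP (cir cir_add_one contDiff_cir norm_cir_sub contDiff_eval_real exists_eps)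

variable {K : Type*} [Field K]

theorem Tors.N_ne {κ : ℕ} {N M : K[X]} {A B : Fin κ → K[X]} (H : Tors N M A B) (σ : K →+* ℂ)
    {b : ℂ} {j : Fin κ} (hA : ((A j).map σ).eval b = 0) : (N.map σ).eval b ≠ 0 := by
  intro hN
  obtain ⟨m, s, hm, q, hq⟩ := H.tors j
  obtain ⟨u, v, -, -, huv⟩ := H.uni j
  have h1 := congrArg (fun p => (p.map σ).eval b) hq
  simp only [Polynomial.map_pow, Polynomial.map_sub, Polynomial.map_mul, eval_pow, eval_sub,
    eval_mul, hA, hN, zero_mul, zero_pow hm, zero_sub] at h1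
  have h2 : ((B j).map σ).eval b = 0 := by
    have h3 := eq_zero_of_pow_eq_zero h1
    rw [neg_eq_zero] at h3
    exact eq_zero_of_pow_eq_zero h3
  have h4 := congrArg (fun p => (p.map σ).eval b) huv
  simp only [Polynomial.map_add, Polynomial.map_mul, Polynomial.map_one, eval_add, eval_mul,
    eval_one, hN, h2, mul_zero, add_zero] at h4
  exact zero_ne_one h4

theorem coprime_ne (σ : K →+* ℂ) {p q : K[X]} (h : IsCoprime p q) {b : ℂ}
    (hp : (p.map σ).eval b = 0) : (q.map σ).eval b ≠ 0 := by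
  intro hq
  obtain ⟨u, v, huv⟩ := h
  have h1 := congrArg (fun p => (p.map σ).eval b) huv
  simp only [Polynomial.map_add, Polynomial.map_mul, Polynomial.map_one, eval_add, eval_mul,
    eval_one, hp, hq, mul_zero, add_zero] at h1
  exact zero_ne_one h1

variable {n : ℕ} {k : Fin (n + 1) → ℕ} {D : Dat K n k}

/-- The conditions on the zeros of the `A_(l,j)`: for fixed `l` the `A_(l,j)` are not constant, pairwise
coprime and coprime to the `B_(l,j)`, and the zeros of the `A_(0,j)` are simple zeros of `M_0`. -/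
structure Poles (D : Dat K n k) : Prop where
  pos : ∀ l j, 0 < (D.A l j).natDegree
  copA : ∀ l i j, i ≠ j → IsCoprime (D.A l i) (D.A l j)
  copB : ∀ l i j, IsCoprime (D.A l i) (D.B l j)
  simple : ∀ j, IsCoprime (D.A 0 j) (derivative (D.M 0))

theorem R_ne (H : ∀ l, Tors (D.N l) (D.M l) (D.A l) (D.B l)) (l : Fin (n + 1)) : D.R l ≠ 0 :=
  mul_ne_zero (H l).M_ne (Finset.prod_ne_zero_iff.2 fun j _ =>
    mul_ne_zero ((H l).monicA j).ne_zero ((H l).monicB j).ne_zero)

theorem exists_tori (σ : K →+* ℂ) (H : ∀ l, Tors (D.N l) (D.M l) (D.A l) (D.B l))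
    (P : Poles D) :
    ∃ C : ℝ, ∀ lam : K, C ≤ ‖σ lam‖ → ∃ Γ : (∀ l, Fin (k l)) → Torus (D.Open lam) n,
      (∀ t θ a, (Γ t).e θ (D.cst lam a) = σ a) ∧
      (Matrix.of fun t s : (∀ l, Fin (k l)) => (Γ t).reg (symb (D.ent lam s))).det ≠ 0 := by
  classical
  have hev : ∀ (p : K[X]) (z : ℂ), p.eval₂ σ z = (p.map σ).eval z := fun p z =>
    (eval_map σ z).symm
  have hroot : ∀ l (j : Fin (k l)), ∃ β, ((D.A l j).map σ).eval β = 0 := by
    intro l j
    refine IsAlgClosed.exists_root _ ?_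
    rw [degree_map, degree_eq_natDegree ((H l).monicA j).ne_zero]
    exact_mod_cast (P.pos l j).ne'
  choose β hβ using hroot
  set Q : Fin (n + 1) → ℂ[X] := fun l => (D.N l).map σ * (D.R l).map σ with hQdef
  have hQ0 : ∀ l, Q l ≠ 0 := fun l => mul_ne_zero ((H l).monicN.map σ).ne_zero
    ((Polynomial.map_ne_zero_iff σ.injective).2 (R_ne H l))
  choose ε hε hεQ using fun l (j : Fin (k l)) => exists_eps (hQ0 l) (β l j)
  have hQN : ∀ l a, ((D.N l).map σ).eval a = 0 → (Q l).eval a = 0 := fun l a ha => by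
    rw [hQdef]
    simp only
    rw [eval_mul, ha, zero_mul]
  have hQR : ∀ l (p : K[X]), p ∣ D.R l → ∀ a, (p.map σ).eval a = 0 → (Q l).eval a = 0 := by
    intro l p hp a ha
    obtain ⟨q, hq⟩ := hp
    rw [hQdef]
    simp only
    rw [eval_mul, hq, Polynomial.map_mul, eval_mul, ha, zero_mul, mul_zero]
  have hoff : ∀ l (j : Fin (k l)) a, (Q l).eval a = 0 → ‖a - β l j‖ ≠ ε l j := by
    intro l j a ha h
    by_cases hab : a = β l j
    · rw [hab, sub_self, norm_zero] at h
      exact (hε l j).ne h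
    · exact (hεQ l j a ha hab).ne' h
  have hcir : ∀ l (a : Fin (k l)) s, (Q l).eval (cir (β l a) (ε l a) s) ≠ 0 := by
    intro l a s h
    exact hoff l a _ h (norm_cir_sub (hε l a).le s)
  have hcN : ∀ l (a : Fin (k l)) s, ((D.N l).map σ).eval (cir (β l a) (ε l a) s) ≠ 0 :=
    fun l a s h => hcir l a s (hQN l _ h)
  have hcR : ∀ l (a : Fin (k l)) s (p : K[X]), p ∣ D.R l →
      (p.map σ).eval (cir (β l a) (ε l a) s) ≠ 0 :=
    fun l a s p hp h => hcir l a s (hQR l p hp _ h)
  have hMR : ∀ l, D.M l ∣ D.R l := fun l => Dvd.intro _ rfl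
  -- the functions on the circles
  set WA : ∀ l, Fin (k l) → Fin (k l) → ℝ := fun l a j =>
    (((D.A l j).map σ).roots.map fun r => wd (ε l a) (r - β l a)).sum with hWA
  set WB : ∀ l, Fin (k l) → Fin (k l) → ℝ := fun l a j =>
    (((D.B l j).map σ).roots.map fun r => wd (ε l a) (r - β l a)).sum with hWB
  set F : ∀ l, Fin (k l) → Fin (k l) → ℝ → ℂ := fun l a j s =>
    ((D.A l j).map σ).eval (cir (β l a) (ε l a) s) /
      ((D.B l j).map σ).eval (cir (β l a) (ε l a) s) with hF
  have oneF : ∀ l a j, One (F l a j) (WA l a j - WB l a j) := fun l a j =>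
    (one_poly (hε l a) (((H l).monicA j).map σ) fun r hr =>
      hoff l a r (hQR l _ (D.A_dvd l j) r hr)).div
      (one_poly (hε l a) (((H l).monicB j).map σ) fun r hr =>
        hoff l a r (hQR l _ (D.B_dvd l j) r hr))
  have hWB0 : ∀ l a j, WB l a j = 0 := by
    intro l a j
    refine sum_wd_zero fun r hr => hεQ l a r (hQR l _ (D.B_dvd l j) r hr) ?_
    rintro rfl
    exact coprime_ne σ (P.copB l a j) (hβ l a) hr
  have hWA0 : ∀ l a j, j ≠ a → WA l a j = 0 := by
    intro l a j hj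
    refine sum_wd_zero fun r hr => hεQ l a r (hQR l _ (D.A_dvd l j) r hr) ?_
    rintro rfl
    exact coprime_ne σ (P.copA l j a hj) hr (hβ l a)
  have hWA1 : ∀ l a, 1 ≤ WA l a a := fun l a =>
    one_le_sum_wd (hε l a) (((H l).monicA a).map σ) (hβ l a)
  set U : ∀ l, Fin (k l) → ℝ → ℂ := fun l a s => ((D.N l).map σ).eval (cir (β l a) (ε l a) s) /
    ((D.M l).map σ).eval (cir (β l a) (ε l a) s) with hU
  have cU : ∀ l a, ContDiff ℝ 2 (U l a) := by
    intro l a
    have h1 : ContDiff ℝ 2 fun s => ((D.N l).map σ).eval (cir (β l a) (ε l a) s) :=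
      (contDiff_eval_real _).comp contDiff_cir
    have h2 : ContDiff ℝ 2 fun s => ((D.M l).map σ).eval (cir (β l a) (ε l a) s) :=
      (contDiff_eval_real _).comp contDiff_cir
    have e : U l a = fun s => ((D.N l).map σ).eval (cir (β l a) (ε l a) s) *
        (((D.M l).map σ).eval (cir (β l a) (ε l a) s))⁻¹ := by
      funext s
      simp only [hU]
      rw [div_eq_mul_inv]
    rw [e]
    exact h1.mul (h2.inv fun s => hcR l a s _ (hMR l))
  have pU : ∀ l a s, U l a (s + 1) = U l a s := by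
    intro l a s
    simp only [hU, cir_add_one]
  have nU : ∀ l a s, U l a s ≠ 0 := fun l a s =>
    div_ne_zero (hcN l a s) (hcR l a s _ (hMR l))
  have hT' : ∀ l (a : Fin (k l)), ∃ T : ℝ, ∀ s, ‖U l a s‖ ≤ T := by
    intro l a
    have hp : Function.Periodic (U l a) 1 := fun s => pU l a s
    obtain ⟨T, hT⟩ := (hp.isBounded_of_continuous one_ne_zero
      (cU l a).continuous).exists_norm_le
    exact ⟨T, fun s => hT _ (mem_range_self s)⟩
  choose T' hT' using hT'
  set V : (∀ l, Fin (k l)) → (Fin n → ℝ) → ℂ := fun t θ => ∏ l : Fin n,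
    U l.succ (t l.succ) (θ l) with hV
  have gV : ∀ t, Good (V t) := fun t => good_prod Finset.univ fun l =>
    ⟨(cU l.succ (t l.succ)).comp (contDiff_apply ℝ ℝ l), fun θ => nU _ _ _⟩
  set T : (∀ l, Fin (k l)) → ℝ := fun t => 1 + ∏ l : Fin n, |T' l.succ (t l.succ)| with hT
  have hT1 : ∀ t, 1 ≤ T t := fun t => by
    have : 0 ≤ ∏ l : Fin n, |T' l.succ (t l.succ)| := Finset.prod_nonneg fun _ _ => abs_nonneg _
    simp only [hT]
    linarith
  have hVT : ∀ t θ, ‖V t θ‖ ≤ T t := by
    intro t θ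
    have h1 : ‖V t θ‖ ≤ ∏ l : Fin n, |T' l.succ (t l.succ)| := by
      simp only [hV]
      rw [norm_prod]
      exact Finset.prod_le_prod (fun _ _ => norm_nonneg _) fun l _ =>
        (hT' l.succ (t l.succ) (θ l)).trans (le_abs_self _)
    simp only [hT]
    linarith
  -- the branches
  have hM0 : ∀ i : Fin (k 0), ((D.M 0).map σ).eval (β 0 i) = 0 := by
    intro i
    obtain ⟨s, q, hq⟩ := (H 0).dvdA i
    have h1 := congrArg (fun p => (p.map σ).eval (β 0 i)) hq
    simp only [Polynomial.map_pow, Polynomial.map_mul, eval_pow, eval_mul, hβ 0 i,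
      zero_mul] at h1
    exact eq_zero_of_pow_eq_zero h1
  have hM1 : ∀ i : Fin (k 0), (derivative ((D.M 0).map σ)).eval (β 0 i) ≠ 0 := by
    intro i
    rw [derivative_map]
    exact coprime_ne σ (P.simple i) (hβ 0 i)
  choose δ ψ e Φ hδ he hψ using fun i => exists_branch ((D.N 0).map σ) ((D.M 0).map σ)
    (fun m => (D.A 0 m).map σ) (fun m => (D.B 0 m).map σ) i (hM0 i) (hM1 i)
    ((H 0).N_ne σ (hβ 0 i)) (((H 0).monicA i).map σ).ne_zero (hβ 0 i)
    (fun m hm => fun h => coprime_ne σ (P.copA 0 m i hm) h (hβ 0 i))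
    (fun m => coprime_ne σ (P.copB 0 i m) (hβ 0 i))
  have hasy := fun t s : (∀ l, Fin (k l)) => pairing_asymp (hδ (t 0))
    (Φ := Φ (t 0) (s 0)) (fun w hw => ⟨((hψ (t 0) w hw).2.2.2 (s 0)).2.1,
      ((hψ (t 0) w hw).2.2.2 (s 0)).2.2.1⟩)
    (F := fun l : Fin n => F l.succ (t l.succ) (s l.succ))
    (fun l => oneF l.succ (t l.succ) (s l.succ)) (gV t) (hT1 t) (hVT t)
    (if s 0 = t 0 then e (t 0) else 0)
  choose c hc0 hc using hasy
  set B : ℝ := ∑ t, ∑ s, c t s with hB
  have hcB : ∀ t s, c t s ≤ B := fun t s =>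
    (Finset.single_le_sum (f := fun s => c t s) (fun s _ => hc0 t s) (Finset.mem_univ s)).trans
      (Finset.single_le_sum (f := fun t => ∑ s, c t s)
        (fun t _ => Finset.sum_nonneg fun s _ => hc0 t s) (Finset.mem_univ t))
  have hB0 : 0 ≤ B := Finset.sum_nonneg fun t _ => Finset.sum_nonneg fun s _ => hc0 t s
  set S : ℝ := ∑ t : (∀ l, Fin (k l)), 2 * T t / δ (t 0) with hS
  have hST : ∀ t, 2 * T t / δ (t 0) ≤ S := fun t =>
    Finset.single_le_sum (f := fun t : (∀ l, Fin (k l)) => 2 * T t / δ (t 0)) (fun t _ => by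
      have h1 := hT1 t
      have h2 := hδ (t 0)
      positivity) (Finset.mem_univ t)
  set R : ℝ := 1 + (Fintype.card (∀ l, Fin (k l)) + 1) * B with hR
  refine ⟨max (max 1 S) (Real.exp R), fun lam hlam => ?_⟩
  have hl1 : 1 ≤ ‖σ lam‖ := ((le_max_left _ _).trans (le_max_left _ _)).trans hlam
  have hl2 : S ≤ ‖σ lam‖ := ((le_max_right _ _).trans (le_max_left _ _)).trans hlam
  have hl3 : Real.exp R ≤ ‖σ lam‖ := (le_max_right _ _).trans hlam
  have hlpos : 0 < ‖σ lam‖ := by linarith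
  have hl0 : σ lam ≠ 0 := norm_pos_iff.1 hlpos
  set w : ℂ := (σ lam)⁻¹ with hw
  have hw0 : w ≠ 0 := inv_ne_zero hl0
  have hwT : ∀ t, ‖w‖ * T t ≤ δ (t 0) / 2 := by
    intro t
    have h1 := (hST t).trans hl2
    rw [hw, norm_inv, inv_mul_le_iff₀ hlpos]
    rw [div_le_iff₀ (hδ (t 0))] at h1
    linarith
  have hlog : R ≤ -Real.log ‖w‖ := by
    rw [hw, norm_inv, Real.log_inv, neg_neg]
    exact (Real.le_log_iff_exp_le hlpos).2 hl3
  have hlt : ∀ t θ, ‖w * V t θ‖ < δ (t 0) := by
    intro t θ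
    rw [norm_mul]
    have h1 := mul_le_mul_of_nonneg_left (hVT t θ) (norm_nonneg w)
    have h2 := hwT t
    have h3 := hδ (t 0)
    linarith
  -- the points
  set Z : (∀ l, Fin (k l)) → Fin n → ℝ → ℂ := fun t l s =>
    cir (β l.succ (t l.succ)) (ε l.succ (t l.succ)) s with hZ
  have hcX : ∀ t, ContDiff ℝ 2 fun θ => ψ (t 0) (w * V t θ) := by
    intro t
    rw [contDiff_iff_contDiffAt]
    intro θ
    have h1 : ContDiff ℝ 2 fun θ => w * V t θ := contDiff_const.mul (gV t).smooth
    exact ((hψ (t 0) _ (hlt t θ)).1.restrict_scalars ℝ).comp θ h1.contDiffAt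
  have hY : ∀ t, ContDiff ℝ 2 fun θ : Fin n → ℝ => (Fin.cons (ψ (t 0) (w * V t θ))
      fun l => Z t l (θ l) : Fin (n + 1) → ℂ) := by
    intro t
    rw [contDiff_pi]
    intro l
    refine Fin.cases ?_ (fun l => ?_) l
    · exact hcX t
    · exact contDiff_cir.comp (contDiff_apply ℝ ℝ l)
  have hVper : ∀ t θ i, V t (θ + Pi.single i 1) = V t θ := by
    intro t θ i
    simp only [hV]
    refine Finset.prod_congr rfl fun l _ => ?_
    by_cases hl : l = i
    · subst hl
      rw [Pi.add_apply, Pi.single_eq_same, pU]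
    · rw [Pi.add_apply, Pi.single_eq_of_ne hl, add_zero]
  have hper : ∀ t (θ : Fin n → ℝ) i, (Fin.cons (ψ (t 0) (w * V t (θ + Pi.single i 1)))
      (fun l => Z t l ((θ + Pi.single i 1 : Fin n → ℝ) l)) : Fin (n + 1) → ℂ) =
        Fin.cons (ψ (t 0) (w * V t θ)) fun l => Z t l (θ l) := by
    intro t θ i
    rw [hVper]
    congr 1
    funext l
    simp only [hZ]
    by_cases hl : l = i
    · subst hl
      rw [Pi.add_apply, Pi.single_eq_same, cir_add_one]
    · rw [Pi.add_apply, Pi.single_eq_of_ne hl, add_zero]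
  have hP : ∀ t θ, PtS σ D lam (Fin.cons (ψ (t 0) (w * V t θ)) fun l => Z t l (θ l)) := by
    intro t θ
    obtain ⟨h1, h2, h3, h4⟩ := hψ (t 0) _ (hlt t θ)
    have hwV : w * V t θ ≠ 0 := mul_ne_zero hw0 ((gV t).ne_zero θ)
    refine ⟨?_, fun l => ?_⟩
    · rw [Fin.prod_univ_succ, Fin.prod_univ_succ]
      simp only [Fin.cons_zero, Fin.cons_succ, hev]
      rw [h2]
      have h5 : V t θ * ∏ l : Fin n, ((D.M l.succ).map σ).eval (Z t l (θ l)) =
          ∏ l : Fin n, ((D.N l.succ).map σ).eval (Z t l (θ l)) := by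
        simp only [hV]
        rw [← Finset.prod_mul_distrib]
        refine Finset.prod_congr rfl fun l _ => ?_
        simp only [hU, hZ]
        exact div_mul_cancel₀ _ (hcR _ _ _ _ (hMR _))
      rw [← h5]
      have h6 : σ lam * w = 1 := by rw [hw, mul_inv_cancel₀ hl0]
      linear_combination (-(V t θ * ((D.N 0).map σ).eval (ψ (t 0) (w * V t θ)) *
        ∏ l : Fin n, ((D.M l.succ).map σ).eval (Z t l (θ l)))) * h6
    · refine Fin.cases ?_ (fun l => ?_) l
      · simp only [Fin.cons_zero, hev]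
        unfold Dat.R
        rw [Polynomial.map_mul, eval_mul, Polynomial.map_prod, eval_prod]
        refine mul_ne_zero ?_ (Finset.prod_ne_zero_iff.2 fun m _ => ?_)
        · rw [h2]
          exact mul_ne_zero hwV h3
        · rw [Polynomial.map_mul, eval_mul]
          refine mul_ne_zero (fun h => ?_) (h4 m).1
          have h7 := (h4 m).2.2.2
          rw [h, zero_div] at h7
          exact (mul_ne_zero (pow_ne_zero _ hwV) (h4 m).2.2.1) h7.symm
      · simp only [Fin.cons_succ, hev, hZ]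
        exact hcR _ _ _ _ (dvd_refl _)
  refine ⟨fun t => mkS (hY t) (hper t) (hP t), fun t θ a => ?_, ?_⟩
  · rw [mkS_e, PtS.evA_cst]
  · set A : Matrix (∀ l, Fin (k l)) (∀ l, Fin (k l)) ℝ := Matrix.of fun t s =>
      (mkS (hY t) (hper t) (hP t)).reg (symb (D.ent lam s)) with hA
    have hAe : ∀ t s, |A t s - ((if s 0 = t 0 then e (t 0) else 0 : ℕ) : ℝ) *
        ((2 * Real.pi) ^ n * Real.log ‖w‖ * ∏ l : Fin n,
          (WA l.succ (t l.succ) (s l.succ) - WB l.succ (t l.succ) (s l.succ)))| ≤ B := by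
      intro t s
      have h1 := ((hc t s) w hw0 (hwT t)).2
      have h2 : A t s = pairing (Fin.cons (fun θ => (w * V t θ) ^ (if s 0 = t 0 then e (t 0)
          else 0) * Φ (t 0) (s 0) (w * V t θ))
          (vf fun l : Fin n => F l.succ (t l.succ) (s l.succ))) := by
        rw [hA, Matrix.of_apply, mkS_reg]
        congr 2
        · funext θ
          rw [hev, hev]
          exact ((hψ (t 0) _ (hlt t θ)).2.2.2 (s 0)).2.2.2
        · simp only [hF, hZ, hev]
      rw [h2]
      exact h1.trans (hcB t s)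
    refine det_ne_zero_of_sum_row_lt_diag fun t => ?_
    have hoffd : ∀ s ∈ Finset.univ.erase t, ‖A t s‖ ≤ B := by
      intro s hs
      have hne := Finset.ne_of_mem_erase hs
      have h1 := hAe t s
      have h2 : ((if s 0 = t 0 then e (t 0) else 0 : ℕ) : ℝ) *
        ((2 * Real.pi) ^ n * Real.log ‖w‖ * ∏ l : Fin n,
          (WA l.succ (t l.succ) (s l.succ) - WB l.succ (t l.succ) (s l.succ))) = 0 := by
        by_cases h0 : s 0 = t 0
        · obtain ⟨l, hl⟩ : ∃ l : Fin n, s l.succ ≠ t l.succ := by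
            by_contra hcon
            push Not at hcon
            refine hne (funext fun l => ?_)
            refine Fin.cases h0 (fun l => hcon l) l
          rw [Finset.prod_eq_zero (Finset.mem_univ l) (by rw [hWA0 _ _ _ hl, hWB0, sub_zero]),
            mul_zero, mul_zero]
        · rw [if_neg h0, Nat.cast_zero, zero_mul]
      rw [h2, sub_zero] at h1
      rw [Real.norm_eq_abs]
      exact h1
    have hsum : ∑ s ∈ Finset.univ.erase t, ‖A t s‖ ≤ Fintype.card (∀ l, Fin (k l)) * B := by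
      refine (Finset.sum_le_card_nsmul _ _ _ hoffd).trans ?_
      rw [nsmul_eq_mul]
      refine mul_le_mul_of_nonneg_right ?_ hB0
      exact_mod_cast Finset.card_le_univ _
    refine hsum.trans_lt ?_
    have h1 := hAe t t
    rw [if_pos rfl] at h1
    have h2 : 1 ≤ ∏ l : Fin n, (WA l.succ (t l.succ) (t l.succ) -
        WB l.succ (t l.succ) (t l.succ)) := by
      refine Finset.one_le_prod fun l _ => ?_
      rw [hWB0, sub_zero]
      exact hWA1 _ _
    have h3 : (1 : ℝ) ≤ e (t 0) := by exact_mod_cast Nat.one_le_iff_ne_zero.2 (he (t 0))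
    have h4 : (1 : ℝ) ≤ (2 * Real.pi) ^ n := one_le_pow₀ (by linarith [Real.pi_gt_three])
    have h5 : 0 < R := by
      rw [hR]
      positivity
    have h6 : R ≤ e (t 0) * ((2 * Real.pi) ^ n * -Real.log ‖w‖ * ∏ l : Fin n,
        (WA l.succ (t l.succ) (t l.succ) - WB l.succ (t l.succ) (t l.succ))) := by
      have h7 : R ≤ (2 * Real.pi) ^ n * -Real.log ‖w‖ := by nlinarith
      have h8 : R ≤ (2 * Real.pi) ^ n * -Real.log ‖w‖ * ∏ l : Fin n,
        (WA l.succ (t l.succ) (t l.succ) - WB l.succ (t l.succ) (t l.succ)) := by nlinarith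
      nlinarith
    have h7 : R - B ≤ ‖A t t‖ := by
      rw [Real.norm_eq_abs]
      have h8 := neg_le_abs (A t t)
      have h9 := (abs_le.1 h1).2
      have h10 : (e (t 0) : ℝ) * ((2 * Real.pi) ^ n * Real.log ‖w‖ * ∏ l : Fin n,
          (WA l.succ (t l.succ) (t l.succ) - WB l.succ (t l.succ) (t l.succ))) =
          -(e (t 0) * ((2 * Real.pi) ^ n * -Real.log ‖w‖ * ∏ l : Fin n,
          (WA l.succ (t l.succ) (t l.succ) - WB l.succ (t l.succ) (t l.succ)))) := by ring
      rw [h10] at h9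
      linarith
    have h8 : R = 1 + Fintype.card (∀ l, Fin (k l)) * B + B := by
      rw [hR]
      ring
    linarith

end Pool.Agent.U759.TQ
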