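import Pool.Agent.TH826.MK.Milnor
import Pool.Agent.TH826.MK.Variety
set_option autoImplicit false

/-!
Hypersurfaces `∏_l φ_l(z_l) = λ` of dimension `n`, `φ_l = N_l / M_l`, `0 ≤ l ≤ n`, with functions
`A_(l,j)(z_l) / B_(l,j)(z_l)`: the coordinate ring, its open part, and the symbols.
-/

namespace Pool.Agent.U759.TQ

open scoped WithZero

open Polynomial

open Pool.Agent.TH826.MK (KQ symb unitPart Unramified)

/-- The polynomials `N_l, M_l, A_(l,j), B_(l,j)`, `0 ≤ l ≤ n`, `1 ≤ j ≤ k_l`. -/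
structure Dat (K : Type*) [Field K] (n : ℕ) (k : Fin (n + 1) → ℕ) where
  /-- the numerator of `φ_l` -/
  N : Fin (n + 1) → K[X]
  /-- the denominator of `φ_l` -/
  M : Fin (n + 1) → K[X]
  /-- the numerators of the functions of `z_l` -/
  A : ∀ l, Fin (k l) → K[X]
  /-- the denominators of the functions of `z_l` -/
  B : ∀ l, Fin (k l) → K[X]

section Ring

variable {K : Type*} [Field K] {n : ℕ} {k : Fin (n + 1) → ℕ} (D : Dat K n k) (lam : K)

/-- The polynomials in `z_l` as polynomials in `z_0, ..., z_n`. -/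
noncomputable def mp {K : Type*} [Field K] {n : ℕ} (l : Fin (n + 1)) :
    K[X] →+* MvPolynomial (Fin (n + 1)) K :=
  Polynomial.eval₂RingHom MvPolynomial.C (MvPolynomial.X l)

/-- The polynomial `∏_l N_l(z_l) - λ ∏_l M_l(z_l)`. -/
noncomputable def Dat.eqn : MvPolynomial (Fin (n + 1)) K :=
  ∏ l, mp l (D.N l) - MvPolynomial.C lam * ∏ l, mp l (D.M l)

/-- The coordinate ring `K[z_0, ..., z_n] / (∏_l N_l(z_l) - λ ∏_l M_l(z_l))`. -/
def Dat.CRing : Type _ := MvPolynomial (Fin (n + 1)) K ⧸ Ideal.span {D.eqn lam}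

noncomputable instance : CommRing (D.CRing lam) := Ideal.Quotient.commRing _

/-- The polynomials as functions on the hypersurface. -/
noncomputable def Dat.mk' : MvPolynomial (Fin (n + 1)) K →+* D.CRing lam :=
  Ideal.Quotient.mk (Ideal.span {D.eqn lam})

/-- The polynomials in `z_l` as functions on the hypersurface. -/
noncomputable def Dat.pol (l : Fin (n + 1)) : K[X] →+* D.CRing lam := (D.mk' lam).comp (mp l)

theorem Dat.mk'_surjective : Function.Surjective (D.mk' lam) := Ideal.Quotient.mk_surjective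

theorem Dat.mk'_eqn : D.mk' lam (D.eqn lam) = 0 :=
  Ideal.Quotient.eq_zero_iff_mem.2 (Ideal.subset_span rfl)

theorem Dat.rel : ∏ l, D.pol lam l (D.N l) =
    D.mk' lam (MvPolynomial.C lam) * ∏ l, D.pol lam l (D.M l) := by
  have h := D.mk'_eqn lam
  unfold Dat.eqn at h
  rw [map_sub (D.mk' lam), map_mul (D.mk' lam), sub_eq_zero, map_prod, map_prod] at h
  exact h

/-- The polynomial `M_l ∏_j A_(l,j) B_(l,j)`. -/
noncomputable def Dat.R (l : Fin (n + 1)) : K[X] := D.M l * ∏ j, (D.A l j * D.B l j)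

/-- The function `Δ = ∏_l M_l(z_l) ∏_(l,j) A_(l,j)(z_l) B_(l,j)(z_l)`. -/
noncomputable def Dat.Del : D.CRing lam := ∏ l, D.pol lam l (D.R l)

/-- The coordinate ring of the open part `Δ ≠ 0` of the hypersurface. -/
abbrev Dat.Open : Type _ := Localization.Away (D.Del lam)

/-- The restriction of functions to the open part. -/
noncomputable def Dat.toO : D.CRing lam →+* D.Open lam := algebraMap _ _

/-- The constants. -/
noncomputable def Dat.cst : K →+* D.Open lam :=
  (D.toO lam).comp ((D.mk' lam).comp MvPolynomial.C)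

theorem Dat.isUnit_Del : IsUnit (D.toO lam (D.Del lam)) :=
  IsLocalization.Away.algebraMap_isUnit (D.Del lam)

theorem Dat.isUnit_R {l : Fin (n + 1)} {p : K[X]} (hp : p ∣ D.R l) :
    IsUnit (D.toO lam (D.pol lam l p)) := by
  refine isUnit_of_dvd_unit (_root_.map_dvd _ ?_) (D.isUnit_Del lam)
  exact (_root_.map_dvd _ hp).trans (Finset.dvd_prod_of_mem _ (Finset.mem_univ l))

theorem Dat.A_dvd (l : Fin (n + 1)) (j : Fin (k l)) : D.A l j ∣ D.R l :=
  Dvd.dvd.mul_left ((Dvd.intro _ rfl).trans (Finset.dvd_prod_of_mem _ (Finset.mem_univ j))) _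

theorem Dat.B_dvd (l : Fin (n + 1)) (j : Fin (k l)) : D.B l j ∣ D.R l :=
  Dvd.dvd.mul_left ((Dvd.intro_left _ rfl).trans
    (Finset.dvd_prod_of_mem (fun j => D.A l j * D.B l j) (Finset.mem_univ j))) _

/-- The unit `A_(l,j)(z_l)`. -/
noncomputable def Dat.uA (l : Fin (n + 1)) (j : Fin (k l)) : (D.Open lam)ˣ :=
  (D.isUnit_R lam (D.A_dvd l j)).unit

/-- The unit `B_(l,j)(z_l)`. -/
noncomputable def Dat.uB (l : Fin (n + 1)) (j : Fin (k l)) : (D.Open lam)ˣ :=
  (D.isUnit_R lam (D.B_dvd l j)).unit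

theorem Dat.coe_uA (l : Fin (n + 1)) (j : Fin (k l)) :
    (D.uA lam l j : D.Open lam) = D.toO lam (D.pol lam l (D.A l j)) := rfl

theorem Dat.coe_uB (l : Fin (n + 1)) (j : Fin (k l)) :
    (D.uB lam l j : D.Open lam) = D.toO lam (D.pol lam l (D.B l j)) := rfl

/-- The entries `A_(l,j_l)(z_l) / B_(l,j_l)(z_l)`, `0 ≤ l ≤ n`, of the symbol with the index
`j = (j_0, ..., j_n)`. -/
noncomputable def Dat.ent (j : ∀ l, Fin (k l)) : Fin (n + 1) → (D.Open lam)ˣ :=
  fun l => D.uA lam l (j l) / D.uB lam l (j l)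

/-- The conditions on a torsion function `φ = N/M` with the functions `A_j/B_j`: all coefficients are
algebraic integers, `M ≠ 0`, `N`, the `A_j` and the `B_j` are monic, the zeros of the `A_j` and `B_j` are zeros
of `M`, the ideal generated by `N` and `B_j` is the unit ideal over the algebraic integers, `N` divides
a power of `A_j^m - B_j^m` for some `m ≥ 1`, and `M` is monic with `deg M < deg N`, or
`deg A_j = deg B_j` for all `j`. -/
structure Tors {κ : ℕ} (N M : K[X]) (A B : Fin κ → K[X]) : Prop where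
  monicN : N.Monic
  intN : ∀ i, IsIntegral ℤ (N.coeff i)
  intM : ∀ i, IsIntegral ℤ (M.coeff i)
  M_ne : M ≠ 0
  monicA : ∀ j, (A j).Monic
  intA : ∀ j i, IsIntegral ℤ ((A j).coeff i)
  monicB : ∀ j, (B j).Monic
  intB : ∀ j i, IsIntegral ℤ ((B j).coeff i)
  dvdA : ∀ j, ∃ s, A j ∣ M ^ s
  dvdB : ∀ j, ∃ s, B j ∣ M ^ s
  uni : ∀ j, ∃ a b : K[X], (∀ i, IsIntegral ℤ (a.coeff i)) ∧ (∀ i, IsIntegral ℤ (b.coeff i)) ∧
    a * N + b * B j = 1
  tors : ∀ j, ∃ m s : ℕ, m ≠ 0 ∧ N ∣ (A j ^ m - B j ^ m) ^ s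
  inf : (M.Monic ∧ M.natDegree < N.natDegree) ∨ ∀ j, (A j).natDegree = (B j).natDegree

end Ring

section Lift

variable {K : Type*} [Field K] {n : ℕ} {k : Fin (n + 1) → ℕ} {D : Dat K n k} {lam : K}
  {S : Type*} [Field S]

theorem eval_mp (c : K →+* S) (y : Fin (n + 1) → S) (l : Fin (n + 1)) (p : K[X]) :
    MvPolynomial.eval₂Hom c y (mp l p) = p.eval₂ c (y l) := by
  have h : (MvPolynomial.eval₂Hom c y).comp (mp l) = Polynomial.eval₂RingHom c (y l) := by
    refine Polynomial.ringHom_ext (fun a => ?_) ?_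
    · simp [mp]
    · simp [mp]
  exact congrArg (fun h : K[X] →+* S => h p) h

/-- The homomorphism on the coordinate ring of the hypersurface defined by a solution. -/
noncomputable def Dat.ev (c : K →+* S) (y : Fin (n + 1) → S)
    (h : ∏ l, (D.N l).eval₂ c (y l) = c lam * ∏ l, (D.M l).eval₂ c (y l)) : D.CRing lam →+* S :=
  Ideal.Quotient.lift (Ideal.span {D.eqn lam}) (MvPolynomial.eval₂Hom c y) (by
    intro a ha
    obtain ⟨b, rfl⟩ := Ideal.mem_span_singleton.1 ha
    rw [map_mul]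
    have h1 : MvPolynomial.eval₂Hom c y (D.eqn lam) = 0 := by
      unfold Dat.eqn
      rw [map_sub, map_mul, map_prod, map_prod]
      simp only [eval_mp]
      rw [h, MvPolynomial.coe_eval₂Hom, MvPolynomial.eval₂_C, sub_self]
    rw [h1, zero_mul])

variable (c : K →+* S) (y : Fin (n + 1) → S)
  (h : ∏ l, (D.N l).eval₂ c (y l) = c lam * ∏ l, (D.M l).eval₂ c (y l))

theorem Dat.ev_mk (p : MvPolynomial (Fin (n + 1)) K) :
    Dat.ev (D := D) c y h (D.mk' lam p) = MvPolynomial.eval₂Hom c y p :=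
  Ideal.Quotient.lift_mk _ _ _

theorem Dat.ev_pol (l : Fin (n + 1)) (p : K[X]) :
    Dat.ev (D := D) c y h (D.pol lam l p) = p.eval₂ c (y l) := by
  unfold Dat.pol
  rw [RingHom.comp_apply, Dat.ev_mk, eval_mp]

theorem Dat.ev_Del : Dat.ev (D := D) c y h (D.Del lam) = ∏ l, (D.R l).eval₂ c (y l) := by
  unfold Dat.Del
  rw [map_prod]
  simp only [Dat.ev_pol]

end Lift

end Pool.Agent.U759.TQ
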