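import Pool.Agent.U759.TQ.Reg
set_option autoImplicit false

/-!
The hypersurface `∏_l φ_l(z_l) = λ` is smooth for all large `λ`.
-/

namespace Pool.Agent.U759.TQ

open Polynomial

variable {K : Type*} [Field K] {n : ℕ} {k : Fin (n + 1) → ℕ} {D : Dat K n k}

/-- At all complex points over `σ` of the hypersurface at which no `M_l(z_l)` vanishes, some partial
derivative of the equation does not vanish. -/
def Smooth (σ : K →+* ℂ) (D : Dat K n k) (lam : K) : Prop :=
  ∀ y : Fin (n + 1) → ℂ,
    ∏ l, (D.N l).eval₂ σ (y l) = σ lam * ∏ l, (D.M l).eval₂ σ (y l) →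
    (∀ l, (D.M l).eval₂ σ (y l) ≠ 0) →
    ∃ l, MvPolynomial.eval₂Hom σ y (MvPolynomial.pderiv l (D.eqn lam)) ≠ 0

theorem mp_monomial (l : Fin (n + 1)) (s : ℕ) (a : K) :
    mp l (monomial s a) = MvPolynomial.C a * (MvPolynomial.X l : MvPolynomial (Fin (n + 1)) K) ^ s := by
  unfold mp
  rw [Polynomial.coe_eval₂RingHom, Polynomial.eval₂_monomial]

theorem pderiv_mp_self (l : Fin (n + 1)) (p : K[X]) :
    MvPolynomial.pderiv l (mp l p) = mp l (derivative p) := by
  induction p using Polynomial.induction_on' with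
  | add p q hp hq => rw [map_add, map_add, hp, hq, derivative_add, map_add]
  | monomial s a =>
    rw [mp_monomial, derivative_monomial, mp_monomial, MvPolynomial.pderiv_C_mul,
      Derivation.leibniz_pow, MvPolynomial.pderiv_X_self]
    simp only [smul_eq_mul, mul_one, nsmul_eq_mul, map_mul]
    rw [map_natCast]
    ring

theorem pderiv_mp_ne {i l : Fin (n + 1)} (h : i ≠ l) (p : K[X]) :
    MvPolynomial.pderiv i (mp l p) = 0 := by
  induction p using Polynomial.induction_on' with
  | add p q hp hq => rw [map_add, map_add, hp, hq, add_zero]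
  | monomial s a =>
    rw [mp_monomial, MvPolynomial.pderiv_C_mul, Derivation.leibniz_pow,
      MvPolynomial.pderiv_X_of_ne h.symm]
    simp

theorem pderiv_prod_zero {ι : Type*} (s : Finset ι) (i : Fin (n + 1))
    (g : ι → MvPolynomial (Fin (n + 1)) K) (h : ∀ l ∈ s, MvPolynomial.pderiv i (g l) = 0) :
    MvPolynomial.pderiv i (∏ l ∈ s, g l) = 0 := by
  classical
  induction s using Finset.induction_on with
  | empty => simp
  | insert a s ha ih =>
    rw [Finset.prod_insert ha, Derivation.leibniz, h a (Finset.mem_insert_self a s),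
      ih fun l hl => h l (Finset.mem_insert_of_mem hl), smul_zero, smul_zero, add_zero]

theorem pderiv_prod (i : Fin (n + 1)) (p : Fin (n + 1) → K[X]) :
    MvPolynomial.pderiv i (∏ l, mp l (p l)) =
      mp i (derivative (p i)) * ∏ l ∈ Finset.univ.erase i, mp l (p l) := by
  rw [← Finset.mul_prod_erase _ _ (Finset.mem_univ i), Derivation.leibniz, pderiv_mp_self,
    pderiv_prod_zero _ _ _ fun l hl => pderiv_mp_ne (Finset.ne_of_mem_erase hl).symm _,
    smul_zero, zero_add, smul_eq_mul, mul_comm]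

theorem eval_pderiv (σ : K →+* ℂ) (lam : K) (y : Fin (n + 1) → ℂ) (i : Fin (n + 1)) :
    MvPolynomial.eval₂Hom σ y (MvPolynomial.pderiv i (D.eqn lam)) =
      (derivative (D.N i)).eval₂ σ (y i) *
          ∏ l ∈ Finset.univ.erase i, (D.N l).eval₂ σ (y l) -
        σ lam * ((derivative (D.M i)).eval₂ σ (y i) *
          ∏ l ∈ Finset.univ.erase i, (D.M l).eval₂ σ (y l)) := by
  unfold Dat.eqn
  rw [map_sub, MvPolynomial.pderiv_C_mul, pderiv_prod, pderiv_prod,
    map_sub, map_mul, map_mul, map_mul, map_prod, map_prod]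
  simp only [eval_mp]
  rw [MvPolynomial.coe_eval₂Hom, MvPolynomial.eval₂_C]

/-- The critical polynomial of `φ_l`. -/
theorem crit_ne_zero (σ : K →+* ℂ) (H : ∀ l, Tors (D.N l) (D.M l) (D.A l) (D.B l)) (P : Poles D)
    (l : Fin (n + 1)) (j : Fin (k l)) :
    (derivative ((D.N l).map σ) * (D.M l).map σ -
      (D.N l).map σ * derivative ((D.M l).map σ)) ≠ 0 := by
  intro h
  obtain ⟨b, hb⟩ : ∃ β, ((D.A l j).map σ).eval β = 0 := by
    refine IsAlgClosed.exists_root _ ?_
    rw [degree_map, degree_eq_natDegree ((H l).monicA j).ne_zero]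
    exact_mod_cast (P.pos l j).ne'
  have hN := (H l).N_ne σ hb
  have hM0 : ((D.M l).map σ).eval b = 0 := by
    obtain ⟨s, q, hq⟩ := (H l).dvdA j
    have h1 := congrArg (fun p => (p.map σ).eval b) hq
    simp only [Polynomial.map_pow, Polynomial.map_mul, eval_pow, eval_mul, hb,
      zero_mul] at h1
    exact eq_zero_of_pow_eq_zero h1
  have hMn : (D.M l).map σ ≠ 0 := (Polynomial.map_ne_zero_iff σ.injective).2 (H l).M_ne
  set M := (D.M l).map σ with hM
  set N := (D.N l).map σ with hNd
  have hroot : M.IsRoot b := hM0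
  have hpos : 0 < rootMultiplicity b M := (rootMultiplicity_pos hMn).2 hroot
  have hder : derivative M ≠ 0 := by
    intro h1
    have h2 := derivative_eq_zero.1 h1
    have h3 := eq_C_of_natDegree_eq_zero h2
    rw [h3, eval_C] at hM0
    rw [hM0, C_0] at h3
    exact hMn h3
  have h1 : derivative N * M = N * derivative M := sub_eq_zero.1 h
  have h2 : (X - C b) ^ rootMultiplicity b M ∣ N * derivative M := by
    rw [← h1]
    exact Dvd.dvd.mul_left (pow_rootMultiplicity_dvd M b) _
  have hcop : IsCoprime ((X - C b) ^ rootMultiplicity b M) N := by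
    refine IsCoprime.pow_left ?_
    refine (irreducible_X_sub_C b).coprime_iff_not_dvd.2 fun h3 => hN ?_
    exact dvd_iff_isRoot.1 h3
  have h3 := hcop.dvd_of_dvd_mul_left h2
  have h4 := (le_rootMultiplicity_iff hder).2 h3
  rw [derivative_rootMultiplicity_of_root hroot] at h4
  omega

theorem exists_smooth (σ : K →+* ℂ) (H : ∀ l, Tors (D.N l) (D.M l) (D.A l) (D.B l))
    (P : Poles D) (hk : ∀ l, k l ≠ 0) :
    ∃ C : ℝ, ∀ lam : K, C ≤ ‖σ lam‖ → Smooth σ D lam := by
  classical
  have hev : ∀ (p : K[X]) (z : ℂ), p.eval₂ σ z = (p.map σ).eval z := fun p z =>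
    (eval_map σ z).symm
  set W : Fin (n + 1) → ℂ[X] := fun l => derivative ((D.N l).map σ) * (D.M l).map σ -
      (D.N l).map σ * derivative ((D.M l).map σ) with hW
  have hW0 : ∀ l, W l ≠ 0 := fun l => crit_ne_zero σ H P l ⟨0, Nat.pos_of_ne_zero (hk l)⟩
  have hb : ∀ l, ∃ T : ℝ, ∀ z, (W l).eval z = 0 →
      ‖((D.N l).map σ).eval z / ((D.M l).map σ).eval z‖ ≤ T := by
    intro l
    refine ⟨∑ a ∈ (W l).roots.toFinset,
      ‖((D.N l).map σ).eval a / ((D.M l).map σ).eval a‖, fun z hz => ?_⟩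
    refine Finset.single_le_sum (f := fun a =>
      ‖((D.N l).map σ).eval a / ((D.M l).map σ).eval a‖) (fun a _ => norm_nonneg _) ?_
    rw [Multiset.mem_toFinset]
    exact (mem_roots (hW0 l)).2 hz
  choose T hT using hb
  refine ⟨1 + ∏ l, |T l|, fun lam hlam y hy hM => ?_⟩
  by_contra hcon
  push Not at hcon
  have hp : 0 ≤ ∏ l, |T l| := Finset.prod_nonneg fun _ _ => abs_nonneg _
  have hl0 : σ lam ≠ 0 := by
    intro h
    rw [h, norm_zero] at hlam
    linarith
  have hM' : ∀ l, ((D.M l).map σ).eval (y l) ≠ 0 := fun l => by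
    rw [← hev]
    exact hM l
  have hMp : ∏ l, (D.M l).eval₂ σ (y l) ≠ 0 := Finset.prod_ne_zero_iff.2 fun l _ => hM l
  have hNp : ∏ l, (D.N l).eval₂ σ (y l) ≠ 0 := by
    rw [hy]
    exact mul_ne_zero hl0 hMp
  have hN : ∀ l, (D.N l).eval₂ σ (y l) ≠ 0 := fun l =>
    Finset.prod_ne_zero_iff.1 hNp l (Finset.mem_univ l)
  have hcrit : ∀ l, (W l).eval (y l) = 0 := by
    intro i
    have h1 := hcon i
    rw [eval_pderiv] at h1
    have h2 := Finset.mul_prod_erase Finset.univ (fun l => (D.N l).eval₂ σ (y l))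
      (Finset.mem_univ i)
    have h3 := Finset.mul_prod_erase Finset.univ (fun l => (D.M l).eval₂ σ (y l))
      (Finset.mem_univ i)
    set a := (D.N i).eval₂ σ (y i) with ha
    set b := (D.M i).eval₂ σ (y i) with hb
    set a' := (derivative (D.N i)).eval₂ σ (y i) with ha'
    set b' := (derivative (D.M i)).eval₂ σ (y i) with hb'
    set u := ∏ l ∈ Finset.univ.erase i, (D.N l).eval₂ σ (y l) with hu
    set v := ∏ l ∈ Finset.univ.erase i, (D.M l).eval₂ σ (y l) with hv
    have h4 : a * u = σ lam * (b * v) := by rw [h2, h3, hy]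
    have hu0 : u ≠ 0 := Finset.prod_ne_zero_iff.2 fun l _ => hN l
    have h5 : (a' * b - a * b') * u = 0 := by
      have h6 : a' * u = σ lam * (b' * v) := sub_eq_zero.1 h1
      have h7 : (a' * b - a * b') * u = b * (a' * u) - b' * (a * u) := by ring
      rw [h7, h6, h4]
      ring
    have h6 := (mul_eq_zero.1 h5).resolve_right hu0
    simp only [hW]
    rw [eval_sub, eval_mul, eval_mul, derivative_map, derivative_map, ← hev, ← hev, ← hev,
      ← hev]
    exact h6
  have h1 : σ lam = ∏ l, (((D.N l).map σ).eval (y l) / ((D.M l).map σ).eval (y l)) := by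
    rw [Finset.prod_div_distrib, eq_div_iff (Finset.prod_ne_zero_iff.2 fun l _ => hM' l)]
    simp only [← hev]
    exact hy.symm
  have h2 : ‖σ lam‖ ≤ ∏ l, |T l| := by
    rw [h1, norm_prod]
    exact Finset.prod_le_prod (fun _ _ => norm_nonneg _) fun l _ =>
      (hT l (y l) (hcrit l)).trans (le_abs_self _)
  linarith

end Pool.Agent.U759.TQ
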