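import Pool.Agent.U759.TQ.Ring
import Pool.Agent.U759.TQ.Pair
set_option autoImplicit false

/-!
Tori in the complex points of the open part of the hypersurface `∏_l φ_l(z_l) = λ`.
-/

namespace Pool.Agent.U759.TQ

open Polynomial

open Pool.Agent.TH826.MK (Torus symb pairing One vf Good)

variable {K : Type*} [Field K] {σ : K →+* ℂ} {n : ℕ} {k : Fin (n + 1) → ℕ} {D : Dat K n k}
  {lam : K}

/-- the points of the open part of the hypersurface -/
structure PtS (σ : K →+* ℂ) (D : Dat K n k) (lam : K) (y : Fin (n + 1) → ℂ) : Prop where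
  eq : ∏ l, (D.N l).eval₂ σ (y l) = σ lam * ∏ l, (D.M l).eval₂ σ (y l)
  ne : ∀ l, (D.R l).eval₂ σ (y l) ≠ 0

variable {y : Fin (n + 1) → ℂ}

theorem PtS.A_ne (h : PtS σ D lam y) (l : Fin (n + 1)) (j : Fin (k l)) :
    (D.A l j).eval₂ σ (y l) ≠ 0 := by
  obtain ⟨q, hq⟩ := D.A_dvd l j
  have h1 := h.ne l
  rw [hq, Polynomial.eval₂_mul] at h1
  exact left_ne_zero_of_mul h1

theorem PtS.B_ne (h : PtS σ D lam y) (l : Fin (n + 1)) (j : Fin (k l)) :
    (D.B l j).eval₂ σ (y l) ≠ 0 := by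
  obtain ⟨q, hq⟩ := D.B_dvd l j
  have h1 := h.ne l
  rw [hq, Polynomial.eval₂_mul] at h1
  exact left_ne_zero_of_mul h1

/-- evaluation of the regular functions on the hypersurface -/
noncomputable def PtS.evB (h : PtS σ D lam y) : D.CRing lam →+* ℂ := Dat.ev σ y h.eq

theorem PtS.evB_Del (h : PtS σ D lam y) : h.evB (D.Del lam) ≠ 0 := by
  unfold PtS.evB
  rw [Dat.ev_Del]
  exact Finset.prod_ne_zero_iff.2 fun l _ => h.ne l

/-- evaluation of the regular functions on the open part -/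
noncomputable def PtS.evA (h : PtS σ D lam y) : D.Open lam →+* ℂ :=
  IsLocalization.Away.lift (D.Del lam) (isUnit_iff_ne_zero.2 h.evB_Del)

theorem PtS.evA_toO (h : PtS σ D lam y) (a : D.CRing lam) : h.evA (D.toO lam a) = h.evB a :=
  IsLocalization.Away.lift_eq _ _ a

theorem PtS.evA_congr {y' : Fin (n + 1) → ℂ} (h : PtS σ D lam y) (h' : PtS σ D lam y')
    (e : y = y') : h.evA = h'.evA := by
  subst e
  rfl

theorem PtS.evA_cst (h : PtS σ D lam y) (a : K) : h.evA (D.cst lam a) = σ a := by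
  show h.evA (D.toO lam (D.mk' lam (MvPolynomial.C a))) = _
  rw [h.evA_toO]
  unfold PtS.evB
  rw [Dat.ev_mk, MvPolynomial.coe_eval₂Hom, MvPolynomial.eval₂_C]

theorem PtS.evA_ent (h : PtS σ D lam y) (j : ∀ l, Fin (k l)) (l : Fin (n + 1)) :
    h.evA (D.ent lam j l : D.Open lam) =
      (D.A l (j l)).eval₂ σ (y l) / (D.B l (j l)).eval₂ σ (y l) := by
  rw [eq_div_iff (h.B_ne l (j l))]
  have h1 : h.evA (D.ent lam j l : D.Open lam) * h.evA (D.uB lam l (j l) : D.Open lam) =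
      h.evA (D.uA lam l (j l) : D.Open lam) := by
    rw [← map_mul, ← Units.val_mul]
    unfold Dat.ent
    rw [div_mul_cancel]
  rw [D.coe_uA, D.coe_uB, h.evA_toO, h.evA_toO] at h1
  unfold PtS.evB at h1
  rw [Dat.ev_pol, Dat.ev_pol] at h1
  exact h1

theorem contDiff_evA {d : ℕ} {Y : (Fin d → ℝ) → Fin (n + 1) → ℂ} (hY : ContDiff ℝ 2 Y)
    (hP : ∀ θ, PtS σ D lam (Y θ)) (h : D.Open lam) : ContDiff ℝ 2 fun θ => (hP θ).evA h := by
  have hYk : ∀ l, ContDiff ℝ 2 fun θ => Y θ l := fun l => contDiff_pi.1 hY l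
  have hmv : ∀ p : MvPolynomial (Fin (n + 1)) K,
      ContDiff ℝ 2 fun θ => MvPolynomial.eval₂Hom σ (Y θ) p := by
    intro p
    induction p using MvPolynomial.induction_on with
    | C c => simpa using contDiff_const
    | add p q hp hq => simpa using hp.add hq
    | mul_X p l hp => simpa using hp.mul (hYk l)
  have hB : ∀ a : D.CRing lam, ContDiff ℝ 2 fun θ => (hP θ).evB a := by
    intro a
    obtain ⟨p, hp⟩ := D.mk'_surjective lam a
    have e : (fun θ => (hP θ).evB a) = fun θ => MvPolynomial.eval₂Hom σ (Y θ) p := by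
      funext θ
      unfold PtS.evB
      rw [← hp, Dat.ev_mk]
    rw [e]
    exact hmv p
  obtain ⟨s, a, ha⟩ := IsLocalization.Away.surj (D.Del lam) h
  have e : (fun θ => (hP θ).evA h) = fun θ =>
      (hP θ).evB a * ((hP θ).evB (D.Del lam))⁻¹ ^ s := by
    funext θ
    have h1 := congrArg (hP θ).evA ha
    rw [map_mul, map_pow] at h1
    have h2 : ∀ b : D.CRing lam, (hP θ).evA (algebraMap (D.CRing lam)
        (Localization.Away (D.Del lam)) b) = (hP θ).evB b := (hP θ).evA_toO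
    rw [h2, h2] at h1
    have h3 := (hP θ).evB_Del
    rw [← h1, mul_assoc, ← mul_pow, mul_inv_cancel₀ h3, one_pow, mul_one]
  rw [e]
  exact (hB _).mul (((hB _).inv fun θ => (hP θ).evB_Del).pow s)

/-- A torus in the open part of the hypersurface. -/
noncomputable def mkS {Y : (Fin n → ℝ) → Fin (n + 1) → ℂ} (hY : ContDiff ℝ 2 Y)
    (hper : ∀ θ i, Y (θ + Pi.single i 1) = Y θ) (hP : ∀ θ, PtS σ D lam (Y θ)) :
    Torus (D.Open lam) n where
  e θ := (hP θ).evA
  smooth h := contDiff_evA hY hP h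
  periodic θ i := PtS.evA_congr _ _ (hper θ i)

theorem mkS_e {Y : (Fin n → ℝ) → Fin (n + 1) → ℂ} (hY : ContDiff ℝ 2 Y)
    (hper : ∀ θ i, Y (θ + Pi.single i 1) = Y θ) (hP : ∀ θ, PtS σ D lam (Y θ)) (θ : Fin n → ℝ) :
    (mkS hY hper hP).e θ = (hP θ).evA := rfl

/-- The regulator of a symbol on a torus on which `z_0 = X(θ)` and `z_(l+1) = Z_l(θ_l)`. -/
theorem mkS_reg {X : (Fin n → ℝ) → ℂ} {Z : Fin n → ℝ → ℂ}
    (hY : ContDiff ℝ 2 fun θ : Fin n → ℝ => (Fin.cons (X θ) fun l => Z l (θ l) :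
      Fin (n + 1) → ℂ))
    (hper : ∀ (θ : Fin n → ℝ) i, (Fin.cons (X (θ + Pi.single i 1))
      (fun l => Z l ((θ + Pi.single i 1 : Fin n → ℝ) l)) : Fin (n + 1) → ℂ) =
        Fin.cons (X θ) fun l => Z l (θ l))
    (hP : ∀ θ : Fin n → ℝ, PtS σ D lam (Fin.cons (X θ) fun l => Z l (θ l)))
    (j : ∀ l, Fin (k l)) :
    (mkS hY hper hP).reg (symb (D.ent lam j)) =
      pairing (Fin.cons (fun θ => (D.A 0 (j 0)).eval₂ σ (X θ) / (D.B 0 (j 0)).eval₂ σ (X θ))
        (vf fun l s => (D.A l.succ (j l.succ)).eval₂ σ (Z l s) /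
          (D.B l.succ (j l.succ)).eval₂ σ (Z l s))) := by
  rw [Torus.reg_symb]
  unfold Torus.pair
  congr 1
  funext l θ
  show (hP θ).evA (D.ent lam j l : D.Open lam) = _
  rw [PtS.evA_ent]
  refine Fin.cases ?_ (fun l => ?_) l
  · rfl
  · rfl

end Pool.Agent.U759.TQ
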