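import Pool.Agent.U759.TQ.Joint
import Pool.Agent.U759.TQ.Dom
set_option autoImplicit false

/-!
The hypersurfaces `∏_l φ_l(z_l) = λ` for units `λ` which are large at a place `σ` and small at a
place `τ`.
-/

namespace Pool.Agent.U759.TQ

open Polynomial

open Pool.Agent.TH826.MK (KQ symb Unramified Torus)

section units

theorem exists_gt {K : Type*} [Field K] [NumberField K] {e : K} (he : IsIntegral ℤ e)
    (he0 : e ≠ 0) (hne : ∀ n : ℕ, 0 < n → e ^ n ≠ 1) : ∃ σ : K →+* ℂ, 1 < ‖σ e‖ := by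
  by_contra hcon
  push Not at hcon
  obtain ⟨n, hn, h⟩ :=
    NumberField.Embeddings.pow_eq_one_of_norm_le_one K ℂ he0 he fun φ => hcon φ
  exact hne n hn h

/-- The powers of a unit of infinite order. -/
theorem exists_pow {K : Type*} [Field K] [NumberField K] {e : K} (he : IsIntegral ℤ e)
    (he' : IsIntegral ℤ e⁻¹) (hne : ∀ n : ℕ, 0 < n → e ^ n ≠ 1) (he0 : e ≠ 0) (c : ℝ) :
    ∃ (σ τ : K →+* ℂ) (M : ℕ), ∀ m ≥ M, c ≤ ‖σ (e ^ m)‖ ∧ ‖τ (e ^ m)‖ * c ≤ 1 := by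
  obtain ⟨σ, hσ⟩ := exists_gt he he0 hne
  obtain ⟨τ, hτ⟩ := exists_gt he' (inv_ne_zero he0) fun n hn h => by
    rw [inv_pow, inv_eq_one] at h
    exact hne n hn h
  obtain ⟨M1, hM1⟩ := pow_unbounded_of_one_lt c hσ
  obtain ⟨M2, hM2⟩ := pow_unbounded_of_one_lt c hτ
  refine ⟨σ, τ, max M1 M2, fun m hm => ⟨?_, ?_⟩⟩
  · rw [map_pow, norm_pow]
    exact hM1.le.trans (pow_le_pow_right₀ hσ.le ((le_max_left _ _).trans hm))
  · have h1 : c ≤ ‖τ e⁻¹‖ ^ m :=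
      hM2.le.trans (pow_le_pow_right₀ hτ.le ((le_max_right _ _).trans hm))
    have h2 : ‖τ (e ^ m)‖ * ‖τ e⁻¹‖ ^ m = 1 := by
      rw [← norm_pow, ← map_pow, ← norm_mul, ← map_mul, ← mul_pow, mul_inv_cancel₀ he0,
        one_pow, map_one, norm_one]
    rw [← h2]
    exact mul_le_mul_of_nonneg_left h1 (norm_nonneg _)

end units

variable {K : Type*} [Field K] {n : ℕ} {k k' : Fin (n + 1) → ℕ}

theorem smooth_snd (τ : K →+* ℂ) {E : Dat2 K n k k'} {lam : K} (hl0 : lam ≠ 0)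
    (h : Smooth τ E.snd lam⁻¹) : Smooth τ E.dat lam := by
  intro y hy hM
  have hτ0 : τ lam ≠ 0 := (map_ne_zero τ).2 hl0
  have hMp : ∏ l, (E.M l).eval₂ τ (y l) ≠ 0 := Finset.prod_ne_zero_iff.2 fun l _ => hM l
  have hy' : ∏ l, (E.N l).eval₂ τ (y l) = τ lam * ∏ l, (E.M l).eval₂ τ (y l) := hy
  have hNp : ∏ l, (E.N l).eval₂ τ (y l) ≠ 0 := by
    rw [hy']
    exact mul_ne_zero hτ0 hMp
  obtain ⟨l, hl⟩ := h y (by
    show ∏ l, (E.M l).eval₂ τ (y l) = τ lam⁻¹ * ∏ l, (E.N l).eval₂ τ (y l)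
    rw [hy', map_inv₀, inv_mul_cancel_left₀ hτ0]) fun l =>
      Finset.prod_ne_zero_iff.1 hNp l (Finset.mem_univ l)
  refine ⟨l, fun h0 => hl ?_⟩
  have he : E.snd.eqn lam⁻¹ = -MvPolynomial.C lam⁻¹ * E.dat.eqn lam := by
    unfold Dat.eqn
    show ∏ l, mp l (E.M l) - MvPolynomial.C lam⁻¹ * ∏ l, mp l (E.N l) =
      -MvPolynomial.C lam⁻¹ *
        (∏ l, mp l (E.N l) - MvPolynomial.C lam * ∏ l, mp l (E.M l))
    have h1 : (MvPolynomial.C lam⁻¹ * MvPolynomial.C lam : MvPolynomial (Fin (n + 1)) K) = 1 := by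
      rw [← map_mul, inv_mul_cancel₀ hl0, map_one]
    linear_combination (-∏ l, mp l (E.M l)) * h1
  rw [he, ← map_neg, MvPolynomial.pderiv_C_mul, map_mul, h0, mul_zero]

/-- The functions of the first kind. -/
theorem Dat2.Ok.simple_zero {E : Dat2 K n k k'} (H : E.Ok) (σ : K →+* ℂ) (hk : k 0 ≠ 0) :
    ∃ b, ((E.M 0).map σ).eval b = 0 ∧ (derivative ((E.M 0).map σ)).eval b ≠ 0 := by
  have j : Fin (k 0) := ⟨0, Nat.pos_of_ne_zero hk⟩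
  obtain ⟨b, hb⟩ : ∃ b, ((E.A 0 j).map σ).eval b = 0 := by
    refine IsAlgClosed.exists_root _ ?_
    rw [degree_map, degree_eq_natDegree ((H.fst 0).monicA j).ne_zero]
    exact_mod_cast (H.pfst.pos 0 j).ne'
  refine ⟨b, ?_, ?_⟩
  · by_contra h
    exact dvd_ne σ ((H.fst 0).dvdA j) h hb
  · rw [derivative_map]
    exact coprime_ne σ (H.pfst.simple j) hb

theorem Dat2.Ok.natDegree_pos {E : Dat2 K n k k'} (H : E.Ok) {l : Fin (n + 1)} (hk : k' l ≠ 0) :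
    0 < (E.N l).natDegree := by
  have j : Fin (k' l) := ⟨0, Nat.pos_of_ne_zero hk⟩
  obtain ⟨s, hs⟩ := (H.snd l).dvdA j
  have h1 := H.psnd.pos l j
  by_contra h2
  have h3 : (E.N l).natDegree = 0 := by omega
  have h4 : E.N l = 1 := (H.fst l).monicN.natDegree_eq_zero.1 h3
  have h5 : E.A' l j ∣ E.N l ^ s := hs
  rw [h4, one_pow] at h5
  have h6 := natDegree_le_of_dvd h5 one_ne_zero
  rw [natDegree_one] at h6
  have h7 : 0 < (E.A' l j).natDegree := h1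
  omega

/-- The conclusions for all large units. -/
theorem exists_const [NumberField K] {E : Dat2 K n k k'} (H : E.Ok) (hk : ∀ l, k l ≠ 0)
    (hk' : ∀ l, k' l ≠ 0) (hn : n ≠ 0) :
    ∃ C : ℝ, ∀ (σ τ : K →+* ℂ) (lam : K), C ≤ ‖σ lam‖ → ‖τ lam‖ * C ≤ 1 →
      lam ≠ 0 ∧ Nontrivial (E.dat.Open lam) ∧
      ((∀ l, IsCoprime (E.N l) (E.M l)) → (∀ l, l ≠ 0 → (E.M l).natDegree ≤ (E.N l).natDegree) →
        IsDomain (E.dat.CRing lam)) ∧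
      Smooth σ E.dat lam ∧ Smooth τ E.dat lam ∧
      ∃ Γ : ((∀ l, Fin (k l)) ⊕ (∀ l, Fin (k' l))) → Torus (E.dat.Open lam) n,
        (∀ t θ a, (Γ (Sum.inl t)).e θ (E.dat.cst lam a) = σ a) ∧
        (∀ t θ a, (Γ (Sum.inr t)).e θ (E.dat.cst lam a) = τ a) ∧
        (Matrix.of fun t s : ((∀ l, Fin (k l)) ⊕ (∀ l, Fin (k' l))) =>
          (Γ t).reg (symb (E.dat.ent lam (idx s)))).det ≠ 0 := by
  classical
  choose C1 hC1 using fun σ τ : K →+* ℂ => exists_tori2 σ τ H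
  choose C2 hC2 using fun σ : K →+* ℂ => exists_smooth σ H.fst H.pfst hk
  choose C3 hC3 using fun τ : K →+* ℂ => exists_smooth τ H.snd H.psnd hk'
  have hdom : ∀ σ : K →+* ℂ, ∃ C : ℝ, ∀ lam : K, C ≤ ‖σ lam‖ →
      (∀ l, IsCoprime (E.N l) (E.M l)) → (∀ l, l ≠ 0 → (E.M l).natDegree ≤ (E.N l).natDegree) →
        IsDomain (E.dat.CRing lam) := by
    intro σ
    by_cases h : (∀ l, IsCoprime (E.N l) (E.M l)) ∧
        ∀ l, l ≠ 0 → (E.M l).natDegree ≤ (E.N l).natDegree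
    · obtain ⟨b, hb0, hb1⟩ := H.simple_zero σ (hk 0)
      obtain ⟨C, hC⟩ := exists_domain σ E.dat hn h.1 (fun l => (H.fst l).M_ne)
        (fun l => H.natDegree_pos (hk' l.succ)) (fun l => h.2 _ (Fin.succ_ne_zero l)) hb0 hb1
      exact ⟨C, fun lam hlam _ _ => hC lam hlam⟩
    · exact ⟨0, fun lam _ h1 h2 => absurd ⟨h1, h2⟩ h⟩
  choose C4 hC4 using hdom
  set S : ℝ := 1 + (∑ σ, ∑ τ, |C1 σ τ|) + (∑ σ, |C2 σ|) + (∑ σ, |C3 σ|) + ∑ σ, |C4 σ| with hS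
  have p1 : 0 ≤ ∑ σ, ∑ τ, |C1 σ τ| :=
    Finset.sum_nonneg fun _ _ => Finset.sum_nonneg fun _ _ => abs_nonneg _
  have p2 : 0 ≤ ∑ σ, |C2 σ| := Finset.sum_nonneg fun _ _ => abs_nonneg _
  have p3 : 0 ≤ ∑ σ, |C3 σ| := Finset.sum_nonneg fun _ _ => abs_nonneg _
  have p4 : 0 ≤ ∑ σ, |C4 σ| := Finset.sum_nonneg fun _ _ => abs_nonneg _
  have q1 : ∀ σ τ, C1 σ τ ≤ S := by
    intro σ τ
    have h1 : |C1 σ τ| ≤ ∑ τ, |C1 σ τ| :=
      Finset.single_le_sum (f := fun τ => |C1 σ τ|) (fun _ _ => abs_nonneg _) (Finset.mem_univ τ)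
    have h2 : ∑ τ, |C1 σ τ| ≤ ∑ σ, ∑ τ, |C1 σ τ| :=
      Finset.single_le_sum (f := fun σ => ∑ τ, |C1 σ τ|)
        (fun _ _ => Finset.sum_nonneg fun _ _ => abs_nonneg _) (Finset.mem_univ σ)
    have h3 := le_abs_self (C1 σ τ)
    linarith
  have q2 : ∀ σ, C2 σ ≤ S := by
    intro σ
    have h1 : |C2 σ| ≤ ∑ σ, |C2 σ| :=
      Finset.single_le_sum (f := fun σ => |C2 σ|) (fun _ _ => abs_nonneg _) (Finset.mem_univ σ)
    have h3 := le_abs_self (C2 σ)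
    linarith
  have q3 : ∀ σ, C3 σ ≤ S := by
    intro σ
    have h1 : |C3 σ| ≤ ∑ σ, |C3 σ| :=
      Finset.single_le_sum (f := fun σ => |C3 σ|) (fun _ _ => abs_nonneg _) (Finset.mem_univ σ)
    have h3 := le_abs_self (C3 σ)
    linarith
  have q4 : ∀ σ, C4 σ ≤ S := by
    intro σ
    have h1 : |C4 σ| ≤ ∑ σ, |C4 σ| :=
      Finset.single_le_sum (f := fun σ => |C4 σ|) (fun _ _ => abs_nonneg _) (Finset.mem_univ σ)
    have h3 := le_abs_self (C4 σ)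
    linarith
  have hS1 : 1 ≤ S := by linarith
  refine ⟨S, fun σ τ lam hσ hτ => ?_⟩
  have hl0 : lam ≠ 0 := by
    rintro rfl
    rw [map_zero, norm_zero] at hσ
    linarith
  have hτ0 : 0 < ‖τ lam‖ := norm_pos_iff.2 ((map_ne_zero τ).2 hl0)
  have hτ' : S ≤ ‖τ lam⁻¹‖ := by
    rw [map_inv₀, norm_inv, ← one_div, le_div_iff₀ hτ0, mul_comm]
    exact hτ
  obtain ⟨Γ, h1, h2, h3⟩ := hC1 σ τ lam ((q1 σ τ).trans hσ)
    ((mul_le_mul_of_nonneg_left (q1 σ τ) hτ0.le).trans hτ)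
  refine ⟨hl0, ?_, hC4 σ lam ((q4 σ).trans hσ), ?_, ?_, Γ, h1, h2, h3⟩
  · exact RingHom.domain_nontrivial
      ((Γ (Sum.inl fun l => ⟨0, Nat.pos_of_ne_zero (hk l)⟩)).e 0)
  · exact hC2 σ lam ((q2 σ).trans hσ)
  · exact smooth_snd τ hl0 (hC3 τ lam⁻¹ ((q3 τ).trans hτ'))

end Pool.Agent.U759.TQ
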